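import Pool.Agent.R98.EQ.Stm

/-!
Project EQ, piece D3a CELL.
-/

set_option autoImplicit false

namespace Pool.Agent.R98.EQ

open MvPolynomial Finset

open scoped Classical

namespace CellAux

variable {d : ℕ}

lemma cell_eq {f : MvPolynomial (Fin d) ℝ} {x y : Fin d → ℝ} (h : y ∈ cell f x) :
    cell f x = cell f y := connectedComponentIn_eq h

lemma cell_ne {f : MvPolynomial (Fin d) ℝ} {x y : Fin d → ℝ} (h : y ∈ cell f x) :
    eval y f ≠ 0 := connectedComponentIn_subset _ _ h

lemma mem_cell {f : MvPolynomial (Fin d) ℝ} {x : Fin d → ℝ} (h : eval x f ≠ 0) :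
    x ∈ cell f x := mem_connectedComponentIn h

/-- the equivalence relation on indices -/
def st {ι : Type} (f : MvPolynomial (Fin d) ℝ) (x : ι → Fin d → ℝ) : Setoid ι where
  r a b := a = b ∨ (eval (x a) f ≠ 0 ∧ x b ∈ cell f (x a))
  iseqv := by
    refine ⟨fun a => Or.inl rfl, ?_, ?_⟩
    · rintro a b (rfl | ⟨h1, h2⟩)
      · exact Or.inl rfl
      · exact Or.inr ⟨cell_ne h2, by rw [← cell_eq h2]; exact mem_cell h1⟩
    · rintro a b c (rfl | ⟨h1, h2⟩) h
      · exact h
      · rcases h with rfl | ⟨h3, h4⟩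
        · exact Or.inr ⟨h1, h2⟩
        · exact Or.inr ⟨h1, by rw [cell_eq h2]; exact h4⟩

lemma generic_sub {ι κ : Type} [Fintype ι] [Fintype κ] {x : ι → Fin d → ℝ} (hx : Generic d x)
    (g : κ → ι) (hg : Function.Injective g) : Generic d (fun k => x (g k)) := by
  refine ⟨fun a b hab => hg (hx.1 hab), ?_⟩
  intro a p hp hd
  refine lt_of_le_of_lt ?_ (hx.2 a p hp hd)
  apply Finset.card_le_card_of_injOn g
  · intro k hk
    simp only [coe_filter, mem_univ, true_and, Set.mem_setOf_eq] at hk ⊢
    exact hk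
  · exact hg.injOn

end CellAux

open CellAux

/-- D3a CELL -/
theorem cellStmt (hP : PartStmt) (hC : CompStmt) (hPath : ∀ d, 1 ≤ d → PathIn d) :
    CellStmt := by
  intro d hd
  haveI : Nonempty (Fin d) := ⟨⟨0, hd⟩⟩
  obtain ⟨K1, hK1⟩ := hP d hd
  obtain ⟨K2, hK2⟩ := hC (Fin d)
  obtain ⟨K3, hK3⟩ := hPath d hd (K2 * (K1 + 1) ^ d + K1)
  refine ⟨K1 + (K2 * (K1 + 1) ^ d + K1) + K3 + 1, by omega, ?_⟩
  intro n x hx L D hD hDL hn
  obtain ⟨f, hf0, hfd, hfz, hfc⟩ := hK1 (Fin n) x hx L
  let S := st f x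
  let Q := Quotient S
  haveI : Fintype Q := Quotient.fintype S
  let o : Q → Fin n := Quotient.out
  have hoq : ∀ q : Q, Quotient.mk S (o q) = q := fun q => Quotient.out_eq q
  have ho : Function.Injective o := by
    intro a b hab
    rw [← hoq a, ← hoq b, hab]
  have hrel : ∀ a b : Fin n, (Quotient.mk S a = Quotient.mk S b) ↔
      (a = b ∨ (eval (x a) f ≠ 0 ∧ x b ∈ cell f (x a))) := by
    intro a b
    rw [Quotient.eq]
    rfl
  have hy : Generic d (fun q : Q => x (o q)) := generic_sub hx o ho
  -- number of classes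
  have hcard : Fintype.card Q ≤ (K2 * (K1 + 1) ^ d + K1) * 2 ^ (d * L) := by
    have h1 : Fintype.card {q : Q // eval (x (o q)) f ≠ 0} ≤ K2 * ((K1 + 1) * 2 ^ L) ^ d := by
      have := hK2 f ((K1 + 1) * 2 ^ L) (Nat.mul_pos (Nat.succ_pos _) (by positivity))
        (hfd.trans (Nat.mul_le_mul_right _ (Nat.le_succ _)))
        {q : Q // eval (x (o q)) f ≠ 0} (fun q => x (o q.1)) (fun q => q.2) (by
          intro i j hij
          apply Subtype.ext
          rw [← hoq i.1, ← hoq j.1]
          refine (hrel _ _).2 (Or.inr ⟨i.2, ?_⟩)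
          rw [hij]
          exact mem_cell j.2)
      simpa using this
    have h2 : Fintype.card {q : Q // ¬ eval (x (o q)) f ≠ 0} ≤ K1 * 2 ^ (d * L) := by
      refine le_trans ?_ hfz
      rw [Fintype.card_subtype]
      apply Finset.card_le_card_of_injOn o
      · intro q hq
        simp only [coe_filter, mem_univ, true_and, Set.mem_setOf_eq, not_not] at hq ⊢
        exact hq
      · exact ho.injOn
    have h3 : Fintype.card Q = Fintype.card {q : Q // eval (x (o q)) f ≠ 0} +
        Fintype.card {q : Q // ¬ eval (x (o q)) f ≠ 0} := by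
      rw [← Fintype.card_sum]
      exact Fintype.card_congr (Equiv.sumCompl (fun q : Q => eval (x (o q)) f ≠ 0)).symm
    have h4 : ((K1 + 1) * 2 ^ L) ^ d = (K1 + 1) ^ d * 2 ^ (d * L) := by
      rw [mul_pow, ← pow_mul, Nat.mul_comm L d]
    rw [h3]
    rw [h4] at h1
    calc _ ≤ K2 * ((K1 + 1) ^ d * 2 ^ (d * L)) + K1 * 2 ^ (d * L) := Nat.add_le_add h1 h2
      _ = _ := by ring
  obtain ⟨e0, he0⟩ := hK3 Q (fun q : Q => x (o q)) hy L D hD hDL hcard
  let pos : Fin n → Fin (Fintype.card Q) := fun a => e0.symm (Quotient.mk S a)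
  let e : Equiv.Perm (Fin n) := Tuple.sort pos
  have hpos : ∀ a b, pos a = pos b ↔ (a = b ∨ (eval (x a) f ≠ 0 ∧ x b ∈ cell f (x a))) := by
    intro a b
    rw [← hrel]
    exact e0.symm.injective.eq_iff
  refine ⟨f, Fintype.card Q, e, fun a => pos (e a), fun s => e.symm (o (e0 s)), ?_, ?_, ?_, ?_,
    ?_, ?_, ?_, ?_⟩
  · refine hfd.trans (Nat.mul_le_mul_right _ (by omega))
  · refine hcard.trans (Nat.mul_le_mul_right _ (by omega))
  · exact Tuple.monotone_sort pos
  · intro s
    simp only [Equiv.apply_symm_apply]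
    show e0.symm (Quotient.mk S (o (e0 s))) = s
    rw [hoq, Equiv.symm_apply_apply]
  · intro s
    have h1 : (univ.filter (fun a => pos (e a) = s)).card = (univ.filter (fun b => pos b = s)).card := by
      apply Finset.card_bij (fun a _ => e a)
      · intro a ha
        simpa using ha
      · intro a _ b _ hab
        exact e.injective hab
      · intro b hb
        exact ⟨e.symm b, by simpa using hb, by simp⟩
    rw [h1]
    let b0 := o (e0 s)
    have hb0 : pos b0 = s := by
      show e0.symm (Quotient.mk S (o (e0 s))) = s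
      rw [hoq, Equiv.symm_apply_apply]
    by_cases hz : eval (x b0) f = 0
    · have h2 : (univ.filter (fun b => pos b = s)) ⊆ {b0} := by
        intro b hb
        simp only [mem_filter, mem_univ, true_and] at hb
        rw [mem_singleton]
        rcases (hpos b b0).1 (by rw [hb, hb0]) with h3 | ⟨_, h4⟩
        · exact h3
        · exact absurd hz (cell_ne h4)
      have h3 := Finset.card_le_card h2
      rw [card_singleton] at h3
      calc _ ≤ 1 * 2 ^ (d * L) := Nat.mul_le_mul_right _ h3
        _ ≤ n := by omega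
    · have h2 : (univ.filter (fun b => pos b = s)) ⊆
          (univ.filter (fun j => x j ∈ cell f (x b0))) := by
        intro b hb
        simp only [mem_filter, mem_univ, true_and] at hb ⊢
        rcases (hpos b0 b).1 (by rw [hb, hb0]) with h3 | ⟨_, h4⟩
        · rw [← h3]
          exact mem_cell hz
        · exact h4
      have h3 := hfc b0 hz
      rw [Fintype.card_fin] at h3
      exact (Nat.mul_le_mul_right _ (Finset.card_le_card h2)).trans h3
  · intro a b hab
    rcases (hpos (e a) (e b)).1 hab with h1 | h1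
    · exact Or.inl (e.injective h1)
    · exact Or.inr h1
  · intro a b h1 h2
    exact (hpos (e a) (e b)).2 (Or.inr ⟨h1, h2⟩)
  · intro gs hgs hg
    have h1 := he0 gs hgs (fun g hgm q => hg g hgm (o q))
    simp only [Equiv.apply_symm_apply]
    refine h1.trans ?_
    refine Nat.mul_le_mul_right _ (Nat.mul_le_mul_right _ (by omega))

end Pool.Agent.R98.EQ
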