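import Mathlib

/-!
Project EQ (MP_f3d7df_co): statements of the pieces. Proofs on paper: `NOTES.md`.
-/

set_option autoImplicit false

namespace Pool.Agent.R98.EQ

open MvPolynomial Finset

open scoped Classical

/-- Connected component of the point `x` in the complement of the zero set of `f`. -/
def cell {σ : Type} (f : MvPolynomial σ ℝ) (x : σ → ℝ) : Set (σ → ℝ) :=
  connectedComponentIn {y | eval y f ≠ 0} x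

/-- Sum of the total degrees. -/
def degSum {σ : Type} (gs : List (MvPolynomial σ ℝ)) : ℕ := (gs.map totalDegree).sum

/-- Some member of the list has different signs at the two points. -/
def Crosses {σ : Type} (gs : List (MvPolynomial σ ℝ)) (x y : σ → ℝ) : Prop :=
  ∃ g ∈ gs, SignType.sign (eval x g) ≠ SignType.sign (eval y g)

/-- `f ^ 2 * (R ^ 2 - |x| ^ 2)`. -/
noncomputable def hpoly {σ : Type} [Fintype σ] (f : MvPolynomial σ ℝ) (R : ℝ) : MvPolynomial σ ℝ :=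
  f ^ 2 * (C (R ^ 2) - ∑ i, X i ^ 2)

/-- Generic families of points: few of them on the zero set of a polynomial. -/
def Generic (d : ℕ) {ι : Type} [Fintype ι] (x : ι → Fin d → ℝ) : Prop :=
  Function.Injective x ∧ ∀ (a : ℕ) (p : MvPolynomial (Fin d) ℝ), p ≠ 0 →
    (∀ i, degreeOf i p ≤ a) → (univ.filter (fun i => eval (x i) p = 0)).card < (a + 1) ^ d

/-- The point of `(ℝ^d)^k` given by indices. -/
def tup {k d : ℕ} {n : Fin k → ℕ} (x : ∀ i, Fin (n i) → Fin d → ℝ) (a : ∀ i, Fin (n i)) :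
    Fin k × Fin d → ℝ := fun v => x v.1 (a v.1) v.2

/-! ### A. Real algebraic geometry by linear algebra -/

/-- A1 REL. -/
def RelStmt : Prop := ∀ (σ τ : Type) [Fintype σ] [Fintype τ] (u : τ → MvPolynomial σ ℝ)
  (l : MvPolynomial σ ℝ) (e : σ → τ → ℕ) (e' : σ → ℕ) (A : τ → ℕ) (B : ℕ),
  (∀ v j, degreeOf v (u j) ≤ e v j) → (∀ v, degreeOf v l ≤ e' v) →
  (∏ v, (∑ j, A j * e v j + B * e' v + 1)) < (∏ j, (A j + 1)) * (B + 1) →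
  ∃ R : Fin (B + 1) → MvPolynomial τ ℝ, (∃ b, R b ≠ 0) ∧
    ∑ b, aeval u (R b) * l ^ (b : ℕ) = 0

/-- A2 SOL. -/
def SolStmt : Prop := ∀ (σ ρ τ : Type) [Fintype σ] [Fintype ρ] [Fintype τ] (emb : ρ → σ)
  (u : τ → MvPolynomial σ ℝ) (B : ℕ),
  (∀ s : ρ → ℝ, ∃ R : Fin (B + 1) → MvPolynomial τ ℝ, (∃ b, R b ≠ 0) ∧
    ∑ b, aeval u (R b) * (∑ i, C (s i) * X (emb i)) ^ (b : ℕ) = 0) →
  ∀ (Q : MvPolynomial τ ℝ), Q ≠ 0 → ∀ (O : Set (τ → ℝ)), IsOpen O → O.Nonempty →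
  ∃ y ∈ O, eval y Q ≠ 0 ∧ ∀ T : Finset (ρ → ℝ),
    (∀ x ∈ T, ∃ z : σ → ℝ, (∀ i, z (emb i) = x i) ∧ ∀ j, eval z (u j) = y j) → T.card ≤ B

/-- A3 CRIT. -/
def CritStmt : Prop := ∀ (σ : Type) [Fintype σ] (f g : MvPolynomial σ ℝ) (ι : Type) [Fintype ι]
  (p q : ι → σ → ℝ), (∀ j, eval (p j) f ≠ 0) → (∀ j, q j ∈ cell f (p j)) →
  (∀ j, 0 < eval (p j) g) → (∀ j, eval (q j) g < 0) →
  ∃ R η : ℝ, 0 < η ∧ ∀ (b c : σ → ℝ) (γ : ℝ), (∀ i, |b i| < η) → (∀ i, |c i| < η) → |γ| < η →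
    (∀ x : σ → ℝ, (∀ i, eval x (pderiv i g) = b i) → eval x g - ∑ i, b i * x i ≠ γ) →
    ∀ j, ∃ x ∈ cell f (p j), ∃ lam : ℝ, eval x g - ∑ i, b i * x i = γ ∧
      ∀ i, lam * (eval x (pderiv i g) - b i) - eval x (pderiv i (hpoly f R)) = c i

/-- A4 CRIT0. -/
def Crit0Stmt : Prop := ∀ (σ : Type) [Fintype σ] (f : MvPolynomial σ ℝ) (ι : Type) [Fintype ι]
  (p : ι → σ → ℝ), (∀ j, eval (p j) f ≠ 0) →
  ∃ R η : ℝ, 0 < η ∧ ∀ c : σ → ℝ, (∀ i, |c i| < η) →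
    ∀ j, ∃ x ∈ cell f (p j), ∀ i, eval x (pderiv i (hpoly f R)) = c i

/-- A5 CROSS: number of cells of `f` on which `g` changes sign. -/
def CrossStmt : Prop := ∀ (σ : Type) [Fintype σ] [Nonempty σ], ∃ K : ℕ,
  ∀ (f g : MvPolynomial σ ℝ) (m D : ℕ), 1 ≤ m → 1 ≤ D → f.totalDegree ≤ m → g.totalDegree ≤ D →
  ∀ (ι : Type) [Fintype ι] (p q : ι → σ → ℝ), (∀ j, eval (p j) f ≠ 0) →
    (∀ j, q j ∈ cell f (p j)) → (∀ j, 0 < eval (p j) g) → (∀ j, eval (q j) g < 0) →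
    (∀ i j, cell f (p i) = cell f (p j) → i = j) →
    Fintype.card ι ≤ K * D * (m + D) ^ (Fintype.card σ - 1)

/-- A6 COMP: number of cells of `f`. -/
def CompStmt : Prop := ∀ (σ : Type) [Fintype σ] [Nonempty σ], ∃ K : ℕ,
  ∀ (f : MvPolynomial σ ℝ) (m : ℕ), 1 ≤ m → f.totalDegree ≤ m →
  ∀ (ι : Type) [Fintype ι] (p : ι → σ → ℝ), (∀ j, eval (p j) f ≠ 0) →
    (∀ i j, cell f (p i) = cell f (p j) → i = j) →
    Fintype.card ι ≤ K * m ^ (Fintype.card σ)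

/-! ### B. Polynomial partitioning -/

/-- B1 HAM: polynomial ham sandwich theorem for finite sets. -/
def HamStmt : Prop := ∀ (d a r : ℕ), r < (a + 1) ^ d → ∀ (A : Fin r → Finset (Fin d → ℝ)),
  ∃ p : MvPolynomial (Fin d) ℝ, p ≠ 0 ∧ (∀ i, degreeOf i p ≤ a) ∧
    ∀ j, 2 * ((A j).filter (fun x => 0 < eval x p)).card ≤ (A j).card ∧
      2 * ((A j).filter (fun x => eval x p < 0)).card ≤ (A j).card

/-- B2 GEN: generic perturbation. -/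
def GenStmt : Prop := ∀ (d : ℕ), 1 ≤ d → ∀ (ι : Type) [Fintype ι] (x : ι → Fin d → ℝ) (η : ℝ),
  0 < η → ∃ x' : ι → Fin d → ℝ, Generic d x' ∧ ∀ i j, |x' i j - x i j| < η

/-- B3 PART: partitioning polynomial for a generic family. -/
def PartStmt : Prop := ∀ (d : ℕ), 1 ≤ d → ∃ K : ℕ, ∀ (ι : Type) [Fintype ι] (x : ι → Fin d → ℝ),
  Generic d x → ∀ L : ℕ, ∃ f : MvPolynomial (Fin d) ℝ, f ≠ 0 ∧ f.totalDegree ≤ K * 2 ^ L ∧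
    (univ.filter (fun i => eval (x i) f = 0)).card ≤ K * 2 ^ (d * L) ∧
    ∀ i, eval (x i) f ≠ 0 →
      (univ.filter (fun j => x j ∈ cell f (x i))).card * 2 ^ (d * L) ≤ Fintype.card ι

/-! ### C. Paths of low crossing number -/

/-- C1 CLOSE. -/
def CloseStmt : Prop := ∀ (d : ℕ), 1 ≤ d → ∃ K : ℕ, 1 ≤ K ∧
  ∀ (ι : Type) [Fintype ι] (x : ι → Fin d → ℝ), Generic d x → ∀ (L D : ℕ), 1 ≤ D → D ≤ 2 ^ L →
  K * 2 ^ (d * L) ≤ Fintype.card ι → ∀ (κ : Type) [Fintype κ] (w : κ → ℝ)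
    (gs : κ → List (MvPolynomial (Fin d) ℝ)), (∀ k, 0 ≤ w k) → (∀ k, degSum (gs k) ≤ D) →
    (∀ k, ∀ g ∈ gs k, ∀ i, eval (x i) g ≠ 0) →
    ∃ i j, i ≠ j ∧ (∑ k ∈ univ.filter (fun k => Crosses (gs k) (x i) (x j)), w k) * 2 ^ L ≤
      K * D * ∑ k, w k

/-- C2 WELZL: abstract path of low crossing number by reweighting. -/
def WelzlStmt : Prop := ∀ (d K : ℕ), 2 ≤ d → 1 ≤ K → ∃ K' : ℕ, ∀ (D L₁ : ℕ), 1 ≤ D →
  ∀ (X κ : Type) [Fintype X] [Fintype κ] (cr : κ → X → X → Prop),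
  (∀ k i j, cr k i j → cr k j i) →
  (∀ L : ℕ, D ≤ 2 ^ L → ∀ Y : Finset X, K * 2 ^ (d * L) ≤ Y.card → ∀ w : κ → ℝ, (∀ k, 0 ≤ w k) →
    ∃ i ∈ Y, ∃ j ∈ Y, i ≠ j ∧
      (∑ k ∈ univ.filter (fun k => cr k i j), w k) * 2 ^ L ≤ K * D * ∑ k, w k) →
  Fintype.card X ≤ K * 2 ^ (d * L₁) →
  ∃ e : Fin (Fintype.card X) ≃ X, ∀ k,
    (univ.filter (fun i : Fin (Fintype.card X) => ∃ h : (i : ℕ) + 1 < Fintype.card X,
      cr k (e i) (e ⟨i + 1, h⟩))).card ≤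
      K' * (Nat.log 2 (Fintype.card κ) + D * 2 ^ ((d - 1) * L₁) + D ^ d)

/-- C3a VC: number of positivity sets. -/
def VCStmt : Prop := ∀ (d C1 : ℕ), 2 ≤ d → ∃ K : ℕ, ∀ (ι : Type) [Fintype ι]
  (x : ι → Fin d → ℝ) (L D : ℕ), 1 ≤ D → D ≤ 2 ^ L → Fintype.card ι ≤ C1 * 2 ^ (d * L) →
  Set.ncard {S : Finset ι | ∃ g : MvPolynomial (Fin d) ℝ, g.totalDegree ≤ D ∧
    ∀ i, i ∈ S ↔ 0 < eval (x i) g} ≤ 2 ^ (K * D * 2 ^ ((d - 1) * L))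

/-- C3b COUNT: number of crossing relations. -/
def CountStmt : Prop := ∀ (d C1 : ℕ), 2 ≤ d → ∃ K : ℕ, ∀ (ι : Type) [Fintype ι]
  (x : ι → Fin d → ℝ) (L D : ℕ), 1 ≤ D → D ≤ 2 ^ L → Fintype.card ι ≤ C1 * 2 ^ (d * L) →
  Set.ncard {r : ι → ι → Prop | ∃ gs : List (MvPolynomial (Fin d) ℝ), degSum gs ≤ D ∧
    (∀ g ∈ gs, ∀ i, eval (x i) g ≠ 0) ∧ ∀ i j, r i j ↔ Crosses gs (x i) (x j)} ≤
    2 ^ (K * D * 2 ^ ((d - 1) * L))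

/-- The conclusion of the path lemma in dimension `d`. -/
def PathIn (d : ℕ) : Prop := ∀ (C1 : ℕ), ∃ K : ℕ, ∀ (ι : Type) [Fintype ι]
  (x : ι → Fin d → ℝ), Generic d x → ∀ (L D : ℕ), 1 ≤ D → D ≤ 2 ^ L →
  Fintype.card ι ≤ C1 * 2 ^ (d * L) → ∃ e : Fin (Fintype.card ι) ≃ ι,
  ∀ gs : List (MvPolynomial (Fin d) ℝ), degSum gs ≤ D → (∀ g ∈ gs, ∀ i, eval (x i) g ≠ 0) →
    (univ.filter (fun i : Fin (Fintype.card ι) => ∃ h : (i : ℕ) + 1 < Fintype.card ι,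
      Crosses gs (x (e i)) (x (e ⟨i + 1, h⟩)))).card ≤ K * D * 2 ^ ((d - 1) * L)

/-! ### D. Assembly -/

/-- D0 PROD. -/
def ProdStmt : Prop := ∀ (d : ℕ) (τ : Type) [Fintype τ] [Nonempty τ], 1 ≤ d → ∃ K : ℕ,
  ∀ (m D : ℕ), 1 ≤ D → D ≤ m → ∀ (f : τ → MvPolynomial (Fin d) ℝ),
  (∀ t, (f t).totalDegree ≤ m) → ∀ gs : List (MvPolynomial (τ × Fin d) ℝ), degSum gs ≤ D →
  ∀ (ι : Type) [Fintype ι] (p q : ι → τ → Fin d → ℝ), (∀ j t, eval (p j t) (f t) ≠ 0) →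
  (∀ j t, q j t ∈ cell (f t) (p j t)) →
  (∀ j, Crosses gs (fun v => p j v.1 v.2) (fun v => q j v.1 v.2)) →
  (∀ j, ∀ g ∈ gs, eval (fun v => p j v.1 v.2) g ≠ 0 ∧ eval (fun v => q j v.1 v.2) g ≠ 0) →
  (∀ i j, (∀ t, cell (f t) (p i t) = cell (f t) (p j t)) → i = j) →
  Fintype.card ι ≤ K * D * m ^ (Fintype.card τ * d - 1)

/-- D1 SEG. -/
def SegStmt : Prop := ∀ (k : ℕ) (n m M : Fin k → ℕ) (α : Type), (∀ i, 1 ≤ m i ∧ m i ≤ n i) →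
  ∀ (c : ∀ i, Fin (n i) → Fin (M i)), (∀ i, Monotone (c i)) →
  (∀ i s, (univ.filter (fun a => c i a = s)).card * m i ≤ n i) →
  ∀ (rep : ∀ i, Fin (M i) → Fin (n i)), (∀ i s, c i (rep i s) = s) →
  ∀ (F : (∀ i, Fin (n i)) → α) (Na Nb : ℕ),
  (univ.filter (fun γ : ∀ i, Fin (M i) => ∃ a b : ∀ i, Fin (n i), (∀ i, c i (a i) = γ i) ∧
    (∀ i, c i (b i) = γ i) ∧ F a ≠ F b)).card ≤ Na →
  (∀ i, m i < n i → (univ.filter (fun γ : ∀ i, Fin (M i) => ∃ h : (γ i : ℕ) + 1 < M i,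
    F (fun j => rep j (γ j)) ≠
      F (fun j => rep j (Function.update γ i ⟨γ i + 1, h⟩ j)))).card ≤ Nb) →
  (univ.filter (fun s : ∀ i, Fin (m i) => ∃ a b : ∀ i, Fin (n i),
    (∀ i, (a i : ℕ) * m i / n i = s i) ∧ (∀ i, (b i : ℕ) * m i / n i = s i) ∧
      F a ≠ F b)).card ≤ 2 ^ k * (Na + k * Nb)

/-- D2 STRICT. -/
def StrictStmt : Prop := ∀ (d k D : ℕ), 1 ≤ d → ∀ (n : Fin k → ℕ)
  (x : ∀ i, Fin (n i) → Fin d → ℝ), ∃ x' : ∀ i, Fin (n i) → Fin d → ℝ,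
  (∀ i, Generic d (x' i)) ∧ ∀ gs : List (MvPolynomial (Fin k × Fin d) ℝ), degSum gs ≤ D →
    ∃ gs' : List (MvPolynomial (Fin k × Fin d) ℝ), degSum gs' ≤ 2 * D ∧
      (∀ g ∈ gs', ∀ a, eval (tup x' a) g ≠ 0) ∧
      ∀ a b, ¬ Crosses gs' (tup x' a) (tup x' b) → ¬ Crosses gs (tup x a) (tup x b)

/-- D3a CELL: the cell structure of one coordinate. -/
def CellStmt : Prop := ∀ (d : ℕ), 1 ≤ d → ∃ K : ℕ, 1 ≤ K ∧ ∀ (n : ℕ) (x : Fin n → Fin d → ℝ),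
  Generic d x → ∀ (L D : ℕ), 1 ≤ D → D ≤ 2 ^ L → 2 ^ (d * L) < n →
  ∃ (f : MvPolynomial (Fin d) ℝ) (M : ℕ) (e : Equiv.Perm (Fin n)) (c : Fin n → Fin M)
    (rep : Fin M → Fin n),
    f.totalDegree ≤ K * 2 ^ L ∧ M ≤ K * 2 ^ (d * L) ∧ Monotone c ∧ (∀ s, c (rep s) = s) ∧
    (∀ s, (univ.filter (fun a => c a = s)).card * 2 ^ (d * L) ≤ n) ∧
    (∀ a b, c a = c b → a = b ∨ (eval (x (e a)) f ≠ 0 ∧ x (e b) ∈ cell f (x (e a)))) ∧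
    (∀ a b, eval (x (e a)) f ≠ 0 → x (e b) ∈ cell f (x (e a)) → c a = c b) ∧
    ∀ gs : List (MvPolynomial (Fin d) ℝ), degSum gs ≤ D → (∀ g ∈ gs, ∀ i, eval (x i) g ≠ 0) →
      (univ.filter (fun s : Fin M => ∃ h : (s : ℕ) + 1 < M,
        Crosses gs (x (e (rep s))) (x (e (rep ⟨s + 1, h⟩))))).card ≤ K * D * 2 ^ ((d - 1) * L)

/-- D3b MAIN0: the main theorem for generic points and nonvanishing polynomials. -/
def Main0Stmt : Prop := ∀ (d k : ℕ), 1 ≤ d → 1 ≤ k → ∃ K : ℕ, 1 ≤ K ∧ ∀ (n : Fin k → ℕ),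
  (∀ i, 1 ≤ n i) → ∀ (x : ∀ i, Fin (n i) → Fin d → ℝ), (∀ i, Generic d (x i)) →
  ∀ (L D : ℕ), 1 ≤ D → D ≤ 2 ^ L → ∃ e : ∀ i, Equiv.Perm (Fin (n i)),
  ∀ gs : List (MvPolynomial (Fin k × Fin d) ℝ), degSum gs ≤ D →
    (∀ g ∈ gs, ∀ a, eval (tup x a) g ≠ 0) →
    (univ.filter (fun s : ∀ i, Fin (min (n i) (2 ^ (d * L))) => ∃ a b : ∀ i, Fin (n i),
      (∀ i, (a i : ℕ) * min (n i) (2 ^ (d * L)) / n i = s i) ∧
      (∀ i, (b i : ℕ) * min (n i) (2 ^ (d * L)) / n i = s i) ∧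
      Crosses gs (tup x (fun i => e i (a i))) (tup x (fun i => e i (b i))))).card * 2 ^ L ≤
      K * D * ∏ i, min (n i) (2 ^ (d * L))

end Pool.Agent.R98.EQ
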