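import Mathlib
import Pool.Agent.R98.EQ.Stm

/-!
Project EQ (MP_f3d7df_co), piece C1 CLOSE.
-/

set_option autoImplicit false

namespace Pool.Agent.R98.EQ

open MvPolynomial Finset

open scoped Classical

namespace CLOSE

lemma cell_eq {σ : Type} (f : MvPolynomial σ ℝ) {x y : σ → ℝ} (h : y ∈ cell f x) :
    cell f x = cell f y :=
  connectedComponentIn_eq h

lemma mem_self {σ : Type} (f : MvPolynomial σ ℝ) {x : σ → ℝ} (h : eval x f ≠ 0) :
    x ∈ cell f x :=
  mem_connectedComponentIn h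

/-- The conclusion of CROSS for `Fin d` with a given constant. -/
def CrossK (d K : ℕ) : Prop :=
  ∀ (f g : MvPolynomial (Fin d) ℝ) (m D : ℕ), 1 ≤ m → 1 ≤ D → f.totalDegree ≤ m →
    g.totalDegree ≤ D →
  ∀ (ι : Type) [Fintype ι] (p q : ι → Fin d → ℝ), (∀ j, eval (p j) f ≠ 0) →
    (∀ j, q j ∈ cell f (p j)) → (∀ j, 0 < eval (p j) g) → (∀ j, eval (q j) g < 0) →
    (∀ i j, cell f (p i) = cell f (p j) → i = j) →
    Fintype.card ι ≤ K * D * (m + D) ^ (d - 1)

lemma count_one (d K : ℕ) (hX : CrossK d K) (f : MvPolynomial (Fin d) ℝ) (m : ℕ) (hm : 1 ≤ m)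
    (hf : f.totalDegree ≤ m) (T : Type) [Fintype T] (p q : T → Fin d → ℝ)
    (hp : ∀ t, eval (p t) f ≠ 0) (hq : ∀ t, q t ∈ cell f (p t))
    (hinj : ∀ s t, cell f (p s) = cell f (p t) → s = t) (D : ℕ) (g : MvPolynomial (Fin d) ℝ)
    (hg : g.totalDegree ≤ D) (hgp : ∀ t, eval (p t) g ≠ 0) (hgq : ∀ t, eval (q t) g ≠ 0) :
    (univ.filter (fun t => SignType.sign (eval (p t) g) ≠ SignType.sign (eval (q t) g))).card ≤
      2 * K * (m + D) ^ (d - 1) * g.totalDegree := by
  rcases Nat.eq_zero_or_pos g.totalDegree with h0 | h0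
  · rw [h0, Nat.mul_zero, Nat.le_zero, Finset.card_eq_zero, Finset.filter_eq_empty_iff]
    intro t _
    rw [totalDegree_eq_zero_iff_eq_C] at h0
    rw [h0]
    simp
  · have key : ∀ (p' q' : T → Fin d → ℝ), (∀ t, eval (p' t) f ≠ 0) →
        (∀ t, q' t ∈ cell f (p' t)) → (∀ s t, cell f (p' s) = cell f (p' t) → s = t) →
        (univ.filter (fun t => 0 < eval (p' t) g ∧ eval (q' t) g < 0)).card ≤
          K * g.totalDegree * (m + D) ^ (d - 1) := by
      intro p' q' h1 h2 h3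
      have h4 := hX f g m g.totalDegree hm h0 hf le_rfl
        {t // t ∈ univ.filter (fun t => 0 < eval (p' t) g ∧ eval (q' t) g < 0)}
        (fun t => p' t.1) (fun t => q' t.1) (fun t => h1 _) (fun t => h2 _)
        (fun t => (Finset.mem_filter.1 t.2).2.1) (fun t => (Finset.mem_filter.1 t.2).2.2)
        (fun s t hst => Subtype.ext (h3 _ _ hst))
      rw [Fintype.card_coe] at h4
      refine h4.trans ?_
      exact Nat.mul_le_mul_left _ (Nat.pow_le_pow_left (by omega) _)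
    have hqf : ∀ t, eval (q t) f ≠ 0 := fun t => connectedComponentIn_subset _ _ (hq t)
    have e1 := key p q hp hq hinj
    have e2 := key q p hqf (fun t => by rw [← cell_eq f (hq t)]; exact mem_self f (hp t))
      (fun s t hst => hinj s t (by rw [cell_eq f (hq s), cell_eq f (hq t)]; exact hst))
    have hsub : univ.filter (fun t => SignType.sign (eval (p t) g) ≠ SignType.sign (eval (q t) g)) ⊆
        univ.filter (fun t => 0 < eval (p t) g ∧ eval (q t) g < 0) ∪
        univ.filter (fun t => 0 < eval (q t) g ∧ eval (p t) g < 0) := by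
      intro t ht
      rw [Finset.mem_filter] at ht
      rw [Finset.mem_union, Finset.mem_filter, Finset.mem_filter]
      rcases lt_or_gt_of_ne (hgp t) with h | h <;> rcases lt_or_gt_of_ne (hgq t) with h' | h'
      · exact absurd (by rw [sign_neg h, sign_neg h']) ht.2
      · exact Or.inr ⟨mem_univ _, h', h⟩
      · exact Or.inl ⟨mem_univ _, h, h'⟩
      · exact absurd (by rw [sign_pos h, sign_pos h']) ht.2
    calc _ ≤ _ := Finset.card_le_card hsub
      _ ≤ _ := Finset.card_union_le _ _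
      _ ≤ _ := Nat.add_le_add e1 e2
      _ = _ := by ring

lemma count_list (d K : ℕ) (hX : CrossK d K) (f : MvPolynomial (Fin d) ℝ) (m : ℕ) (hm : 1 ≤ m)
    (hf : f.totalDegree ≤ m) (T : Type) [Fintype T] (p q : T → Fin d → ℝ)
    (hp : ∀ t, eval (p t) f ≠ 0) (hq : ∀ t, q t ∈ cell f (p t))
    (hinj : ∀ s t, cell f (p s) = cell f (p t) → s = t) (D : ℕ)
    (gs : List (MvPolynomial (Fin d) ℝ))
    (hg : ∀ g ∈ gs, g.totalDegree ≤ D) (hgp : ∀ g ∈ gs, ∀ t, eval (p t) g ≠ 0)
    (hgq : ∀ g ∈ gs, ∀ t, eval (q t) g ≠ 0) :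
    (univ.filter (fun t => Crosses gs (p t) (q t))).card ≤
      2 * K * (m + D) ^ (d - 1) * degSum gs := by
  induction gs with
  | nil =>
    have : univ.filter (fun t => Crosses ([] : List (MvPolynomial (Fin d) ℝ)) (p t) (q t)) = ∅ := by
      rw [Finset.filter_eq_empty_iff]
      intro t _ h
      obtain ⟨g, hg, _⟩ := h
      simp at hg
    rw [this]
    simp
  | cons g gs ih =>
    have h1 := count_one d K hX f m hm hf T p q hp hq hinj D g (hg g (by simp))
      (hgp g (by simp)) (hgq g (by simp))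
    have h2 := ih (fun g' h => hg g' (by simp [h])) (fun g' h => hgp g' (by simp [h]))
      (fun g' h => hgq g' (by simp [h]))
    have hsub : univ.filter (fun t => Crosses (g :: gs) (p t) (q t)) ⊆
        univ.filter (fun t => SignType.sign (eval (p t) g) ≠ SignType.sign (eval (q t) g)) ∪
        univ.filter (fun t => Crosses gs (p t) (q t)) := by
      intro t ht
      rw [Finset.mem_filter] at ht
      rw [Finset.mem_union, Finset.mem_filter, Finset.mem_filter]
      obtain ⟨g', hg', hs⟩ := ht.2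
      rcases List.mem_cons.1 hg' with h | h
      · subst h
        exact Or.inl ⟨mem_univ _, hs⟩
      · exact Or.inr ⟨mem_univ _, g', h, hs⟩
    calc _ ≤ _ := Finset.card_le_card hsub
      _ ≤ _ := Finset.card_union_le _ _
      _ ≤ _ := Nat.add_le_add h1 h2
      _ = _ := by simp only [degSum, List.map_cons, List.sum_cons]; ring

end CLOSE

open CLOSE in
theorem close (hP : PartStmt) (hX : CrossStmt) (hC : CompStmt) : CloseStmt := by
  intro d hd
  obtain ⟨K1, hK1⟩ := hP d hd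
  have : Nonempty (Fin d) := ⟨⟨0, by omega⟩⟩
  obtain ⟨K2, hK2⟩ := hC (Fin d)
  obtain ⟨K3, hK3⟩ := hX (Fin d)
  simp only [Fintype.card_fin] at hK2 hK3
  have hXK : CrossK d K3 := hK3
  refine ⟨2 * (K1 + K2 * (K1 + 1) ^ d) + 4 * K3 * (K1 + 2) ^ (d - 1) + 1, by omega, ?_⟩
  set K : ℕ := 2 * (K1 + K2 * (K1 + 1) ^ d) + 4 * K3 * (K1 + 2) ^ (d - 1) + 1 with hKdef
  intro ι _ x hgen L D hD hDL hn κ _ w gs hw hgs hnz
  obtain ⟨f, hf0, hfd, hfz, hfc⟩ := hK1 ι x hgen L
  set m : ℕ := (K1 + 1) * 2 ^ L with hmdef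
  have h2L : 1 ≤ 2 ^ L := Nat.one_le_two_pow
  have h2dL : 1 ≤ 2 ^ (d * L) := Nat.one_le_two_pow
  have hm1 : 1 ≤ m := Nat.one_le_iff_ne_zero.2 (by positivity)
  have hfm : f.totalDegree ≤ m := hfd.trans (Nat.mul_le_mul_right _ (by omega))
  have hmd : m ^ d = (K1 + 1) ^ d * 2 ^ (d * L) := by
    rw [hmdef, mul_pow, ← pow_mul, Nat.mul_comm L d]
  -- points off the zero set, cells
  set G : Finset ι := univ.filter (fun i => eval (x i) f ≠ 0) with hG
  set CS : Finset (Set (Fin d → ℝ)) := G.image (fun i => cell f (x i)) with hCS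
  set P : Set (Fin d → ℝ) → Finset ι := fun c => G.filter (fun i => cell f (x i) = c) with hPdef
  have hGsum : G.card = ∑ c ∈ CS, (P c).card := Finset.card_eq_sum_card_image _ _
  have hsplit : (univ.filter (fun i => eval (x i) f = 0)).card + G.card = Fintype.card ι := by
    rw [hG, ← Finset.card_univ]
    exact Finset.card_filter_add_card_filter_not (s := univ) (fun i => eval (x i) f = 0)
  -- number of cells
  have hCScard : CS.card ≤ K2 * m ^ d := by
    have hrep : ∀ c : {c // c ∈ CS}, ∃ i, eval (x i) f ≠ 0 ∧ cell f (x i) = c.1 := by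
      rintro ⟨c, hc⟩
      rw [hCS, Finset.mem_image] at hc
      obtain ⟨i, hi, rfl⟩ := hc
      exact ⟨i, (Finset.mem_filter.1 hi).2, rfl⟩
    choose r hr1 hr2 using hrep
    have := hK2 f m hm1 hfm {c // c ∈ CS} (fun c => x (r c)) hr1 (fun a b hab => by
      apply Subtype.ext
      rw [← hr2 a, ← hr2 b]
      exact hab)
    rwa [Fintype.card_coe] at this
  set CS1 : Finset (Set (Fin d → ℝ)) := CS.filter (fun c => 2 ≤ (P c).card) with hCS1
  have hsum1 : ∑ c ∈ CS, (P c).card ≤ ∑ c ∈ CS1, (P c).card + CS.card := by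
    rw [← Finset.sum_filter_add_sum_filter_not CS (fun c => 2 ≤ (P c).card)]
    refine Nat.add_le_add_left ?_ _
    calc ∑ c ∈ CS.filter (fun c => ¬ 2 ≤ (P c).card), (P c).card
        ≤ ∑ c ∈ CS.filter (fun c => ¬ 2 ≤ (P c).card), 1 := by
          refine Finset.sum_le_sum fun c hc => ?_
          have := (Finset.mem_filter.1 hc).2
          omega
      _ = (CS.filter (fun c => ¬ 2 ≤ (P c).card)).card := by simp
      _ ≤ CS.card := Finset.card_filter_le _ _
  have hcell : ∀ c ∈ CS, (P c).card * 2 ^ (d * L) ≤ Fintype.card ι := by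
    intro c hc
    rw [hCS, Finset.mem_image] at hc
    obtain ⟨i, hi, rfl⟩ := hc
    refine le_trans (Nat.mul_le_mul_right _ (Finset.card_le_card ?_))
      (hfc i (Finset.mem_filter.1 hi).2)
    intro j hj
    rw [hPdef] at hj
    simp only [Finset.mem_filter] at hj
    rw [Finset.mem_filter]
    refine ⟨mem_univ _, ?_⟩
    rw [← hj.2]
    exact mem_self f (Finset.mem_filter.1 hj.1).2
  have hcard1 : 2 ^ (d * L) ≤ 2 * CS1.card := by
    have h1 : (∑ c ∈ CS1, (P c).card) * 2 ^ (d * L) ≤ CS1.card * Fintype.card ι := by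
      rw [Finset.sum_mul]
      calc ∑ c ∈ CS1, (P c).card * 2 ^ (d * L) ≤ ∑ c ∈ CS1, Fintype.card ι :=
            Finset.sum_le_sum fun c hc => hcell c (Finset.mem_filter.1 hc).1
        _ = CS1.card * Fintype.card ι := by simp
    have h2 : Fintype.card ι ≤ 2 * ∑ c ∈ CS1, (P c).card := by
      have h3 : 2 * (K1 + K2 * (K1 + 1) ^ d) * 2 ^ (d * L) ≤ Fintype.card ι :=
        le_trans (Nat.mul_le_mul_right _ (by omega)) hn
      have h4 : K2 * m ^ d = K2 * (K1 + 1) ^ d * 2 ^ (d * L) := by rw [hmd]; ring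
      have h5 : 2 * (K1 + K2 * (K1 + 1) ^ d) * 2 ^ (d * L) =
        2 * (K1 * 2 ^ (d * L)) + 2 * (K2 * (K1 + 1) ^ d * 2 ^ (d * L)) := by ring
      omega
    have hnpos : 0 < Fintype.card ι := by
      have : 1 ≤ K * 2 ^ (d * L) := Nat.one_le_iff_ne_zero.2 (by positivity)
      omega
    have h6 : 2 ^ (d * L) * Fintype.card ι ≤ 2 * CS1.card * Fintype.card ι := by
      calc 2 ^ (d * L) * Fintype.card ι ≤ 2 ^ (d * L) * (2 * ∑ c ∈ CS1, (P c).card) :=
            Nat.mul_le_mul_left _ h2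
        _ = 2 * ((∑ c ∈ CS1, (P c).card) * 2 ^ (d * L)) := by ring
        _ ≤ 2 * (CS1.card * Fintype.card ι) := Nat.mul_le_mul_left _ h1
        _ = _ := by ring
    exact Nat.le_of_mul_le_mul_right h6 hnpos
  -- choose the pairs
  have hpair : ∀ c : {c // c ∈ CS1}, ∃ i j, i ≠ j ∧ eval (x i) f ≠ 0 ∧ cell f (x i) = c.1 ∧
      eval (x j) f ≠ 0 ∧ cell f (x j) = c.1 := by
    rintro ⟨c, hc⟩
    have h1 : 1 < (P c).card := (Finset.mem_filter.1 hc).2
    obtain ⟨i, hi, j, hj, hij⟩ := Finset.one_lt_card.1 h1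
    rw [hPdef] at hi hj
    simp only [Finset.mem_filter] at hi hj
    exact ⟨i, j, hij, (Finset.mem_filter.1 hi.1).2, hi.2, (Finset.mem_filter.1 hj.1).2, hj.2⟩
  choose a b hab ha1 ha2 hb1 hb2 using hpair
  have hcnt : ∀ k, (univ.filter (fun t : {c // c ∈ CS1} =>
      Crosses (gs k) (x (a t)) (x (b t)))).card ≤ 2 * K3 * (m + D) ^ (d - 1) * D := by
    intro k
    have h1 := count_list d K3 hXK f m hm1 hfm {c // c ∈ CS1} (fun t => x (a t))
      (fun t => x (b t)) ha1 (fun t => by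
        rw [ha2 t, ← hb2 t]
        exact mem_self f (hb1 t))
      (fun s t hst => by
        apply Subtype.ext
        rw [← ha2 s, ← ha2 t]
        exact hst) D (gs k)
      (fun g hg => by
        refine le_trans ?_ (hgs k)
        exact List.single_le_sum (by simp) _ (List.mem_map_of_mem hg))
      (fun g hg t => hnz k g hg _) (fun g hg t => hnz k g hg _)
    exact h1.trans (Nat.mul_le_mul_left _ (hgs k))
  -- the averaging
  by_contra hcon
  push Not at hcon
  have hW : 0 ≤ ∑ k, w k := Finset.sum_nonneg fun k _ => hw k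
  have hne : (univ : Finset {c // c ∈ CS1}).Nonempty := by
    rw [← Finset.card_pos, Finset.card_univ, Fintype.card_coe]
    omega
  have hlt : ∑ t : {c // c ∈ CS1}, ((K : ℝ) * D * ∑ k, w k) <
      ∑ t : {c // c ∈ CS1},
        (∑ k ∈ univ.filter (fun k => Crosses (gs k) (x (a t)) (x (b t))), w k) * 2 ^ L :=
    Finset.sum_lt_sum_of_nonempty hne fun t _ => hcon (a t) (b t) (hab t)
  rw [Finset.sum_const, Finset.card_univ, Fintype.card_coe, nsmul_eq_mul, ← Finset.sum_mul] at hlt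
  have hswap : ∑ t : {c // c ∈ CS1},
        (∑ k ∈ univ.filter (fun k => Crosses (gs k) (x (a t)) (x (b t))), w k) =
      ∑ k, ((univ.filter (fun t : {c // c ∈ CS1} =>
        Crosses (gs k) (x (a t)) (x (b t)))).card : ℝ) * w k := by
    simp only [Finset.sum_filter]
    rw [Finset.sum_comm]
    refine Finset.sum_congr rfl fun k _ => ?_
    rw [← Finset.sum_filter, Finset.sum_const, nsmul_eq_mul]
  have hle : ∑ k, ((univ.filter (fun t : {c // c ∈ CS1} =>
        Crosses (gs k) (x (a t)) (x (b t)))).card : ℝ) * w k ≤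
      (2 * K3 * (m + D) ^ (d - 1) * D : ℝ) * ∑ k, w k := by
    rw [Finset.mul_sum]
    refine Finset.sum_le_sum fun k _ => mul_le_mul_of_nonneg_right ?_ (hw k)
    exact_mod_cast hcnt k
  rw [hswap] at hlt
  have h2Lr : (0 : ℝ) < 2 ^ L := by positivity
  have hB : (m + D) ^ (d - 1) ≤ (K1 + 2) ^ (d - 1) * 2 ^ (L * (d - 1)) := by
    rw [pow_mul, ← mul_pow]
    refine Nat.pow_le_pow_left ?_ _
    rw [hmdef]
    nlinarith
  have hBr : ((m + D : ℝ)) ^ (d - 1) ≤ (K1 + 2) ^ (d - 1) * 2 ^ (L * (d - 1)) := by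
    exact_mod_cast hB
  have hdL : (2 : ℝ) ^ (d * L) = 2 ^ L * 2 ^ (L * (d - 1)) := by
    rw [← pow_add]
    congr 1
    obtain ⟨e, rfl⟩ : ∃ e, d = e + 1 := ⟨d - 1, by omega⟩
    simp only [Nat.add_sub_cancel]
    ring
  have hcr : (2 : ℝ) ^ (d * L) ≤ 2 * (CS1.card : ℝ) := by exact_mod_cast hcard1
  have hKr : (4 : ℝ) * K3 * (K1 + 2) ^ (d - 1) ≤ (K : ℝ) := by
    have : 4 * K3 * (K1 + 2) ^ (d - 1) ≤ K := by omega
    exact_mod_cast this
  have hDr : (0 : ℝ) ≤ (D : ℝ) := by positivity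
  -- upper bound of the right side
  have hup : (∑ k, ((univ.filter (fun t : {c // c ∈ CS1} =>
        Crosses (gs k) (x (a t)) (x (b t)))).card : ℝ) * w k) * 2 ^ L ≤
      (2 * K3 * ((K1 + 2) ^ (d - 1) * 2 ^ (L * (d - 1))) * D : ℝ) * (∑ k, w k) * 2 ^ L := by
    refine mul_le_mul_of_nonneg_right (hle.trans ?_) h2Lr.le
    refine mul_le_mul_of_nonneg_right ?_ hW
    refine mul_le_mul_of_nonneg_right ?_ hDr
    exact mul_le_mul_of_nonneg_left hBr (by positivity)
  have hlow : (2 : ℝ) ^ (d * L) * (4 * K3 * (K1 + 2) ^ (d - 1) * D * ∑ k, w k) ≤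
      2 * ((CS1.card : ℝ) * ((K : ℝ) * D * ∑ k, w k)) := by
    have e1 : 4 * (K3 : ℝ) * (K1 + 2) ^ (d - 1) * D * ∑ k, w k ≤ (K : ℝ) * D * ∑ k, w k :=
      mul_le_mul_of_nonneg_right (mul_le_mul_of_nonneg_right hKr hDr) hW
    have e0 : 0 ≤ 4 * (K3 : ℝ) * (K1 + 2) ^ (d - 1) * D * ∑ k, w k := by positivity
    calc (2 : ℝ) ^ (d * L) * (4 * K3 * (K1 + 2) ^ (d - 1) * D * ∑ k, w k)
        ≤ (2 * (CS1.card : ℝ)) * ((K : ℝ) * D * ∑ k, w k) :=
          mul_le_mul hcr e1 e0 (by positivity)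
      _ = _ := by ring
  rw [hdL] at hlow
  have e3 : (2 : ℝ) ^ L * 2 ^ (L * (d - 1)) * (4 * K3 * (K1 + 2) ^ (d - 1) * D * ∑ k, w k) =
      2 * ((2 * K3 * ((K1 + 2) ^ (d - 1) * 2 ^ (L * (d - 1))) * D : ℝ) * (∑ k, w k) * 2 ^ L) := by
    ring
  rw [e3] at hlow
  linarith

end Pool.Agent.R98.EQ
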