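import Pool.Agent.R98.EQ.Stm

/-! Piece A6 COMP of project EQ: number of cells of a polynomial. -/

set_option autoImplicit false

namespace Pool.Agent.R98.EQ

open MvPolynomial Finset

open scoped Classical

namespace CompAux

variable {σ : Type}

lemma deg_pderiv (v i : σ) (f : MvPolynomial σ ℝ) :
    degreeOf v (pderiv i f) ≤ degreeOf v f := by
  rw [degreeOf_le_iff]
  intro m hm
  have h : pderiv i f =
      ∑ d ∈ f.support, monomial (d - Finsupp.single i 1) (coeff d f * (d i : ℝ)) := by
    conv_lhs => rw [f.as_sum]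
    rw [map_sum]
    simp only [pderiv_monomial]
  rw [h] at hm
  obtain ⟨d, hd, hm3⟩ := Finset.mem_biUnion.1 (support_sum hm)
  have h4 := support_monomial_subset hm3
  rw [Finset.mem_singleton] at h4
  rw [h4]
  calc (d - Finsupp.single i 1 : σ →₀ ℕ) v ≤ d v := by
        rw [Finsupp.tsub_apply]; exact Nat.sub_le _ _
    _ ≤ degreeOf v f := monomial_le_degreeOf v hd

lemma deg_X (v i : σ) : degreeOf v (X i : MvPolynomial σ ℝ) ≤ 1 := by
  rw [degreeOf_X]
  split_ifs <;> omega

lemma deg_hpoly [Fintype σ] (v : σ) (f : MvPolynomial σ ℝ) (R : ℝ) (m : ℕ)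
    (hf : f.totalDegree ≤ m) : degreeOf v (hpoly f R) ≤ 2 * m + 2 := by
  unfold hpoly
  have h1 : degreeOf v f ≤ m := (degreeOf_le_totalDegree f v).trans hf
  have h2 : degreeOf v (f ^ 2) ≤ 2 * m := (degreeOf_pow_le v f 2).trans (by omega)
  have h3 : degreeOf v (C (R ^ 2) - ∑ i, X i ^ 2 : MvPolynomial σ ℝ) ≤ 2 := by
    refine (degreeOf_sub_le v _ _).trans (max_le ?_ ?_)
    · rw [degreeOf_C]; omega
    · refine (degreeOf_sum_le v _ _).trans (Finset.sup_le fun i _ => ?_)
      have := deg_X v i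
      exact (degreeOf_pow_le v _ 2).trans (by omega)
  exact (degreeOf_mul_le v _ _).trans (by omega)

lemma deg_lin [Fintype σ] (v : σ) (s : σ → ℝ) :
    degreeOf v (∑ i, C (s i) * X i : MvPolynomial σ ℝ) ≤ 1 := by
  refine (degreeOf_sum_le v _ _).trans (Finset.sup_le fun i _ => ?_)
  exact (degreeOf_C_mul_le _ _ _).trans (deg_X v i)

end CompAux

open CompAux

theorem comp (hR : RelStmt) (hS : SolStmt) (hC : Crit0Stmt) : CompStmt := by
  intro σ _ _
  set n := Fintype.card σ with hn
  have hn1 : 1 ≤ n := Fintype.card_pos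
  refine ⟨(8 * n) ^ n, ?_⟩
  intro f m hm hf ι _ p hp hinj
  obtain ⟨R, η, hη, hcrit⟩ := hC σ f ι p hp
  set E := 2 * m + 2 with hE
  set B := (2 * n * E) ^ n with hB
  have hrel : ∀ s : σ → ℝ, ∃ R' : Fin (B + 1) → MvPolynomial σ ℝ, (∃ b, R' b ≠ 0) ∧
      ∑ b, aeval (fun i => pderiv i (hpoly f R)) (R' b) *
        (∑ i, C (s i) * X (id i)) ^ (b : ℕ) = 0 := by
    intro s
    refine hR σ σ (fun i => pderiv i (hpoly f R)) (∑ i, C (s i) * X (id i)) (fun _ _ => E)
      (fun _ => 1) (fun _ => B) B ?_ ?_ ?_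
    · intro v j
      exact (deg_pderiv v j _).trans (deg_hpoly v f R m hf)
    · intro v
      exact deg_lin v s
    · simp only [Finset.sum_const, Finset.prod_const, Finset.card_univ, smul_eq_mul, ← hn]
      have h1 : n * (B * E) + B * 1 + 1 ≤ 2 * n * E * (B + 1) := by
        have h2 : 1 ≤ n * E := Nat.one_le_iff_ne_zero.2 (by positivity)
        nlinarith
      calc (n * (B * E) + B * 1 + 1) ^ n ≤ (2 * n * E * (B + 1)) ^ n :=
            Nat.pow_le_pow_left h1 n
        _ = B * (B + 1) ^ n := by rw [mul_pow]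
        _ < (B + 1) ^ n * (B + 1) := by
            have : 0 < (B + 1) ^ n := by positivity
            nlinarith
  have hO : IsOpen {y : σ → ℝ | ∀ i, |y i| < η} := by
    have : {y : σ → ℝ | ∀ i, |y i| < η} = ⋂ i, {y : σ → ℝ | |y i| < η} := by
      ext y; simp
    rw [this]
    exact isOpen_iInter_of_finite fun i =>
      isOpen_lt (by fun_prop) continuous_const
  obtain ⟨y, hy, _, hT⟩ := hS σ σ σ id (fun i => pderiv i (hpoly f R)) B hrel 1 one_ne_zero
    {y : σ → ℝ | ∀ i, |y i| < η} hO ⟨0, fun i => by simpa using hη⟩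
  choose x hxc hxe using hcrit y hy
  have hxinj : Function.Injective x := by
    intro i j hij
    apply hinj
    have h1 : cell f (p i) = cell f (x i) := connectedComponentIn_eq (hxc i)
    have h2 : cell f (p j) = cell f (x j) := connectedComponentIn_eq (hxc j)
    rw [h1, h2, hij]
  have hcard := hT (Finset.univ.image x) (by
    intro z hz
    obtain ⟨j, _, rfl⟩ := Finset.mem_image.1 hz
    exact ⟨x j, fun i => rfl, fun i => hxe j i⟩)
  rw [Finset.card_image_of_injective _ hxinj, Finset.card_univ] at hcard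
  calc Fintype.card ι ≤ B := hcard
    _ ≤ (8 * n * m) ^ n := by
        apply Nat.pow_le_pow_left
        have : E ≤ 4 * m := by omega
        calc 2 * n * E ≤ 2 * n * (4 * m) := Nat.mul_le_mul_left _ this
          _ = 8 * n * m := by ring
    _ = (8 * n) ^ n * m ^ n := by rw [mul_pow]

end Pool.Agent.R98.EQ
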