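import Pool.Agent.R98.EQ.Stm

/-!
# Project EQ, piece C3b: the number of crossing relations
-/

set_option autoImplicit false

namespace Pool.Agent.R98.EQ

open MvPolynomial Finset

open scoped Classical

namespace CT

variable {d : ℕ} {ι : Type}

/-- positivity sets of polynomials of degree at most `s` -/
def P (x : ι → Fin d → ℝ) (s : ℕ) : Set (Finset ι) :=
  {S : Finset ι | ∃ g : MvPolynomial (Fin d) ℝ, g.totalDegree ≤ s ∧
    ∀ i, i ∈ S ↔ 0 < eval (x i) g}

/-- crossing relations of lists of degree at most `s` -/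
def R (x : ι → Fin d → ℝ) (s : ℕ) : Set (ι → ι → Prop) :=
  {r : ι → ι → Prop | ∃ gs : List (MvPolynomial (Fin d) ℝ), degSum gs ≤ s ∧
    (∀ g ∈ gs, ∀ i, eval (x i) g ≠ 0) ∧ ∀ i j, r i j ↔ Crosses gs (x i) (x j)}

/-- combine a positivity set with a relation -/
def comb (q : Finset ι × (ι → ι → Prop)) : ι → ι → Prop :=
  fun i j => ¬ (i ∈ q.1 ↔ j ∈ q.1) ∨ q.2 i j

theorem sign_iff {a b : ℝ} (ha : a ≠ 0) (hb : b ≠ 0) :
    SignType.sign a ≠ SignType.sign b ↔ ¬ (0 < a ↔ 0 < b) := by
  rcases lt_or_gt_of_ne ha with h1 | h1 <;> rcases lt_or_gt_of_ne hb with h2 | h2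
  · rw [sign_neg h1, sign_neg h2]
    simp [not_lt.2 h1.le, not_lt.2 h2.le]
  · rw [sign_neg h1, sign_pos h2]
    simp [not_lt.2 h1.le, h2]
  · rw [sign_pos h1, sign_neg h2]
    simp [not_lt.2 h2.le, h1]
  · rw [sign_pos h1, sign_pos h2]
    simp [h1, h2]

theorem R_mono (x : ι → Fin d → ℝ) {s s' : ℕ} (h : s ≤ s') : R x s ⊆ R x s' := by
  rintro r ⟨gs, h1, h2, h3⟩
  exact ⟨gs, h1.trans h, h2, h3⟩

theorem R_sub [Fintype ι] (x : ι → Fin d → ℝ) (s : ℕ) :
    R x s ⊆ {fun _ _ => False} ∪
      ⋃ t ∈ Finset.Icc 1 s, comb '' (P x t ×ˢ R x (s - t)) := by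
  rintro r ⟨gs, h1, h2, h3⟩
  -- remove constants at the beginning
  have key : ∀ gs : List (MvPolynomial (Fin d) ℝ), degSum gs ≤ s →
      (∀ g ∈ gs, ∀ i, eval (x i) g ≠ 0) →
      (fun i j => Crosses gs (x i) (x j)) ∈ ({fun _ _ => False} ∪
      ⋃ t ∈ Finset.Icc 1 s, comb '' (P x t ×ˢ R x (s - t)) : Set (ι → ι → Prop)) := by
    intro gs
    induction gs with
    | nil =>
      intro _ _
      left
      rw [Set.mem_singleton_iff]
      funext i j
      simp [Crosses]
    | cons g gs ih =>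
      intro hd hn
      have hds : degSum (g :: gs) = g.totalDegree + degSum gs := by simp [degSum]
      rw [hds] at hd
      rcases Nat.eq_zero_or_pos g.totalDegree with h0 | h0
      · have h4 := ih (by omega) (fun g' hg' => hn g' (by simp [hg']))
        have h5 : (fun i j => Crosses (g :: gs) (x i) (x j))
            = (fun i j => Crosses gs (x i) (x j)) := by
          funext i j
          have hc : eval (x i) g = eval (x j) g := by
            rw [(MvPolynomial.totalDegree_eq_zero_iff_eq_C).1 h0]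
            simp
          simp only [Crosses, List.mem_cons, exists_eq_or_imp, hc, ne_eq, not_true_eq_false,
            false_or]
        rw [h5]
        exact h4
      · right
        rw [Set.mem_iUnion₂]
        refine ⟨g.totalDegree, Finset.mem_Icc.2 ⟨h0, by omega⟩, ?_⟩
        refine ⟨(univ.filter (fun i => 0 < eval (x i) g), fun i j => Crosses gs (x i) (x j)),
          ⟨⟨g, le_rfl, fun i => by simp⟩, ⟨gs, by omega,
            fun g' hg' => hn g' (by simp [hg']), fun i j => Iff.rfl⟩⟩, ?_⟩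
        funext i j
        have h6 := sign_iff (hn g (by simp) i) (hn g (by simp) j)
        simp only [comb, Crosses, List.mem_cons, exists_eq_or_imp, Finset.mem_filter,
          Finset.mem_univ, true_and, h6]
  have h4 : r = fun i j => Crosses gs (x i) (x j) := by
    funext i j
    exact propext (h3 i j)
  rw [h4]
  exact key gs h1 h2

theorem geo (s : ℕ) : ∑ t ∈ Finset.Icc 1 s, 2 ^ (s - t) + 1 = 2 ^ s := by
  induction s with
  | zero => simp
  | succ s ih =>
    rw [Finset.sum_Icc_succ_top (by omega)]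
    have h : ∑ t ∈ Finset.Icc 1 s, 2 ^ (s + 1 - t) = 2 * ∑ t ∈ Finset.Icc 1 s, 2 ^ (s - t) := by
      rw [Finset.mul_sum]
      refine Finset.sum_congr rfl fun t ht => ?_
      rw [Finset.mem_Icc] at ht
      rw [Nat.succ_sub ht.2, pow_succ]
      ring
    rw [h, pow_succ, ← ih, Nat.sub_self]
    ring

theorem bound [Fintype ι] (x : ι → Fin d → ℝ) (c D : ℕ)
    (hP : ∀ t, 1 ≤ t → t ≤ D → (P x t).ncard ≤ 2 ^ (c * t)) :
    ∀ s, s ≤ D → (R x s).ncard ≤ 2 ^ ((c + 1) * s) := by
  intro s
  induction s using Nat.strong_induction_on with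
  | _ s ih =>
    intro hs
    have h1 : (R x s).ncard ≤ 1 + ∑ t ∈ Finset.Icc 1 s, (P x t).ncard * (R x (s - t)).ncard := by
      refine (Set.ncard_le_ncard (R_sub x s) (Set.toFinite _)).trans ?_
      refine (Set.ncard_union_le _ _).trans ?_
      refine Nat.add_le_add (by simp) ?_
      refine (Finset.set_ncard_biUnion_le _ _).trans ?_
      refine Finset.sum_le_sum fun t _ => ?_
      refine (Set.ncard_image_le (Set.toFinite _)).trans ?_
      rw [Set.ncard_prod]
    have h2 : ∑ t ∈ Finset.Icc 1 s, (P x t).ncard * (R x (s - t)).ncard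
        ≤ ∑ t ∈ Finset.Icc 1 s, 2 ^ (c * s) * 2 ^ (s - t) := by
      refine Finset.sum_le_sum fun t ht => ?_
      rw [Finset.mem_Icc] at ht
      have h3 := hP t ht.1 (ht.2.trans hs)
      have h4 := ih (s - t) (by omega) (by omega)
      refine (Nat.mul_le_mul h3 h4).trans (le_of_eq ?_)
      rw [← pow_add, ← pow_add]
      congr 1
      obtain ⟨u, rfl⟩ := Nat.exists_eq_add_of_le ht.2
      have : t + u - t = u := by omega
      rw [this]
      ring
    have h3 : ∑ t ∈ Finset.Icc 1 s, 2 ^ (c * s) * 2 ^ (s - t) + 2 ^ (c * s)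
        = 2 ^ (c * s) * 2 ^ s := by
      rw [← Finset.mul_sum, ← geo s]
      ring
    have h4 : 2 ^ (c * s) * 2 ^ s = 2 ^ ((c + 1) * s) := by
      rw [← pow_add]
      congr 1
      ring
    have h5 : 1 ≤ 2 ^ (c * s) := Nat.one_le_two_pow
    omega

end CT

/-- C3b -/
theorem count (hV : VCStmt) : CountStmt := by
  intro d C1 hd
  obtain ⟨K, hK⟩ := hV d C1 hd
  refine ⟨K + 1, ?_⟩
  intro ι _ x L D hD hDL hcard
  set M := 2 ^ ((d - 1) * L) with hM
  have hM1 : 1 ≤ M := Nat.one_le_two_pow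
  have h1 := CT.bound x (K * M) D (fun t ht htD => by
    refine (hK ι x L t ht (htD.trans hDL) hcard).trans (le_of_eq ?_)
    congr 1
    ring) D le_rfl
  refine h1.trans (Nat.pow_le_pow_right (by norm_num) ?_)
  calc (K * M + 1) * D = K * D * M + D * 1 := by ring
    _ ≤ K * D * M + D * M := Nat.add_le_add_left (Nat.mul_le_mul_left _ hM1) _
    _ = (K + 1) * D * M := by ring

end Pool.Agent.R98.EQ
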