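import Pool.Agent.R98.EQ.CritBase

/-!
Project EQ, piece CRIT: constrained critical points in the cells.
-/

set_option autoImplicit false

namespace Pool.Agent.R98.EQ

open MvPolynomial Finset

theorem crit1 {σ : Type} [Fintype σ] (f g : MvPolynomial σ ℝ) (p q : σ → ℝ)
    (K : Set (σ → ℝ)) (hK : IsCompact K) (hKc : IsPreconnected K) (hp : p ∈ K) (hq : q ∈ K)
    (hKs : K ⊆ cell f p) (R : ℝ) (hR : ∀ x ∈ K, nsq x < R ^ 2)
    (hgp : 0 < eval p g) (hgq : eval q g < 0) :
    ∃ η : ℝ, 0 < η ∧ ∀ (b c : σ → ℝ) (γ : ℝ), (∀ i, |b i| < η) → (∀ i, |c i| < η) → |γ| < η →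
    (∀ x : σ → ℝ, (∀ i, eval x (pderiv i g) = b i) → eval x g - ∑ i, b i * x i ≠ γ) →
    ∃ x ∈ cell f p, ∃ lam : ℝ, eval x g - ∑ i, b i * x i = γ ∧
      ∀ i, lam * (eval x (pderiv i g) - b i) - eval x (pderiv i (hpoly f R)) = c i := by
  classical
  -- a positive lower bound of `h` on `K`
  obtain ⟨x1, hx1K, hx1⟩ := hK.exists_isMinOn ⟨p, hp⟩
    (MvPolynomial.continuous_eval (hpoly f R)).continuousOn
  have hpos : ∀ x ∈ K, 0 < eval x (hpoly f R) := by
    intro x hx
    rw [eval_hpoly]
    have h1 : eval x f ≠ 0 := cell_sub (hKs hx)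
    have h2 := hR x hx
    have h3 : 0 < R ^ 2 - nsq x := by linarith
    positivity
  set h0 := eval x1 (hpoly f R) with hh0
  have h0pos : 0 < h0 := hpos x1 hx1K
  have h0le : ∀ x ∈ K, h0 ≤ eval x (hpoly f R) := fun x hx => hx1 hx
  set S : ℝ := Fintype.card σ * |R| + 1 with hS
  have hSpos : 0 < S := by positivity
  refine ⟨min (h0 / (4 * S)) (min (eval p g / (2 * S)) (-eval q g / (2 * S))), ?_, ?_⟩
  · refine lt_min (by positivity) (lt_min (by positivity) ?_)
    have : 0 < -eval q g := by linarith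
    positivity
  intro b c γ hb hc hγ hreg
  set η := min (h0 / (4 * S)) (min (eval p g / (2 * S)) (-eval q g / (2 * S))) with hη
  have hηpos : 0 < η := by
    refine lt_min (by positivity) (lt_min (by positivity) ?_)
    have : 0 < -eval q g := by linarith
    positivity
  have e1 : η * S ≤ h0 / 4 := by
    have : η ≤ h0 / (4 * S) := min_le_left _ _
    calc η * S ≤ h0 / (4 * S) * S := by gcongr
      _ = h0 / 4 := by field_simp
  have e2 : η * S ≤ eval p g / 2 := by
    have : η ≤ eval p g / (2 * S) := (min_le_right _ _).trans (min_le_left _ _)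
    calc η * S ≤ eval p g / (2 * S) * S := by gcongr
      _ = eval p g / 2 := by field_simp
  have e3 : η * S ≤ -eval q g / 2 := by
    have : η ≤ -eval q g / (2 * S) := (min_le_right _ _).trans (min_le_right _ _)
    calc η * S ≤ -eval q g / (2 * S) * S := by gcongr
      _ = -eval q g / 2 := by field_simp
  have hSη : η * S = η * (Fintype.card σ * |R|) + η := by rw [hS]; ring
  have hbs : ∀ x, nsq x ≤ R ^ 2 → |∑ i, b i * x i| ≤ η * (Fintype.card σ * |R|) :=
    fun x hx => abs_sum_le hx hηpos.le fun i => (hb i).le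
  have hcs : ∀ x, nsq x ≤ R ^ 2 → |∑ i, c i * x i| ≤ η * (Fintype.card σ * |R|) :=
    fun x hx => abs_sum_le hx hηpos.le fun i => (hc i).le
  -- the two polynomials
  set G : MvPolynomial σ ℝ := g - ∑ i, C (b i) * X i with hG
  set H : MvPolynomial σ ℝ := hpoly f R + ∑ i, C (c i) * X i with hH
  have hGe : ∀ x, eval x G = eval x g - ∑ i, b i * x i := by intro x; simp [hG]
  have hHe : ∀ x, eval x H = eval x (hpoly f R) + ∑ i, c i * x i := by intro x; simp [hH]
  have hGc : Continuous fun x : σ → ℝ => eval x G := MvPolynomial.continuous_eval G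
  have hHc : Continuous fun x : σ → ℝ => eval x H := MvPolynomial.continuous_eval H
  have hcn : 0 ≤ η * (Fintype.card σ * |R|) := by positivity
  -- a point of `K` with `G = γ`
  have hγ' := abs_lt.1 hγ
  obtain ⟨x0, hx0K, hx0⟩ : ∃ x ∈ K, eval x G = γ := by
    have hp1 : γ ≤ eval p G := by
      rw [hGe]
      have := abs_le.1 (hbs p (hR p hp).le)
      linarith
    have hq1 : eval q G ≤ γ := by
      rw [hGe]
      have := abs_le.1 (hbs q (hR q hq).le)
      linarith
    have := hKc.intermediate_value hq hp hGc.continuousOn (Set.mem_Icc.2 ⟨hq1, hp1⟩)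
    obtain ⟨x, hx, hx2⟩ := this
    exact ⟨x, hx, hx2⟩
  -- the compact set `E`
  set E : Set (σ → ℝ) := (closure (cell f p) ∩ {x | eval x G = γ}) ∩ {x | nsq x ≤ R ^ 2} with hE
  have hEc : IsCompact E := by
    apply isCompact_ball_nsq
    exact isClosed_closure.inter (isClosed_eq hGc continuous_const)
  have hx0E : x0 ∈ E := ⟨⟨subset_closure (hKs hx0K), hx0⟩, (hR x0 hx0K).le⟩
  obtain ⟨x, hxE, hxmax⟩ := hEc.exists_isMaxOn ⟨x0, hx0E⟩ hHc.continuousOn
  have hx3 : eval x0 H ≤ eval x H := hxmax hx0E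
  have hx4 : 0 < eval x (hpoly f R) := by
    rw [hHe, hHe] at hx3
    have t1 := abs_le.1 (hcs x0 (hR x0 hx0K).le)
    have t2 := abs_le.1 (hcs x hxE.2)
    have t3 := h0le x0 hx0K
    linarith
  rw [eval_hpoly] at hx4
  have hfx : eval x f ≠ 0 := by
    intro h
    rw [h] at hx4
    simp at hx4
  have hnx : nsq x < R ^ 2 := by
    by_contra hcon
    push Not at hcon
    have : R ^ 2 - nsq x ≤ 0 := by linarith
    nlinarith [sq_nonneg (eval x f)]
  have hxcell : x ∈ cell f p := mem_cell_of_closure hxE.1.1 hfx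
  have hxG : eval x G = γ := hxE.1.2
  -- local extremum
  have hloc : IsLocalMaxOn (fun y => eval y H) {y | eval y G = eval x G} x := by
    have hN : cell f p ∩ {y | nsq y < R ^ 2} ∈ nhds x :=
      ((isOpen_cell f p).inter (isOpen_lt continuous_nsq continuous_const)).mem_nhds ⟨hxcell, hnx⟩
    filter_upwards [mem_nhdsWithin_of_mem_nhds hN, self_mem_nhdsWithin] with y hy1 hy2
    have hy3 : nsq y < R ^ 2 := hy1.2
    have hy4 : y ∈ E := ⟨⟨subset_closure hy1.1, by simpa [hxG] using hy2⟩, hy3.le⟩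
    exact hxmax hy4
  obtain ⟨α, β, hne, hαβ⟩ := IsLocalExtrOn.exists_multipliers_of_hasStrictFDerivAt_1d
    (φ := fun y => eval y H) (f := fun y => eval y G) (f' := pd G x) (φ' := pd H x)
    (Or.inr hloc) (hasStrictFDerivAt_eval G x) (hasStrictFDerivAt_eval H x)
  have hpdG : ∀ i, eval x (pderiv i G) = eval x (pderiv i g) - b i := by
    intro i
    rw [hG, map_sub, map_sum, map_sub, map_sum]
    congr 1
    rw [Finset.sum_eq_single i]
    · simp
    · intro j _ hj
      simp [pderiv_X, Pi.single_apply, hj]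
    · simp
  have hpdH : ∀ i, eval x (pderiv i H) = eval x (pderiv i (hpoly f R)) + c i := by
    intro i
    rw [hH, map_add, map_sum, map_add, map_sum]
    congr 1
    rw [Finset.sum_eq_single i]
    · simp
    · intro j _ hj
      simp [pderiv_X, Pi.single_apply, hj]
    · simp
  have hcomp : ∀ i, α * (eval x (pderiv i g) - b i) +
      β * (eval x (pderiv i (hpoly f R)) + c i) = 0 := by
    intro i
    have := congrArg (fun L : (σ → ℝ) →L[ℝ] ℝ => L (Pi.single i 1)) hαβ
    simp only [ContinuousLinearMap.add_apply, ContinuousLinearMap.smul_apply, pd_single,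
      smul_eq_mul, ContinuousLinearMap.zero_apply, hpdG, hpdH] at this
    exact this
  have hβ : β ≠ 0 := by
    intro hβ0
    have hα : α ≠ 0 := by
      intro hα0
      exact hne (by rw [hα0, hβ0]; rfl)
    apply hreg x
    · intro i
      have := hcomp i
      rw [hβ0, zero_mul, add_zero] at this
      have := (mul_eq_zero.1 this).resolve_left hα
      linarith
    · rw [← hGe, hxG]
  refine ⟨x, hxcell, -(α / β), by rw [← hGe, hxG], fun i => ?_⟩
  have h1 := hcomp i
  have h2 : eval x (pderiv i (hpoly f R)) + c i = -(α / β) * (eval x (pderiv i g) - b i) := by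
    field_simp
    linarith
  linarith

theorem crit : CritStmt := by
  intro σ _ f g ι _ p q hp hq hgp hgq
  choose K hK hKc hpK hqK hKs using fun j => exists_compact_conn (hp j) (hq j)
  obtain ⟨R, _, hR⟩ := exists_radius K hK
  choose η hη hmain using fun j => crit1 f g (p j) (q j) (K j) (hK j) (hKc j) (hpK j) (hqK j)
    (hKs j) R (hR j) (hgp j) (hgq j)
  obtain ⟨η0, hη0, hle⟩ : ∃ η0 : ℝ, 0 < η0 ∧ ∀ j, η0 ≤ η j := by
    by_cases hι : (univ : Finset ι).Nonempty
    · refine ⟨univ.inf' hι η, ?_, fun j => Finset.inf'_le _ (Finset.mem_univ j)⟩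
      rw [Finset.lt_inf'_iff]
      exact fun j _ => hη j
    · refine ⟨1, one_pos, fun j => ?_⟩
      exact absurd ⟨j, Finset.mem_univ j⟩ hι
  refine ⟨R, η0, hη0, fun b c γ hb hc hγ hreg j => ?_⟩
  exact hmain j b c γ (fun i => (hb i).trans_le (hle j)) (fun i => (hc i).trans_le (hle j))
    (hγ.trans_le (hle j)) hreg

end Pool.Agent.R98.EQ
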