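import Pool.Agent.R98.EQ.Stm

/-! Piece A4 CRIT0 of project EQ: maxima in cells. -/

set_option autoImplicit false

namespace Pool.Agent.R98.EQ

open MvPolynomial Finset Topology

open scoped Classical

namespace Crit0Aux

variable {σ : Type}

lemma hasDerivAt_update (P : MvPolynomial σ ℝ) (x : σ → ℝ) (i : σ) (t : ℝ) :
    HasDerivAt (fun s => eval (Function.update x i s) P)
      (eval (Function.update x i t) (pderiv i P)) t := by
  induction P using MvPolynomial.induction_on with
  | C a => simpa using hasDerivAt_const t a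
  | add p q hp hq =>
    simp only [map_add]
    exact hp.add hq
  | mul_X p j hp =>
    have hX : HasDerivAt (fun s => Function.update x i s j) (if j = i then 1 else 0) t := by
      by_cases h : j = i
      · subst h
        simp only [Function.update_self, if_true]
        exact hasDerivAt_id' t
      · simpa [Function.update_of_ne h, h] using hasDerivAt_const t (x j)
    have h := hp.mul hX
    simp only [map_mul, eval_X]
    refine h.congr_deriv ?_
    rw [Derivation.leibniz, pderiv_X]
    by_cases hj : j = i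
    · subst hj
      simp
      ring
    · simp [hj]
      ring

lemma exists_pos_le {ι : Type} [Fintype ι] (a : ι → ℝ) (ha : ∀ j, 0 < a j) :
    ∃ ε : ℝ, 0 < ε ∧ ∀ j, ε ≤ a j := by
  by_cases h : Nonempty ι
  · obtain ⟨j, _, hj⟩ := Finset.exists_min_image (Finset.univ : Finset ι) a
      Finset.univ_nonempty
    exact ⟨a j, ha j, fun k => hj k (Finset.mem_univ k)⟩
  · exact ⟨1, one_pos, fun j => absurd ⟨j⟩ h⟩

lemma closure_cell [Fintype σ] (f : MvPolynomial σ ℝ) (p x : σ → ℝ)
    (hx : x ∈ closure (cell f p)) (hxn : x ∉ cell f p) : eval x f = 0 := by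
  by_contra hne
  have hF : IsOpen {y : σ → ℝ | eval y f ≠ 0} :=
    isOpen_ne_fun (MvPolynomial.continuous_eval f) continuous_const
  have hD : IsOpen (connectedComponentIn {y : σ → ℝ | eval y f ≠ 0} x) :=
    hF.connectedComponentIn
  have hxD : x ∈ connectedComponentIn {y : σ → ℝ | eval y f ≠ 0} x :=
    mem_connectedComponentIn hne
  obtain ⟨y, hyD, hyc⟩ := mem_closure_iff.1 hx _ hD hxD
  have e1 : connectedComponentIn {y : σ → ℝ | eval y f ≠ 0} x =
      connectedComponentIn {y : σ → ℝ | eval y f ≠ 0} y := connectedComponentIn_eq hyD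
  have e2 : cell f p = connectedComponentIn {y : σ → ℝ | eval y f ≠ 0} y :=
    connectedComponentIn_eq hyc
  apply hxn
  rw [e2, ← e1]
  exact hxD

lemma eval_hpoly [Fintype σ] (f : MvPolynomial σ ℝ) (R : ℝ) (x : σ → ℝ) :
    eval x (hpoly f R) = (eval x f) ^ 2 * (R ^ 2 - ∑ i, x i ^ 2) := by
  simp [hpoly]

end Crit0Aux

open Crit0Aux

theorem crit0 : Crit0Stmt := by
  intro σ _ f ι _ p hp
  set s : ℝ := ∑ j, ∑ i, p j i ^ 2 with hs
  have hs0 : 0 ≤ s := Finset.sum_nonneg fun j _ => Finset.sum_nonneg fun i _ => sq_nonneg _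
  set R : ℝ := s + 1 with hR
  have hRpos : 0 < R := by positivity
  have hpR : ∀ j, ∑ i, p j i ^ 2 < R ^ 2 := by
    intro j
    have h1 : ∑ i, p j i ^ 2 ≤ s :=
      Finset.single_le_sum (f := fun j => ∑ i, p j i ^ 2)
        (fun j _ => Finset.sum_nonneg fun i _ => sq_nonneg _) (Finset.mem_univ j)
    nlinarith
  have hpos : ∀ j, 0 < eval (p j) (hpoly f R) := by
    intro j
    rw [eval_hpoly]
    have h1 : 0 < (eval (p j) f) ^ 2 := by
      have := hp j
      positivity
    exact mul_pos h1 (sub_pos.2 (hpR j))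
  obtain ⟨h0, hh0, hle⟩ := exists_pos_le _ hpos
  set n : ℝ := (Fintype.card σ : ℝ) with hn
  have hn0 : 0 ≤ n := Nat.cast_nonneg _
  refine ⟨R, h0 / (2 * n * R + 1), by positivity, ?_⟩
  intro c hc j
  set η := h0 / (2 * n * R + 1) with hη
  have hη0 : 0 < η := by positivity
  have hηs : 2 * (n * (η * R)) < h0 := by
    have h1 : η * (2 * n * R + 1) = h0 := by
      rw [hη]; field_simp
    nlinarith
  set L : MvPolynomial σ ℝ := ∑ k, C (c k) * X k with hL
  have hLe : ∀ x : σ → ℝ, eval x L = ∑ k, c k * x k := by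
    intro x; simp [hL]
  have hLb : ∀ x : σ → ℝ, ∑ i, x i ^ 2 ≤ R ^ 2 → |eval x L| ≤ n * (η * R) := by
    intro x hx
    rw [hLe]
    refine (Finset.abs_sum_le_sum_abs _ _).trans ?_
    calc ∑ k, |c k * x k| ≤ ∑ _k : σ, η * R := by
          refine Finset.sum_le_sum fun k _ => ?_
          rw [abs_mul]
          have h1 : x k ^ 2 ≤ R ^ 2 :=
            (Finset.single_le_sum (f := fun i => x i ^ 2) (fun i _ => sq_nonneg _)
              (Finset.mem_univ k)).trans hx
          have h2 : |x k| ≤ R := abs_le_of_sq_le_sq h1 hRpos.le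
          exact mul_le_mul (hc k).le h2 (abs_nonneg _) hη0.le
      _ = n * (η * R) := by simp [hn]
  set E : Set (σ → ℝ) := closure (cell f (p j)) ∩ {x | ∑ i, x i ^ 2 ≤ R ^ 2} with hE
  have hcl : IsClosed E := isClosed_closure.inter
    (isClosed_le (by fun_prop) continuous_const)
  have hcomp : IsCompact E := by
    refine Metric.isCompact_of_isClosed_isBounded hcl ?_
    refine (Metric.isBounded_closedBall (x := (0 : σ → ℝ)) (r := R)).subset ?_
    intro x hx
    rw [mem_closedBall_zero_iff, pi_norm_le_iff_of_nonneg hRpos.le]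
    intro k
    have h1 : x k ^ 2 ≤ R ^ 2 :=
      (Finset.single_le_sum (f := fun i => x i ^ 2) (fun i _ => sq_nonneg _)
        (Finset.mem_univ k)).trans hx.2
    rw [Real.norm_eq_abs]
    exact abs_le_of_sq_le_sq h1 hRpos.le
  have hpc : p j ∈ cell f (p j) := mem_connectedComponentIn (hp j)
  have hpE : p j ∈ E := ⟨subset_closure hpc, (hpR j).le⟩
  obtain ⟨x, hxE, hmax⟩ := hcomp.exists_isMaxOn ⟨p j, hpE⟩
    (MvPolynomial.continuous_eval (hpoly f R - L)).continuousOn
  have hge : eval (p j) (hpoly f R - L) ≤ eval x (hpoly f R - L) := hmax hpE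
  have hne : eval x (hpoly f R) ≠ 0 := by
    intro h
    rw [map_sub, map_sub, h, zero_sub] at hge
    have h1 := abs_le.1 (hLb (p j) (hpR j).le)
    have h2 := abs_le.1 (hLb x hxE.2)
    have h3 := hle j
    linarith [h1.1, h1.2, h2.1, h2.2]
  rw [eval_hpoly] at hne
  have hxc : x ∈ cell f (p j) := by
    by_contra hcon
    rw [closure_cell f (p j) x hxE.1 hcon] at hne
    simp at hne
  have hxR : ∑ i, x i ^ 2 < R ^ 2 := by
    refine lt_of_le_of_ne hxE.2 ?_
    intro h
    rw [h] at hne
    simp at hne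
  have hF : IsOpen {y : σ → ℝ | eval y f ≠ 0} :=
    isOpen_ne_fun (MvPolynomial.continuous_eval f) continuous_const
  have hO : {y : σ → ℝ | y ∈ cell f (p j) ∧ ∑ i, y i ^ 2 < R ^ 2} ∈ 𝓝 x := by
    have hO2 : IsOpen {y : σ → ℝ | ∑ i, y i ^ 2 < R ^ 2} :=
      isOpen_lt (by fun_prop) continuous_const
    exact (hF.connectedComponentIn.inter hO2).mem_nhds ⟨hxc, hxR⟩
  have hloc : IsLocalMax (fun y => eval y (hpoly f R - L)) x := by
    filter_upwards [hO] with y hy
    exact hmax ⟨subset_closure hy.1, hy.2.le⟩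
  refine ⟨x, hxc, fun i => ?_⟩
  have hd := hasDerivAt_update (hpoly f R - L) x i (x i)
  rw [Function.update_eq_self] at hd
  have hloc' : IsLocalMax (fun s => eval (Function.update x i s) (hpoly f R - L)) (x i) := by
    have ht : Filter.Tendsto (fun s => Function.update x i s) (𝓝 (x i)) (𝓝 x) := by
      have h1 : Continuous fun s : ℝ => Function.update x i s := by fun_prop
      have h2 := h1.tendsto (x i)
      rwa [Function.update_eq_self] at h2
    have h3 := ht.eventually hloc
    filter_upwards [h3] with s hs'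
    rw [Function.update_eq_self]
    exact hs'
  have h0' := hloc'.hasDerivAt_eq_zero hd
  have hpL : pderiv i L = C (c i) := by
    rw [hL, map_sum]
    rw [Finset.sum_eq_single i]
    · simp
    · intro k _ hk
      rw [pderiv_C_mul, pderiv_X_of_ne hk, mul_zero]
    · intro h; exact absurd (Finset.mem_univ i) h
  rw [map_sub, map_sub, hpL, eval_C, sub_eq_zero] at h0'
  exact h0'

end Pool.Agent.R98.EQ
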