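import Pool.Agent.R98.EQ.Stm

/-!
Project EQ: common lemmas for the pieces CRIT and CRIT0.
-/

set_option autoImplicit false

namespace Pool.Agent.R98.EQ

open MvPolynomial Finset

/-- the derivative of a polynomial at `x` -/
noncomputable def pd {σ : Type} [Fintype σ] (p : MvPolynomial σ ℝ) (x : σ → ℝ) :
    (σ → ℝ) →L[ℝ] ℝ :=
  ∑ i, eval x (pderiv i p) • ContinuousLinearMap.proj (R := ℝ) (φ := fun _ : σ => ℝ) i

theorem pd_single {σ : Type} [Fintype σ] [DecidableEq σ] (p : MvPolynomial σ ℝ) (x : σ → ℝ)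
    (i : σ) : pd p x (Pi.single i 1) = eval x (pderiv i p) := by
  classical
  unfold pd
  rw [ContinuousLinearMap.sum_apply]
  rw [Finset.sum_eq_single i]
  · simp
  · intro j _ hj
    simp [Pi.single_eq_of_ne hj]
  · simp

theorem hasStrictFDerivAt_eval {σ : Type} [Fintype σ] (p : MvPolynomial σ ℝ) (x : σ → ℝ) :
    HasStrictFDerivAt (fun y => eval y p) (pd p x) x := by
  classical
  induction p using MvPolynomial.induction_on with
  | C a =>
    have : pd (C a) x = 0 := by simp [pd]
    rw [this]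
    simpa using hasStrictFDerivAt_const (𝕜 := ℝ) a x
  | add p q hp hq =>
    have : pd (p + q) x = pd p x + pd q x := by
      simp [pd, add_smul, Finset.sum_add_distrib]
    rw [this]
    simp only [map_add]
    exact hp.add hq
  | mul_X p j hp =>
    have hX : HasStrictFDerivAt (fun y : σ → ℝ => y j)
        (ContinuousLinearMap.proj (R := ℝ) (φ := fun _ : σ => ℝ) j) x :=
      (ContinuousLinearMap.proj (R := ℝ) (φ := fun _ : σ => ℝ) j).hasStrictFDerivAt
    have h := hp.mul hX
    have e : pd (p * X j) x = eval x p • ContinuousLinearMap.proj (R := ℝ) (φ := fun _ : σ => ℝ) j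
        + x j • pd p x := by
      unfold pd
      rw [Finset.smul_sum]
      have e1 : ∀ i, eval x (pderiv i (p * X j)) = eval x p * (if i = j then 1 else 0)
          + x j * eval x (pderiv i p) := by
        intro i
        rw [Derivation.leibniz]
        simp only [smul_eq_mul, map_add, map_mul, eval_X, pderiv_X, Pi.single_apply]
        by_cases hij : i = j
        · subst hij; simp
        · have hji : ¬ j = i := fun h => hij h.symm
          simp [hij, hji]
      simp_rw [e1, add_smul]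
      rw [Finset.sum_add_distrib]
      congr 1
      · rw [Finset.sum_eq_single j]
        · simp
        · intro b _ hb; simp [hb]
        · simp
      · refine Finset.sum_congr rfl fun i _ => ?_
        rw [smul_smul]
    rw [e]
    simp only [map_mul, eval_X]
    exact h

theorem isOpen_nz {σ : Type} [Fintype σ] (f : MvPolynomial σ ℝ) :
    IsOpen {y : σ → ℝ | eval y f ≠ 0} :=
  isOpen_ne_fun (MvPolynomial.continuous_eval f) continuous_const

theorem isOpen_cell {σ : Type} [Fintype σ] (f : MvPolynomial σ ℝ) (x : σ → ℝ) :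
    IsOpen (cell f x) :=
  (isOpen_nz f).connectedComponentIn

theorem mem_cell_self {σ : Type} [Fintype σ] {f : MvPolynomial σ ℝ} {x : σ → ℝ}
    (hx : eval x f ≠ 0) : x ∈ cell f x :=
  mem_connectedComponentIn hx

theorem cell_sub {σ : Type} [Fintype σ] {f : MvPolynomial σ ℝ} {x y : σ → ℝ}
    (hy : y ∈ cell f x) : eval y f ≠ 0 :=
  connectedComponentIn_subset _ _ hy

/-- a point of the closure of a cell at which `f` does not vanish lies in the cell -/
theorem mem_cell_of_closure {σ : Type} [Fintype σ] {f : MvPolynomial σ ℝ} {x y : σ → ℝ}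
    (hy : y ∈ closure (cell f x)) (hf : eval y f ≠ 0) : y ∈ cell f x := by
  obtain ⟨z, hz1, hz2⟩ := mem_closure_iff.1 hy (cell f y) (isOpen_cell f y) (mem_cell_self hf)
  have h1 : cell f x = cell f z := connectedComponentIn_eq hz2
  have h2 : cell f y = cell f z := connectedComponentIn_eq hz1
  rw [h1, ← h2]
  exact mem_cell_self hf

/-- two points of a cell lie in a compact connected subset -/
theorem exists_compact_conn {σ : Type} [Fintype σ] {f : MvPolynomial σ ℝ} {p q : σ → ℝ}
    (hp : eval p f ≠ 0) (hq : q ∈ cell f p) :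
    ∃ K : Set (σ → ℝ), IsCompact K ∧ IsPreconnected K ∧ p ∈ K ∧ q ∈ K ∧ K ⊆ cell f p := by
  have hc : IsConnected (cell f p) := ⟨⟨p, mem_cell_self hp⟩, isPreconnected_connectedComponentIn⟩
  have hpc : IsPathConnected (cell f p) := (isOpen_cell f p).isConnected_iff_isPathConnected.1 hc
  obtain ⟨γ, hγ⟩ := hpc.joinedIn p (mem_cell_self hp) q hq
  refine ⟨Set.range γ, isCompact_range γ.continuous, isPreconnected_range γ.continuous,
    ⟨0, γ.source⟩, ⟨1, γ.target⟩, ?_⟩
  rintro _ ⟨t, rfl⟩
  exact hγ t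

/-- the sum of the squares -/
def nsq {σ : Type} [Fintype σ] (x : σ → ℝ) : ℝ := ∑ i, x i ^ 2

theorem continuous_nsq {σ : Type} [Fintype σ] : Continuous (nsq : (σ → ℝ) → ℝ) := by
  unfold nsq; fun_prop

theorem abs_le_of_nsq {σ : Type} [Fintype σ] {x : σ → ℝ} {R : ℝ} (h : nsq x ≤ R ^ 2) (i : σ) :
    |x i| ≤ |R| := by
  have h1 : x i ^ 2 ≤ nsq x := Finset.single_le_sum (f := fun i => x i ^ 2)
    (fun i _ => sq_nonneg _) (Finset.mem_univ i)
  exact sq_le_sq.1 (h1.trans h)

theorem abs_sum_le {σ : Type} [Fintype σ] {x c : σ → ℝ} {R η : ℝ} (h : nsq x ≤ R ^ 2)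
    (hη : 0 ≤ η) (hc : ∀ i, |c i| ≤ η) : |∑ i, c i * x i| ≤ η * (Fintype.card σ * |R|) := by
  calc |∑ i, c i * x i| ≤ ∑ i, |c i * x i| := Finset.abs_sum_le_sum_abs _ _
    _ ≤ ∑ _i : σ, η * |R| := by
      refine Finset.sum_le_sum fun i _ => ?_
      rw [abs_mul]
      exact mul_le_mul (hc i) (abs_le_of_nsq h i) (abs_nonneg _) hη
    _ = _ := by rw [Finset.sum_const, nsmul_eq_mul, Finset.card_univ]; ring

theorem isCompact_ball_nsq {σ : Type} [Fintype σ] (R : ℝ) (S : Set (σ → ℝ)) (hS : IsClosed S) :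
    IsCompact (S ∩ {x | nsq x ≤ R ^ 2}) := by
  apply Metric.isCompact_of_isClosed_isBounded
  · exact hS.inter (isClosed_le continuous_nsq continuous_const)
  · rw [Metric.isBounded_iff_subset_closedBall 0]
    refine ⟨|R|, ?_⟩
    rintro x ⟨_, hx⟩
    rw [mem_closedBall_zero_iff, pi_norm_le_iff_of_nonneg (abs_nonneg R)]
    exact fun i => abs_le_of_nsq hx i

theorem eval_hpoly {σ : Type} [Fintype σ] (f : MvPolynomial σ ℝ) (R : ℝ) (x : σ → ℝ) :
    eval x (hpoly f R) = eval x f ^ 2 * (R ^ 2 - nsq x) := by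
  simp [hpoly, nsq]

/-- a radius which works for finitely many compact sets -/
theorem exists_radius {σ : Type} [Fintype σ] {ι : Type} [Fintype ι] (K : ι → Set (σ → ℝ))
    (hK : ∀ j, IsCompact (K j)) : ∃ R : ℝ, 0 < R ∧ ∀ j, ∀ x ∈ K j, nsq x < R ^ 2 := by
  have h : IsCompact (⋃ j, K j) := isCompact_iUnion hK
  obtain ⟨M, hM⟩ := h.bddAbove_image (f := nsq) continuous_nsq.continuousOn
  refine ⟨|M| + 1, by positivity, fun j x hx => ?_⟩
  have h1 : nsq x ≤ M := hM ⟨x, Set.mem_iUnion.2 ⟨j, hx⟩, rfl⟩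
  have h2 := le_abs_self M
  have h3 := abs_nonneg M
  nlinarith

end Pool.Agent.R98.EQ
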