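import Pool.Agent.R98.EQ.Stm

/-!
Project EQ (MP_f3d7df_co), piece A5 CROSS.
-/

set_option autoImplicit false

namespace Pool.Agent.R98.EQ

namespace CrossAux

open MvPolynomial Finset

open scoped Classical

theorem totalDegree_pderiv_le' {σ : Type} (i : σ) (p : MvPolynomial σ ℝ) :
    (pderiv i p).totalDegree ≤ p.totalDegree := by
  conv_lhs => rw [p.as_sum, map_sum]
  apply totalDegree_finsetSum_le
  intro s hs
  rw [pderiv_monomial]
  refine (totalDegree_monomial_le _ _).trans ?_
  refine le_trans ?_ (le_totalDegree hs)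
  have h : s - Finsupp.single i 1 ≤ s := tsub_le_self
  obtain ⟨t, ht⟩ := exists_add_of_le h
  conv_rhs => rw [ht, Finsupp.sum_add_index' (fun _ => rfl) (fun _ _ _ => rfl)]
  exact Nat.le_add_right _ _

theorem exists_small_ne {σ : Type} (p : MvPolynomial σ ℝ) (hp : p ≠ 0) (η : ℝ) (hη : 0 < η) :
    ∃ b : σ → ℝ, (∀ i, |b i| < η) ∧ eval b p ≠ 0 := by
  by_contra hcon
  push Not at hcon
  apply hp
  apply funext_set (fun _ => Set.Ioo (-η) η) (fun _ => Set.Ioo_infinite (by linarith))
  intro x hx
  rw [map_zero]
  exact hcon x (fun i => abs_lt.2 (hx i trivial))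

theorem eval_aeval' {σ τ : Type} (u : τ → MvPolynomial σ ℝ) (x : σ → ℝ) (p : MvPolynomial τ ℝ) :
    eval x (aeval u p) = eval (fun j => eval x (u j)) p := by
  induction p using MvPolynomial.induction_on with
  | C a => simp
  | add p q hp hq => rw [map_add, map_add, hp, hq, map_add]
  | mul_X p i hp => rw [map_mul, map_mul, hp, aeval_X, map_mul, eval_X]

theorem step1 (hR : RelStmt) {σ : Type} [Fintype σ] (g : MvPolynomial σ ℝ) (η : ℝ) (hη : 0 < η) :
    ∃ (b : σ → ℝ) (N : ℕ) (c : Fin N → ℝ), (∀ i, |b i| < η) ∧ (∃ k, c k ≠ 0) ∧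
      ∀ x : σ → ℝ, (∀ i, eval x (pderiv i g) = b i) →
        ∑ k, c k * (eval x g - ∑ i, b i * x i) ^ (k : ℕ) = 0 := by
  set n := Fintype.card σ with hn
  set D := g.totalDegree with hD
  set T := ((n + 1) * (D + 1)) ^ n with hT
  have h1 : ∀ v j, degreeOf v (pderiv j g) ≤ (fun (_ _ : σ) => D + 1) v j := by
    intro v j
    have h := (degreeOf_le_totalDegree (pderiv j g) v).trans (totalDegree_pderiv_le' j g)
    show _ ≤ D + 1
    omega
  have h2 : ∀ v, degreeOf v (g - ∑ i, X i * pderiv i g) ≤ (fun (_ : σ) => D + 1) v := by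
    intro v
    show _ ≤ D + 1
    refine (degreeOf_le_totalDegree _ v).trans ?_
    refine (totalDegree_sub _ _).trans (max_le (by omega) ?_)
    apply totalDegree_finsetSum_le
    intro i _
    refine (totalDegree_mul _ _).trans ?_
    have := totalDegree_pderiv_le' i g
    rw [totalDegree_X]
    omega
  have h3 : (∏ v : σ, (∑ j : σ, (fun _ => T) j * (fun (_ _ : σ) => D + 1) v j
      + T * (fun (_ : σ) => D + 1) v + 1)) < (∏ j : σ, ((fun _ => T) j + 1)) * (T + 1) := by
    simp only [Finset.prod_const, Finset.sum_const, Finset.card_univ, smul_eq_mul, ← hn]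
    have h4 : n * (T * (D + 1)) + T * (D + 1) + 1 ≤ (n + 1) * (D + 1) * (T + 1) := by
      have : 1 ≤ (n + 1) * (D + 1) := Nat.mul_pos (by omega) (by omega)
      nlinarith
    calc (n * (T * (D + 1)) + T * (D + 1) + 1) ^ n ≤ ((n + 1) * (D + 1) * (T + 1)) ^ n :=
          Nat.pow_le_pow_left h4 n
      _ = (T + 1) ^ n * T := by rw [mul_pow, ← hT, mul_comm]
      _ < (T + 1) ^ n * (T + 1) := by
          apply Nat.mul_lt_mul_of_pos_left (by omega)
          positivity
  obtain ⟨R, ⟨b0, hb0⟩, hrel⟩ := hR σ σ (fun i => pderiv i g) (g - ∑ i, X i * pderiv i g)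
    (fun _ _ => D + 1) (fun _ => D + 1) (fun _ => T) T h1 h2 h3
  obtain ⟨b, hb, hbR⟩ := exists_small_ne (R b0) hb0 η hη
  refine ⟨b, T + 1, fun k => eval b (R k), hb, ⟨b0, hbR⟩, ?_⟩
  intro x hx
  have h5 := congrArg (eval x) hrel
  rw [map_sum, map_zero] at h5
  rw [← h5]
  apply Finset.sum_congr rfl
  intro k _
  rw [map_mul, map_pow, eval_aeval', map_sub, map_sum]
  have h6 : (fun j => eval x (pderiv j g)) = b := funext hx
  rw [h6]
  congr 2
  congr 1
  apply Finset.sum_congr rfl
  intro i _
  rw [map_mul, eval_X, hx i, mul_comm]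

theorem num (n m D : ℕ) (hn : 1 ≤ n) (hD : 1 ≤ D) :
    (n * (D * (2 * D * (3 * n) ^ n * (2 * m + 2 + D) ^ (n - 1))) + 1) *
      (n * (2 * m + 2 + D) * (2 * D * (3 * n) ^ n * (2 * m + 2 + D) ^ (n - 1)) * D +
        n * (D * (2 * D * (3 * n) ^ n * (2 * m + 2 + D) ^ (n - 1))) * (2 * m + 2 + D) +
        (2 * D * (3 * n) ^ n * (2 * m + 2 + D) ^ (n - 1)) + 1) ^ n <
      (n * (2 * m + 2 + D) * (2 * D * (3 * n) ^ n * (2 * m + 2 + D) ^ (n - 1)) + 1) *
        (D * (2 * D * (3 * n) ^ n * (2 * m + 2 + D) ^ (n - 1)) + 1) ^ n *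
        ((2 * D * (3 * n) ^ n * (2 * m + 2 + D) ^ (n - 1)) + 1) := by
  set E := 2 * m + 2 + D with hE
  set B := 2 * D * (3 * n) ^ n * E ^ (n - 1) with hB
  have hE1 : 1 ≤ E := by omega
  have hB1 : 1 ≤ B := by
    rw [hB]
    exact Nat.mul_pos (Nat.mul_pos (by omega) (Nat.pow_pos (by omega))) (Nat.pow_pos (by omega))
  have hA1 : B ≤ D * B := Nat.le_mul_of_pos_left B (by omega)
  have h1 : n * E * B * D + n * (D * B) * E + B + 1 ≤ 3 * n * E * (D * B + 1) := by
    have : 1 ≤ n * E := Nat.mul_pos (by omega) (by omega)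
    have h2 : n * E * B * D = n * E * (D * B) := by ring
    have h3 : n * (D * B) * E = n * E * (D * B) := by ring
    rw [h2, h3]
    nlinarith
  have h2 : n * (D * B) + 1 ≤ 2 * n * (D * B) := by
    have : 1 ≤ n * (D * B) := Nat.mul_pos (by omega) (by omega)
    nlinarith
  have hEn : E ^ n = E * E ^ (n - 1) := by
    rw [← pow_succ']
    congr 1
    omega
  calc (n * (D * B) + 1) * (n * E * B * D + n * (D * B) * E + B + 1) ^ n
      ≤ (2 * n * (D * B)) * (3 * n * E * (D * B + 1)) ^ n :=
        Nat.mul_le_mul h2 (Nat.pow_le_pow_left h1 n)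
    _ = (n * E * B) * (D * B + 1) ^ n * B := by
        conv_rhs => rw [hB]
        rw [← hB, mul_pow, mul_pow, hEn]
        ring
    _ < (n * E * B + 1) * (D * B + 1) ^ n * (B + 1) := by
        apply Nat.mul_lt_mul_of_le_of_lt
        · exact Nat.mul_le_mul_right _ (by omega)
        · omega
        · positivity

theorem degreeOf_none_rename {σ : Type} (p : MvPolynomial σ ℝ) :
    degreeOf none (rename (some : σ → Option σ) p) = 0 := by
  rw [degreeOf_def, degrees_rename_of_injective (Option.some_injective σ),
    Multiset.count_eq_zero]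
  simp

theorem degreeOf_some_rename {σ : Type} (p : MvPolynomial σ ℝ) (v : σ) :
    degreeOf (some v) (rename (some : σ → Option σ) p) ≤ p.totalDegree := by
  rw [degreeOf_rename_of_injective (Option.some_injective σ)]
  exact degreeOf_le_totalDegree _ _

theorem totalDegree_hpoly {σ : Type} [Fintype σ] (f : MvPolynomial σ ℝ) (R : ℝ) (m : ℕ)
    (hf : f.totalDegree ≤ m) : (hpoly f R).totalDegree ≤ 2 * m + 2 := by
  unfold hpoly
  refine (totalDegree_mul _ _).trans ?_
  refine Nat.add_le_add ?_ ?_
  · refine (totalDegree_pow _ _).trans ?_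
    omega
  · refine (totalDegree_sub _ _).trans (max_le ?_ ?_)
    · rw [totalDegree_C]
      omega
    · apply totalDegree_finsetSum_le
      intro i _
      rw [totalDegree_X_pow]

end CrossAux

open MvPolynomial Finset CrossAux

open scoped Classical

theorem cross (hR : RelStmt) (hS : SolStmt) (hC : CritStmt) : CrossStmt := by
  intro σ _ _
  set n := Fintype.card σ with hn
  have hn1 : 1 ≤ n := Fintype.card_pos
  refine ⟨2 * (3 * n) ^ n * 4 ^ (n - 1), ?_⟩
  intro f g m D hm hD hf hg ι _ p q hpf hqc hpg hqg hinj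
  obtain ⟨R, η, hη, hcrit⟩ := hC σ f g ι p q hpf hqc hpg hqg
  obtain ⟨b, N, c, hb, ⟨k0, hk0⟩, hc⟩ := step1 hR g η hη
  set E := 2 * m + 2 + D with hE
  set B := 2 * D * (3 * n) ^ n * E ^ (n - 1) with hB
  -- the system
  let u : Option σ → MvPolynomial (Option σ) ℝ := fun j => match j with
    | some i => X none * rename some (pderiv i g - C (b i)) - rename some (pderiv i (hpoly f R))
    | none => rename some (g - ∑ i, C (b i) * X i)
  let e : Option σ → Option σ → ℕ := fun v j => match v, j with
    | none, none => 0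
    | none, some _ => 1
    | some _, none => D
    | some _, some _ => E
  let e' : Option σ → ℕ := fun v => match v with
    | none => 0
    | some _ => 1
  let A : Option σ → ℕ := fun j => match j with
    | none => n * E * B
    | some _ => D * B
  have hdb : ∀ i, (pderiv i g - C (b i)).totalDegree ≤ D := by
    intro i
    refine (totalDegree_sub _ _).trans (max_le ((totalDegree_pderiv_le' i g).trans hg) ?_)
    rw [totalDegree_C]
    omega
  have hdh : ∀ i, (pderiv i (hpoly f R)).totalDegree ≤ 2 * m + 2 := fun i =>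
    (totalDegree_pderiv_le' i _).trans (totalDegree_hpoly f R m hf)
  have hdg : (g - ∑ i, C (b i) * X i).totalDegree ≤ D := by
    refine (totalDegree_sub _ _).trans (max_le hg ?_)
    apply totalDegree_finsetSum_le
    intro i _
    refine (totalDegree_mul _ _).trans ?_
    rw [totalDegree_C, totalDegree_X]
    omega
  have he : ∀ v j, degreeOf v (u j) ≤ e v j := by
    intro v j
    rcases v with _ | v <;> rcases j with _ | j
    · show degreeOf none (rename some _) ≤ 0
      rw [degreeOf_none_rename]
    · show degreeOf none (X none * rename some _ - rename some _) ≤ 1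
      refine (degreeOf_sub_le _ _ _).trans (max_le ?_ ?_)
      · refine (degreeOf_mul_le _ _ _).trans ?_
        rw [degreeOf_none_rename, degreeOf_X_self]
      · rw [degreeOf_none_rename]
        omega
    · show degreeOf (some v) (rename some _) ≤ D
      exact (degreeOf_some_rename _ v).trans hdg
    · show degreeOf (some v) (X none * rename some _ - rename some _) ≤ E
      refine (degreeOf_sub_le _ _ _).trans (max_le ?_ ?_)
      · refine (degreeOf_mul_le _ _ _).trans ?_
        have h1 : degreeOf (some v) (X none : MvPolynomial (Option σ) ℝ) = 0 :=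
          degreeOf_X_of_ne (by simp)
        rw [h1, zero_add]
        exact (degreeOf_some_rename _ v).trans ((hdb j).trans (by omega))
      · exact (degreeOf_some_rename _ v).trans ((hdh j).trans (by omega))
  have hrel : ∀ s : σ → ℝ, ∃ R : Fin (B + 1) → MvPolynomial (Option σ) ℝ, (∃ b, R b ≠ 0) ∧
      ∑ b, aeval u (R b) * (∑ i, C (s i) * X (some i)) ^ (b : ℕ) = 0 := by
    intro s
    apply hR (Option σ) (Option σ) u (∑ i, C (s i) * X (some i)) e e' A B he
    · intro v
      rcases v with _ | v
      · show degreeOf none _ ≤ 0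
        refine (degreeOf_sum_le _ _ _).trans ?_
        apply Finset.sup_le
        intro i _
        refine (degreeOf_C_mul_le _ _ _).trans ?_
        have h1 : degreeOf none (X (some i) : MvPolynomial (Option σ) ℝ) = 0 :=
          degreeOf_X_of_ne (by simp)
        rw [h1]
      · show degreeOf (some v) _ ≤ 1
        refine (degreeOf_le_totalDegree _ _).trans ?_
        apply totalDegree_finsetSum_le
        intro i _
        refine (totalDegree_mul _ _).trans ?_
        rw [totalDegree_C, totalDegree_X]
    · rw [Fintype.prod_option, Fintype.prod_option]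
      simp only [Fintype.sum_option]
      simp only [e, e', A, Finset.prod_const, Finset.sum_const, Finset.card_univ, smul_eq_mul,
        ← hn]
      have h1 := num n m D hn1 hD
      rw [← hE, ← hB] at h1
      convert h1 using 2
      · ring
      · congr 1
        ring
  -- the generic value
  let Q : MvPolynomial (Option σ) ℝ := ∑ k : Fin N, C (c k) * X none ^ (k : ℕ)
  have hQeval : ∀ y : Option σ → ℝ, eval y Q = ∑ k : Fin N, c k * (y none) ^ (k : ℕ) := by
    intro y
    simp [Q]
  have hQ : Q ≠ 0 := by
    intro h0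
    have h1 : ∀ t : ℝ, (∑ k : Fin N, Polynomial.C (c k) * Polynomial.X ^ (k : ℕ)).eval t = 0 := by
      intro t
      have h2 := hQeval (fun _ => t)
      rw [h0, map_zero] at h2
      rw [Polynomial.eval_finset_sum]
      simp only [Polynomial.eval_mul, Polynomial.eval_C, Polynomial.eval_pow, Polynomial.eval_X]
      exact h2.symm
    have h3 : (∑ k : Fin N, Polynomial.C (c k) * Polynomial.X ^ (k : ℕ)) = 0 :=
      Polynomial.funext (fun t => by rw [h1 t, Polynomial.eval_zero])
    have h4 := congrArg (fun P => Polynomial.coeff P (k0 : ℕ)) h3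
    simp only [Polynomial.finset_sum_coeff, Polynomial.coeff_C_mul_X_pow,
      Polynomial.coeff_zero] at h4
    rw [Finset.sum_eq_single k0] at h4
    · simp at h4
      exact hk0 h4
    · intro k _ hk
      rw [if_neg]
      intro h5
      exact hk (Fin.ext h5.symm)
    · intro h5
      exact absurd (Finset.mem_univ _) h5
  have hO : IsOpen {y : Option σ → ℝ | ∀ i, |y i| < η} := by
    have : {y : Option σ → ℝ | ∀ i, |y i| < η} = ⋂ i, {y | |y i| < η} := by
      ext y
      simp
    rw [this]
    apply isOpen_iInter_of_finite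
    intro i
    exact isOpen_lt (continuous_abs.comp (continuous_apply i)) continuous_const
  have hOne : ({y : Option σ → ℝ | ∀ i, |y i| < η}).Nonempty := ⟨0, by
    intro i
    simpa using hη⟩
  obtain ⟨y, hyO, hyQ, hsol⟩ := hS (Option σ) σ (Option σ) some u B hrel Q hQ _ hO hOne
  have hyη : ∀ i, |y i| < η := hyO
  have hcr := hcrit b (fun i => y (some i)) (y none) hb (fun i => hyη _) (hyη _) (by
    intro x hx he
    have h1 := hc x hx
    rw [he] at h1
    rw [hQeval] at hyQ
    exact hyQ h1)
  choose x hxc hx using hcr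
  have hxinj : Function.Injective x := by
    intro i j hij
    apply hinj
    have h1 : cell f (p i) = cell f (x i) := connectedComponentIn_eq (hxc i)
    have h2 : cell f (p j) = cell f (x j) := connectedComponentIn_eq (hxc j)
    rw [h1, h2, hij]
  have hcard := hsol (univ.image x) (by
    intro z hz
    rw [Finset.mem_image] at hz
    obtain ⟨j, -, rfl⟩ := hz
    obtain ⟨lam, h1, h2⟩ := hx j
    refine ⟨fun o => match o with
      | none => lam
      | some i => x j i, fun i => rfl, ?_⟩
    have hren : ∀ P : MvPolynomial σ ℝ, eval (fun o : Option σ => match o with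
      | none => lam
      | some i => x j i) (rename some P) = eval (x j) P := by
      intro P
      rw [eval_rename]
      rfl
    intro o
    rcases o with _ | i
    · show eval _ (rename some (g - ∑ i, C (b i) * X i)) = _
      rw [hren]
      simp only [map_sub, map_sum, map_mul, eval_C, eval_X]
      exact h1
    · show eval _ (X none * rename some (pderiv i g - C (b i)) -
        rename some (pderiv i (hpoly f R))) = _
      rw [map_sub, map_mul, hren, hren, map_sub, eval_C, eval_X]
      exact h2 i)
  rw [Finset.card_image_of_injective _ hxinj, Finset.card_univ] at hcard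
  refine hcard.trans ?_
  have hE4 : E ≤ 4 * (m + D) := by omega
  calc B = 2 * D * (3 * n) ^ n * E ^ (n - 1) := hB
    _ ≤ 2 * D * (3 * n) ^ n * (4 * (m + D)) ^ (n - 1) :=
        Nat.mul_le_mul_left _ (Nat.pow_le_pow_left hE4 _)
    _ = 2 * (3 * n) ^ n * 4 ^ (n - 1) * D * (m + D) ^ (n - 1) := by
        have h9 : (4 * (m + D)) ^ (n - 1) = 4 ^ (n - 1) * (m + D) ^ (n - 1) := mul_pow _ _ _
        rw [h9]
        ring

end Pool.Agent.R98.EQ
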