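import Pool.Agent.R98.EQ.Stm

set_option autoImplicit false

namespace Pool.Agent.R98.EQ.Fn

open MvPolynomial Finset

open scoped Classical

/-! Segments of `Fin n`. -/

section Seg

variable {n m : ℕ}

/-- the segment with number `s` -/
noncomputable def seg (n m : ℕ) (s : ℕ) : Finset (Fin n) :=
  univ.filter (fun a : Fin n => (a : ℕ) * m / n = s)

theorem mem_seg {s : ℕ} {a : Fin n} : a ∈ seg n m s ↔ (a : ℕ) * m / n = s := by
  simp [seg]

theorem card_seg (hm : 1 ≤ m) (hmn : m ≤ n) (s : ℕ) (hs : s < m) :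
    (seg n m s).card * m < n + m ∧ n < ((seg n m s).card + 1) * m := by
  have hn : 0 < n := by omega
  set lo := (s * n + (m - 1)) / m with hlo
  set hi := ((s + 1) * n + (m - 1)) / m with hhi
  have hle : ∀ x t : ℕ, (t + (m - 1)) / m ≤ x ↔ t ≤ x * m := by
    intro x t
    rw [Nat.div_le_iff_le_mul_add_pred (by omega)]
    constructor
    · intro h
      have : t + (m - 1) ≤ m * x + (m - 1) := h
      nlinarith
    · intro h
      nlinarith
  have hlohi : lo ≤ hi := by
    apply Nat.div_le_div_right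
    nlinarith
  have hhin : hi ≤ n := by
    rw [hhi, hle]
    have : s + 1 ≤ m := hs
    calc (s + 1) * n ≤ m * n := Nat.mul_le_mul_right n this
      _ = n * m := Nat.mul_comm _ _
  have hcard : (seg n m s).card = hi - lo := by
    have : (seg n m s).image (fun a : Fin n => (a : ℕ)) = Finset.Ico lo hi := by
      ext x
      simp only [mem_image, mem_seg, Finset.mem_Ico]
      constructor
      · rintro ⟨a, ha, rfl⟩
        rw [Nat.div_eq_iff hn] at ha
        obtain ⟨h1, h2⟩ := ha
        constructor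
        · rw [hlo, hle]
          exact h1
        · by_contra hcon
          push Not at hcon
          rw [hhi, hle] at hcon
          have : (s + 1) * n = s * n + n := by ring
          omega
      · rintro ⟨h1, h2⟩
        have hxn : x < n := lt_of_lt_of_le h2 hhin
        refine ⟨⟨x, hxn⟩, ?_, rfl⟩
        rw [Nat.div_eq_iff hn]
        rw [hlo, hle] at h1
        have h3 : ¬ hi ≤ x := by omega
        rw [hhi, hle] at h3
        have : (s + 1) * n = s * n + n := by ring
        constructor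
        · exact h1
        · simp only
          omega
    rw [← Nat.card_Ico lo hi, ← this, Finset.card_image_of_injective _ Fin.val_injective]
  have e1 : s * n ≤ lo * m := (hle lo (s * n)).1 le_rfl
  have e2 : (s + 1) * n ≤ hi * m := (hle hi ((s + 1) * n)).1 le_rfl
  have e3 : lo * m ≤ s * n + (m - 1) := Nat.div_mul_le_self _ _
  have e4 : hi * m ≤ (s + 1) * n + (m - 1) := Nat.div_mul_le_self _ _
  rw [hcard]
  have e5 : (hi - lo) * m = hi * m - lo * m := Nat.sub_mul _ _ _
  have e6 : (hi - lo + 1) * m = hi * m - lo * m + m := by rw [add_mul, e5, one_mul]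
  have e7 : (s + 1) * n = s * n + n := by ring
  have e8 : lo * m ≤ hi * m := Nat.mul_le_mul_right m hlohi
  constructor
  · rw [e5]; omega
  · rw [e6]; omega

theorem seg_nonempty (hm : 1 ≤ m) (hmn : m ≤ n) (s : ℕ) (hs : s < m) : (seg n m s).Nonempty := by
  obtain ⟨_, h⟩ := card_seg hm hmn s hs
  rw [← Finset.card_pos]
  by_contra hcon
  have h0 : (seg n m s).card = 0 := by omega
  rw [h0] at h
  omega

theorem seg_lt (hm : 1 ≤ m) (hmn : m ≤ n) (a : Fin n) : (a : ℕ) * m / n < m := by
  have hn : 0 < n := by omega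
  rw [Nat.div_lt_iff_lt_mul hn]
  have := a.2
  nlinarith

end Seg

section Part

variable {α : Type} [DecidableEq α] {n m : ℕ}

/-- the parts given by segments of an enumeration -/
noncomputable def segParts (y : Fin n → α) (m : ℕ) : Finset (Finset α) :=
  univ.image (fun s : Fin m => (seg n m s).image y)

theorem exists_partition (P : Finset α) (y : Fin n → α) (hy : Function.Injective y)
    (hP : ∀ p, p ∈ P ↔ ∃ a, y a = p) (hm : 1 ≤ m) (hmn : m ≤ n) :
    ∃ Q : Finpartition P, Q.parts = segParts y m ∧ Q.IsEquipartition := by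
  have hQ1 : ∀ p ∈ segParts y m, p ⊆ P := by
    intro p hp x hx
    simp only [segParts, mem_image, mem_univ, true_and] at hp
    obtain ⟨s, rfl⟩ := hp
    rw [mem_image] at hx
    obtain ⟨a, _, rfl⟩ := hx
    exact (hP _).2 ⟨a, rfl⟩
  have hQ2 : ∀ x ∈ P, ∃! t ∈ segParts y m, x ∈ t := by
    intro x hx
    obtain ⟨a, rfl⟩ := (hP x).1 hx
    refine ⟨(seg n m ((a : ℕ) * m / n)).image y, ⟨?_, ?_⟩, ?_⟩
    · simp only [segParts, mem_image, mem_univ, true_and]
      exact ⟨⟨(a : ℕ) * m / n, seg_lt hm hmn a⟩, rfl⟩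
    · exact mem_image_of_mem _ (mem_seg.2 rfl)
    · rintro t ⟨ht, hat⟩
      simp only [segParts, mem_image, mem_univ, true_and] at ht
      obtain ⟨s, rfl⟩ := ht
      rw [mem_image] at hat
      obtain ⟨b, hb, hba⟩ := hat
      have : b = a := hy hba
      subst this
      rw [mem_seg] at hb
      rw [hb]
  have hQ3 : ∅ ∉ segParts y m := by
    intro h
    simp only [segParts, mem_image, mem_univ, true_and] at h
    obtain ⟨s, hs⟩ := h
    rw [image_eq_empty] at hs
    exact (seg_nonempty hm hmn s s.2).ne_empty hs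
  refine ⟨Finpartition.ofExistsUnique (segParts y m) hQ1 hQ2 hQ3, rfl, ?_⟩
  intro t₁ t₂ h1 h2
  change t₁ ∈ (segParts y m : Set (Finset α)) at h1
  change t₂ ∈ (segParts y m : Set (Finset α)) at h2
  simp only [segParts, coe_image, Set.mem_image, coe_univ, Set.mem_univ, true_and] at h1 h2
  obtain ⟨s, rfl⟩ := h1
  obtain ⟨t, rfl⟩ := h2
  rw [card_image_of_injective _ hy, card_image_of_injective _ hy]
  obtain ⟨e1, _⟩ := card_seg hm hmn s s.2
  obtain ⟨_, e2⟩ := card_seg hm hmn t t.2
  by_contra hcon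
  push Not at hcon
  have : ((seg n m t).card + 2) * m ≤ (seg n m s).card * m :=
    Nat.mul_le_mul_right m (by omega)
  have e3 : ((seg n m t).card + 2) * m = ((seg n m t).card + 1) * m + m := by ring
  omega

theorem card_segParts (y : Fin n → α) (m : ℕ) : (segParts y m).card ≤ m := by
  refine card_image_le.trans ?_
  simp

end Part

/-- `E` is given on `P_1 × ⋯ × P_k` by the signs of polynomials of total degree at most `D`. -/
def SemiAlg {k d : ℕ} (D : ℕ) (P : Fin k → Finset (Fin d → ℝ)) (E : Set (Fin k → Fin d → ℝ)) :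
    Prop :=
  ∃ (t : ℕ) (g : Fin t → MvPolynomial (Fin k × Fin d) ℝ) (Φ : (Fin t → SignType) → Prop),
    ∑ r, (g r).totalDegree ≤ D ∧ ∀ x : Fin k → Fin d → ℝ, (∀ i, x i ∈ P i) →
      (x ∈ E ↔ Φ (fun r => SignType.sign (eval (fun v => x v.1 v.2) (g r))))

/-- The product `π_1 × ⋯ × π_k` is contained in `E` or disjoint from `E`. -/
def Homogeneous {k d : ℕ} (E : Set (Fin k → Fin d → ℝ)) (π : Fin k → Finset (Fin d → ℝ)) : Prop :=
  (∀ x : Fin k → Fin d → ℝ, (∀ i, x i ∈ π i) → x ∈ E) ∨
    (∀ x : Fin k → Fin d → ℝ, (∀ i, x i ∈ π i) → x ∉ E)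

theorem SemiAlg.cross {k d D : ℕ} {P : Fin k → Finset (Fin d → ℝ)}
    {E : Set (Fin k → Fin d → ℝ)} (h : SemiAlg D P E) :
    ∃ gs : List (MvPolynomial (Fin k × Fin d) ℝ), degSum gs ≤ D ∧
      ∀ x y : Fin k → Fin d → ℝ, (∀ i, x i ∈ P i) → (∀ i, y i ∈ P i) →
        ¬ Crosses gs (fun v => x v.1 v.2) (fun v => y v.1 v.2) → (x ∈ E ↔ y ∈ E) := by
  obtain ⟨t, g, Φ, hD, hE⟩ := h
  refine ⟨List.ofFn g, ?_, ?_⟩
  · unfold degSum
    rw [List.map_ofFn, List.sum_ofFn]
    exact hD
  · intro x y hx hy hc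
    rw [hE x hx, hE y hy]
    have : (fun r => SignType.sign (eval (fun v : Fin k × Fin d => x v.1 v.2) (g r))) =
        (fun r => SignType.sign (eval (fun v : Fin k × Fin d => y v.1 v.2) (g r))) := by
      funext r
      by_contra hne
      exact hc ⟨g r, List.mem_ofFn.2 ⟨r, rfl⟩, hne⟩
    rw [this]

/-- The error of a family of partitions. -/
noncomputable def err {k d : ℕ} (P : Fin k → Finset (Fin d → ℝ))
    (Q : ∀ i, Finpartition (P i)) (E : Set (Fin k → Fin d → ℝ)) : ℝ :=
  ∑ π ∈ (Fintype.piFinset fun i => (Q i).parts).filter (fun π => ¬ Homogeneous E π),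
    ∏ i, ((π i).card : ℝ) / (P i).card

end Pool.Agent.R98.EQ.Fn
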