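import Pool.Agent.R98.EQ.Fin

set_option autoImplicit false

namespace Pool.Agent.R98.EQ.Fn

open MvPolynomial Finset

open scoped Classical

theorem err_nonneg {k d : ℕ} (P : Fin k → Finset (Fin d → ℝ))
    (Q : ∀ i, Finpartition (P i)) (E : Set (Fin k → Fin d → ℝ)) : 0 ≤ err P Q E :=
  Finset.sum_nonneg fun π _ => Finset.prod_nonneg fun i _ => by positivity

/-- total mass is at most one -/
theorem err_le_one {k d : ℕ} (P : Fin k → Finset (Fin d → ℝ))
    (Q : ∀ i, Finpartition (P i)) (E : Set (Fin k → Fin d → ℝ)) : err P Q E ≤ 1 := by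
  have h1 : err P Q E ≤ ∑ π ∈ Fintype.piFinset fun i => (Q i).parts,
      ∏ i, ((π i).card : ℝ) / (P i).card :=
    Finset.sum_le_sum_of_subset_of_nonneg (Finset.filter_subset _ _) fun π _ _ =>
      Finset.prod_nonneg fun i _ => by positivity
  refine h1.trans ?_
  rw [← Finset.prod_univ_sum (fun i => (Q i).parts)
    (fun i (s : Finset (Fin d → ℝ)) => (s.card : ℝ) / (P i).card)]
  apply Finset.prod_le_one
  · intro i _
    exact Finset.sum_nonneg fun s _ => by positivity
  · intro i _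
    rw [← Finset.sum_div]
    have : (∑ s ∈ (Q i).parts, (s.card : ℝ)) = (P i).card := by
      rw [← (Q i).sum_card_parts]
      push_cast
      rfl
    rw [this]
    exact div_self_le_one _

/-- a partition with at most one part -/
theorem trivial_partition {α : Type} [DecidableEq α] (P : Finset α) :
    ∃ Q : Finpartition P, Q.IsEquipartition ∧ Q.parts.card ≤ 1 := by
  by_cases hP : P = ∅
  · subst hP
    refine ⟨Finpartition.empty _, ?_, ?_⟩
    · intro a b ha
      simp at ha
    · simp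
  · refine ⟨Finpartition.indiscrete hP, Finpartition.indiscrete_isEquipartition _, ?_⟩
    simp [Finpartition.indiscrete]

theorem err_empty {k d : ℕ} (P : Fin k → Finset (Fin d → ℝ))
    (Q : ∀ i, Finpartition (P i)) (E : Set (Fin k → Fin d → ℝ)) (i : Fin k) (hi : P i = ∅) :
    err P Q E = 0 := by
  unfold err
  apply Finset.sum_eq_zero
  intro π hπ
  rw [mem_filter, Fintype.mem_piFinset] at hπ
  apply Finset.prod_eq_zero (mem_univ i)
  rw [hi]
  simp

/-- The bound for one system. -/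
theorem main_bound {d k : ℕ} (hd : 1 ≤ d) (hS : StrictStmt) {K : ℕ}
    (hK : ∀ (n : Fin k → ℕ),
      (∀ i, 1 ≤ n i) → ∀ (x : ∀ i, Fin (n i) → Fin d → ℝ), (∀ i, Generic d (x i)) →
      ∀ (L D : ℕ), 1 ≤ D → D ≤ 2 ^ L → ∃ e : ∀ i, Equiv.Perm (Fin (n i)),
      ∀ gs : List (MvPolynomial (Fin k × Fin d) ℝ), degSum gs ≤ D →
        (∀ g ∈ gs, ∀ a, eval (tup x a) g ≠ 0) →
        (univ.filter (fun s : ∀ i, Fin (min (n i) (2 ^ (d * L))) => ∃ a b : ∀ i, Fin (n i),
          (∀ i, (a i : ℕ) * min (n i) (2 ^ (d * L)) / n i = s i) ∧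
          (∀ i, (b i : ℕ) * min (n i) (2 ^ (d * L)) / n i = s i) ∧
          Crosses gs (tup x (fun i => e i (a i))) (tup x (fun i => e i (b i))))).card * 2 ^ L ≤
          K * D * ∏ i, min (n i) (2 ^ (d * L)))
    (P : Fin k → Finset (Fin d → ℝ)) (hP : ∀ i, (P i).Nonempty) (L D : ℕ) (hD : 1 ≤ D)
    (hDL : 2 * D ≤ 2 ^ L) :
    ∃ Q : ∀ i, Finpartition (P i), (∀ i, (Q i).IsEquipartition) ∧
      (∀ i, (Q i).parts.card ≤ 2 ^ (d * L)) ∧ ∀ E, SemiAlg D P E →
        err P Q E * 2 ^ L ≤ 2 ^ k * (K * (2 * D)) := by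
  set n : Fin k → ℕ := fun i => (P i).card with hn
  have hn1 : ∀ i, 1 ≤ n i := fun i => Finset.card_pos.2 (hP i)
  set x : ∀ i, Fin (n i) → Fin d → ℝ := fun i a => ((P i).equivFin.symm a : Fin d → ℝ) with hx
  have hxinj : ∀ i, Function.Injective (x i) := fun i =>
    Subtype.val_injective.comp (P i).equivFin.symm.injective
  have hxP : ∀ i p, p ∈ P i ↔ ∃ a, x i a = p := by
    intro i p
    constructor
    · intro hp
      exact ⟨(P i).equivFin ⟨p, hp⟩, by simp [hx]⟩
    · rintro ⟨a, rfl⟩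
      exact ((P i).equivFin.symm a).2
  obtain ⟨x', hgen, hx'⟩ := hS d k D hd n x
  obtain ⟨e, he⟩ := hK n hn1 x' hgen L (2 * D) (by omega) hDL
  set m : Fin k → ℕ := fun i => min (n i) (2 ^ (d * L)) with hm
  have hm1 : ∀ i, 1 ≤ m i := fun i => le_min (hn1 i) Nat.one_le_two_pow
  have hmn : ∀ i, m i ≤ n i := fun i => min_le_left _ _
  set y : ∀ i, Fin (n i) → Fin d → ℝ := fun i a => x i (e i a) with hy
  have hyinj : ∀ i, Function.Injective (y i) := fun i => (hxinj i).comp (e i).injective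
  have hyP : ∀ i p, p ∈ P i ↔ ∃ a, y i a = p := by
    intro i p
    rw [hxP]
    constructor
    · rintro ⟨a, rfl⟩
      exact ⟨(e i).symm a, by simp [hy]⟩
    · rintro ⟨a, rfl⟩
      exact ⟨_, rfl⟩
  choose Q hQp hQe using fun i => exists_partition (P i) (y i) (hyinj i) (hyP i) (hm1 i) (hmn i)
  refine ⟨Q, hQe, ?_, ?_⟩
  · intro i
    rw [hQp i]
    exact (card_segParts _ _).trans (min_le_right _ _)
  · intro E hE
    obtain ⟨gs, hgs, hcr⟩ := hE.cross
    obtain ⟨gs', hgs', hne, himp⟩ := hx' gs hgs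
    have hcount := he gs' hgs' hne
    set B : Finset (∀ i, Fin (m i)) := univ.filter (fun s => ∃ a b : ∀ i, Fin (n i),
      (∀ i, (a i : ℕ) * m i / n i = s i) ∧ (∀ i, (b i : ℕ) * m i / n i = s i) ∧
        Crosses gs' (tup x' (fun i => e i (a i))) (tup x' (fun i => e i (b i)))) with hB
    have hcount' : B.card * 2 ^ L ≤ K * (2 * D) * ∏ i, m i := hcount
    -- the tuple of parts of a tuple of segments
    let G : (∀ i, Fin (m i)) → (Fin k → Finset (Fin d → ℝ)) :=
      fun s i => (seg (n i) (m i) (s i)).image (y i)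
    have hcard : ∀ s i, ((G s i).card : ℝ) / (P i).card ≤ 2 / m i := by
      intro s i
      have h1 : (G s i).card = (seg (n i) (m i) (s i)).card :=
        card_image_of_injective _ (hyinj i)
      obtain ⟨h2, _⟩ := card_seg (hm1 i) (hmn i) (s i) (s i).2
      have hpos : (0 : ℝ) < (P i).card := by exact_mod_cast hn1 i
      have hmpos : (0 : ℝ) < m i := by exact_mod_cast hm1 i
      rw [div_le_div_iff₀ hpos hmpos, h1]
      have h3 : (seg (n i) (m i) (s i)).card * m i ≤ 2 * n i := by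
        have := hmn i
        omega
      exact_mod_cast h3
    have hsub : (Fintype.piFinset fun i => (Q i).parts).filter (fun π => ¬ Homogeneous E π) ⊆
        B.image G := by
      intro π hπ
      rw [mem_filter, Fintype.mem_piFinset] at hπ
      obtain ⟨hπ1, hπ2⟩ := hπ
      have h3 : ∀ i, ∃ s : Fin (m i), (seg (n i) (m i) s).image (y i) = π i := by
        intro i
        have := hπ1 i
        rw [hQp i] at this
        simpa [segParts] using this
      choose s hs using h3
      rw [mem_image]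
      refine ⟨s, ?_, funext fun i => hs i⟩
      unfold Homogeneous at hπ2
      push Not at hπ2
      obtain ⟨⟨u, hu, huE⟩, ⟨v, hv, hvE⟩⟩ := hπ2
      have hpt : ∀ w : Fin k → Fin d → ℝ, (∀ i, w i ∈ π i) → ∃ a : ∀ i, Fin (n i),
          (∀ i, (a i : ℕ) * m i / n i = s i) ∧ ∀ i, y i (a i) = w i := by
        intro w hw
        have : ∀ i, ∃ a : Fin (n i), (a : ℕ) * m i / n i = s i ∧ y i a = w i := by
          intro i
          have h4 := hw i
          rw [← hs i, mem_image] at h4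
          obtain ⟨a, ha, haw⟩ := h4
          exact ⟨a, mem_seg.1 ha, haw⟩
        choose a ha using this
        exact ⟨a, fun i => (ha i).1, fun i => (ha i).2⟩
      obtain ⟨a, ha1, ha2⟩ := hpt u hu
      obtain ⟨b, hb1, hb2⟩ := hpt v hv
      rw [hB, mem_filter]
      refine ⟨mem_univ _, a, b, ha1, hb1, ?_⟩
      by_contra hcon
      have h5 := himp _ _ hcon
      have huP : ∀ i, u i ∈ P i := fun i => (hyP i _).2 ⟨a i, ha2 i⟩
      have hvP : ∀ i, v i ∈ P i := fun i => (hyP i _).2 ⟨b i, hb2 i⟩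
      have e1 : tup x (fun i => e i (a i)) = fun w : Fin k × Fin d => u w.1 w.2 := by
        funext w
        have := congrFun (ha2 w.1) w.2
        simpa [tup, hy] using this
      have e2 : tup x (fun i => e i (b i)) = fun w : Fin k × Fin d => v w.1 w.2 := by
        funext w
        have := congrFun (hb2 w.1) w.2
        simpa [tup, hy] using this
      rw [e1, e2] at h5
      exact huE ((hcr u v huP hvP h5).2 hvE)
    have herr : err P Q E ≤ B.card * ∏ i, (2 / (m i : ℝ)) := by
      unfold err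
      calc ∑ π ∈ (Fintype.piFinset fun i => (Q i).parts).filter (fun π => ¬ Homogeneous E π),
            ∏ i, ((π i).card : ℝ) / (P i).card
          ≤ ∑ π ∈ B.image G, ∏ i, ((π i).card : ℝ) / (P i).card :=
            Finset.sum_le_sum_of_subset_of_nonneg hsub fun π _ _ =>
              Finset.prod_nonneg fun i _ => by positivity
        _ ≤ ∑ π ∈ B.image G, ∏ i, (2 / (m i : ℝ)) := by
            apply Finset.sum_le_sum
            intro π hπ
            rw [mem_image] at hπ
            obtain ⟨s, _, rfl⟩ := hπ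
            exact Finset.prod_le_prod (fun i _ => by positivity) fun i _ => hcard s i
        _ = (B.image G).card * ∏ i, (2 / (m i : ℝ)) := by
            rw [Finset.sum_const, nsmul_eq_mul]
        _ ≤ B.card * ∏ i, (2 / (m i : ℝ)) := by
            apply mul_le_mul_of_nonneg_right _ (Finset.prod_nonneg fun i _ => by positivity)
            exact_mod_cast card_image_le
    have hprod : ∏ i, (2 / (m i : ℝ)) = 2 ^ k / ∏ i, (m i : ℝ) := by
      rw [Finset.prod_div_distrib]
      simp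
    have hmpos : (0 : ℝ) < ∏ i, (m i : ℝ) :=
      Finset.prod_pos fun i _ => by exact_mod_cast hm1 i
    have hc : (B.card : ℝ) * 2 ^ L ≤ K * (2 * D) * ∏ i, (m i : ℝ) := by
      exact_mod_cast hcount'
    calc err P Q E * 2 ^ L ≤ (B.card * ∏ i, (2 / (m i : ℝ))) * 2 ^ L :=
          mul_le_mul_of_nonneg_right herr (by positivity)
      _ = 2 ^ k * (B.card * 2 ^ L) / ∏ i, (m i : ℝ) := by rw [hprod]; ring
      _ ≤ 2 ^ k * (K * (2 * D) * ∏ i, (m i : ℝ)) / ∏ i, (m i : ℝ) := by
          apply div_le_div_of_nonneg_right _ hmpos.le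
          exact mul_le_mul_of_nonneg_left hc (by positivity)
      _ = 2 ^ k * (K * (2 * D)) := by
          field_simp

theorem final (hS : StrictStmt) (hM : Main0Stmt) :
    ∀ d k : ℕ, 1 ≤ d → 1 ≤ k → ∃ C : ℝ, 0 < C ∧ ∀ (D : ℕ) (ε : ℝ), 1 ≤ D → 0 < ε →
      ∀ P : Fin k → Finset (Fin d → ℝ), ∃ Q : ∀ i, Finpartition (P i),
        (∀ i, (Q i).IsEquipartition) ∧
        (∀ i, ((Q i).parts.card : ℝ) ≤ max 1 (C * (D / ε) ^ d)) ∧
        ∀ E : Set (Fin k → Fin d → ℝ), SemiAlg D P E → err P Q E ≤ ε := by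
  intro d k hd hk
  obtain ⟨K, hK1, hK⟩ := hM d k hd hk
  refine ⟨((2 ^ (k + 2) * K : ℕ) : ℝ) ^ d, by positivity, ?_⟩
  intro D ε hD hε P
  by_cases hε1 : 1 < ε
  · choose Q hQ using fun i => trivial_partition (P i)
    refine ⟨Q, fun i => (hQ i).1, fun i => le_max_of_le_left ?_, fun E _ => ?_⟩
    · exact_mod_cast (hQ i).2
    · exact (err_le_one P Q E).trans hε1.le
  push Not at hε1
  by_cases hne : ∀ i, (P i).Nonempty
  swap
  · push Not at hne
    obtain ⟨i, hi⟩ := hne
    choose Q hQ using fun i => trivial_partition (P i)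
    refine ⟨Q, fun i => (hQ i).1, fun i => le_max_of_le_left ?_, fun E _ => ?_⟩
    · exact_mod_cast (hQ i).2
    · rw [err_empty P Q E i hi]
      exact hε.le
  set B : ℝ := 2 ^ (k + 1) * K * D / ε with hB
  have hDr : (1 : ℝ) ≤ D := by exact_mod_cast hD
  have hKr : (1 : ℝ) ≤ K := by exact_mod_cast hK1
  have h2k : (1 : ℝ) ≤ 2 ^ k := one_le_pow₀ (by norm_num)
  have hB2 : 2 * (D : ℝ) ≤ B := by
    rw [hB, le_div_iff₀ hε]
    have h1 : 2 * (D : ℝ) * ε ≤ 2 * D * 1 := mul_le_mul_of_nonneg_left hε1 (by positivity)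
    have h2 : 2 * (D : ℝ) * 1 ≤ 2 ^ (k + 1) * K * D := by
      rw [pow_succ]
      have : (1 : ℝ) ≤ 2 ^ k * K := one_le_mul_of_one_le_of_one_le h2k hKr
      nlinarith
    linarith
  obtain ⟨L', hL1, hL2⟩ := exists_nat_pow_near (x := B) (y := 2) (by linarith) (by norm_num)
  set L := L' + 1 with hL
  have hBL : B ≤ 2 ^ L := hL2.le
  have hDL : 2 * D ≤ 2 ^ L := by
    have : (2 * D : ℝ) ≤ 2 ^ L := hB2.trans hBL
    exact_mod_cast this
  obtain ⟨Q, hQ1, hQ2, hQ3⟩ := main_bound hd hS hK P hne L D hD hDL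
  refine ⟨Q, hQ1, fun i => le_max_of_le_right ?_, fun E hE => ?_⟩
  · have h1 : ((Q i).parts.card : ℝ) ≤ 2 ^ (d * L) := by exact_mod_cast hQ2 i
    refine h1.trans ?_
    have h2 : (2 : ℝ) ^ (d * L) = (2 ^ L) ^ d := by rw [← pow_mul, mul_comm]
    rw [h2, ← mul_pow]
    apply pow_le_pow_left₀ (by positivity)
    have h3 : (2 : ℝ) ^ L = 2 * 2 ^ L' := by rw [hL, pow_succ]; ring
    rw [h3]
    calc 2 * (2 : ℝ) ^ L' ≤ 2 * B := by linarith
      _ = ((2 ^ (k + 2) * K : ℕ) : ℝ) * (D / ε) := by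
          rw [hB]
          push_cast
          ring
  · have h1 := hQ3 E hE
    have h2 : (2 : ℝ) ^ k * (K * (2 * D)) = ε * B := by
      rw [hB]
      field_simp
      ring
    rw [h2] at h1
    have h3 : err P Q E * 2 ^ L ≤ ε * 2 ^ L :=
      h1.trans (mul_le_mul_of_nonneg_left hBL hε.le)
    exact le_of_mul_le_mul_right h3 (by positivity)

end Pool.Agent.R98.EQ.Fn
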