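import Pool.Agent.R98.EQ.Stm

/-! Piece B2 GEN: generic perturbation (generalised Vandermonde determinants). -/

set_option autoImplicit false

namespace Pool.Agent.R98.EQ

open MvPolynomial Finset

open scoped Classical

namespace Gen

/-- exponent vector -/
noncomputable def ex {d a : ℕ} (α : Fin d → Fin (a + 1)) : Fin d →₀ ℕ :=
  Finsupp.equivFunOnFinite.symm fun i => (α i : ℕ)

lemma ex_apply {d a : ℕ} (α : Fin d → Fin (a + 1)) (i : Fin d) : ex α i = (α i : ℕ) := rfl

lemma ex_inj {d a : ℕ} : Function.Injective (ex : (Fin d → Fin (a + 1)) → (Fin d →₀ ℕ)) := by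
  intro α β h
  funext i
  exact Fin.ext (DFunLike.congr_fun h i)

lemma eval_box {d a : ℕ} (p : MvPolynomial (Fin d) ℝ) (hp : ∀ i, degreeOf i p ≤ a)
    (x : Fin d → ℝ) :
    eval x p = ∑ α : Fin d → Fin (a + 1), coeff (ex α) p * ∏ i, x i ^ (α i : ℕ) := by
  rw [eval_eq']
  have h1 : p.support ⊆ univ.image (ex : (Fin d → Fin (a + 1)) → (Fin d →₀ ℕ)) := by
    intro m hm
    rw [mem_image]
    refine ⟨fun i => ⟨m i, ?_⟩, mem_univ _, ?_⟩
    · have := (degreeOf_le_iff.1 (hp i)) m hm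
      omega
    · ext i
      rfl
  rw [sum_subset h1, sum_image (fun α _ β _ h => ex_inj h)]
  · rfl
  · intro m _ hm
    rw [notMem_support_iff.1 hm, zero_mul]

/-- The polynomial with given coefficients in the box. -/
noncomputable def pol {d a : ℕ} (v : (Fin d → Fin (a + 1)) → ℝ) : MvPolynomial (Fin d) ℝ :=
  ∑ α, monomial (ex α) (v α)

lemma coeff_pol {d a : ℕ} (v : (Fin d → Fin (a + 1)) → ℝ) (α : Fin d → Fin (a + 1)) :
    coeff (ex α) (pol v) = v α := by
  unfold pol
  rw [coeff_sum, sum_eq_single α]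
  · rw [coeff_monomial, if_pos rfl]
  · intro β _ hβ
    rw [coeff_monomial, if_neg fun h => hβ (ex_inj h)]
  · intro h
    exact absurd (mem_univ _) h

lemma deg_pol {d a : ℕ} (v : (Fin d → Fin (a + 1)) → ℝ) (i : Fin d) : degreeOf i (pol v) ≤ a := by
  rw [degreeOf_le_iff]
  intro m hm
  by_contra hcon
  apply mem_support_iff.1 hm
  unfold pol
  rw [coeff_sum]
  refine sum_eq_zero fun α _ => ?_
  rw [coeff_monomial, if_neg]
  rintro rfl
  apply hcon
  rw [ex_apply]
  have := (α i).2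
  omega

/-- evaluation matrix -/
def evm {d a : ℕ} {R : Type} [CommRing R] (y : (Fin d → Fin (a + 1)) → Fin d → R) :
    Matrix (Fin d → Fin (a + 1)) (Fin d → Fin (a + 1)) R :=
  Matrix.of fun β α => ∏ i, y β i ^ (α i : ℕ)

lemma evm_mulVec {d a : ℕ} (y : (Fin d → Fin (a + 1)) → Fin d → ℝ)
    (p : MvPolynomial (Fin d) ℝ) (hp : ∀ i, degreeOf i p ≤ a) (β : Fin d → Fin (a + 1)) :
    ((evm y).mulVec fun α => coeff (ex α) p) β = eval (y β) p := by
  rw [eval_box p hp]
  change ∑ α, (∏ i, y β i ^ (α i : ℕ)) * coeff (ex α) p = _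
  refine sum_congr rfl fun α _ => ?_
  rw [mul_comm]

lemma det_ne_of {d a : ℕ} (y : (Fin d → Fin (a + 1)) → Fin d → ℝ)
    (h : ∀ p : MvPolynomial (Fin d) ℝ, (∀ i, degreeOf i p ≤ a) → (∀ β, eval (y β) p = 0) →
      p = 0) : (evm y).det ≠ 0 := by
  intro h0
  obtain ⟨v, hv, h1⟩ := Matrix.exists_mulVec_eq_zero_iff.2 h0
  have h2 : pol v = 0 := by
    refine h (pol v) (deg_pol v) fun β => ?_
    rw [← evm_mulVec y (pol v) (deg_pol v) β]
    have h3 : (fun α => coeff (ex α) (pol v)) = v := funext fun α => coeff_pol v α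
    rw [h3, h1]
    rfl
  apply hv
  funext α
  rw [← coeff_pol v α, h2, coeff_zero]
  rfl

lemma zero_of_det {d a : ℕ} (y : (Fin d → Fin (a + 1)) → Fin d → ℝ) (h0 : (evm y).det ≠ 0)
    (p : MvPolynomial (Fin d) ℝ) (hp : ∀ i, degreeOf i p ≤ a) (h : ∀ β, eval (y β) p = 0) :
    p = 0 := by
  by_contra hne
  apply h0
  rw [← Matrix.exists_mulVec_eq_zero_iff]
  refine ⟨fun α => coeff (ex α) p, ?_, ?_⟩
  · intro h1
    apply hne
    have h2 : p = pol (fun α : Fin d → Fin (a + 1) => coeff (ex α) p) := by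
      apply MvPolynomial.funext
      intro x
      rw [eval_box p hp x, eval_box (pol _) (deg_pol _) x]
      refine sum_congr rfl fun α _ => ?_
      rw [coeff_pol]
    rw [h2]
    unfold pol
    refine sum_eq_zero fun α _ => ?_
    have h3 : (fun α : Fin d → Fin (a + 1) => coeff (ex α) p) α = 0 := congrFun h1 α
    rw [h3, monomial_zero]
  · funext β
    rw [evm_mulVec y p hp β, h β]
    rfl

lemma det_grid (d a : ℕ) :
    (evm (fun (β : Fin d → Fin (a + 1)) (i : Fin d) => ((β i : ℕ) : ℝ))).det ≠ 0 := by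
  refine det_ne_of _ fun p hp h => ?_
  refine MvPolynomial.eq_zero_of_eval_zero_at_prod_finset p
    (fun _ => (range (a + 1)).image fun n : ℕ => (n : ℝ)) ?_ ?_
  · intro i
    rw [card_image_of_injective _ Nat.cast_injective, card_range]
    exact Nat.lt_succ_of_le (hp i)
  · intro x hx
    have h1 : ∀ i, ∃ n : Fin (a + 1), ((n : ℕ) : ℝ) = x i := by
      intro i
      obtain ⟨n, hn, h2⟩ := mem_image.1 (hx i)
      exact ⟨⟨n, mem_range.1 hn⟩, h2⟩
    choose β hβ using h1
    have h2 := h β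
    have h3 : (fun i : Fin d => ((β i : ℕ) : ℝ)) = x := funext hβ
    rw [h3] at h2
    exact h2

/-- The determinant as a polynomial in all the coordinates of all the points. -/
noncomputable def D {d a : ℕ} {ι : Type} (s : (Fin d → Fin (a + 1)) ↪ ι) :
    MvPolynomial (ι × Fin d) ℝ :=
  (evm fun β i => (X (s β, i) : MvPolynomial (ι × Fin d) ℝ)).det

lemma eval_D {d a : ℕ} {ι : Type} (s : (Fin d → Fin (a + 1)) ↪ ι) (y : ι × Fin d → ℝ) :
    eval y (D s) = (evm fun β i => y (s β, i)).det := by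
  unfold D
  rw [RingHom.map_det]
  congr 1
  ext β α
  simp [evm]

lemma D_ne {d a : ℕ} {ι : Type} (s : (Fin d → Fin (a + 1)) ↪ ι) : D s ≠ 0 := by
  intro h
  have h1 : ∃ y : ι × Fin d → ℝ, ∀ β i, y (s β, i) = ((β i : ℕ) : ℝ) := by
    refine ⟨fun v => if h : ∃ β, s β = v.1 then (((h.choose v.2 : Fin (a + 1)) : ℕ) : ℝ) else 0,
      fun β i => ?_⟩
    have h2 : ∃ β', s β' = (s β, i).1 := ⟨β, rfl⟩
    simp only
    rw [dif_pos h2]
    have h3 : h2.choose = β := s.injective h2.choose_spec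
    rw [h3]
  obtain ⟨y, hy⟩ := h1
  have h2 := eval_D s y
  rw [h, map_zero] at h2
  apply det_grid d a
  rw [h2]
  congr 2
  funext β i
  rw [hy]

end Gen

open Gen in
/-- piece GEN -/
theorem gen : GenStmt := by
  intro d hd ι _ x η hη
  let i0 : Fin d := ⟨0, hd⟩
  let Q : MvPolynomial (ι × Fin d) ℝ :=
    (∏ a ∈ range (Fintype.card ι + 1), ∏ s : (Fin d → Fin (a + 1)) ↪ ι, D s) *
      ∏ q ∈ univ.filter (fun q : ι × ι => q.1 ≠ q.2), (X (q.1, i0) - X (q.2, i0))
  have hQ : Q ≠ 0 := by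
    refine mul_ne_zero (prod_ne_zero_iff.2 fun a _ => prod_ne_zero_iff.2 fun s _ => D_ne s)
      (prod_ne_zero_iff.2 fun q hq h => ?_)
    have h1 := X_injective (R := ℝ) (sub_eq_zero.1 h)
    exact (mem_filter.1 hq).2 (congrArg Prod.fst h1)
  obtain ⟨y, hy1, hy2⟩ : ∃ y : ι × Fin d → ℝ, (∀ v, |y v - x v.1 v.2| < η) ∧ eval y Q ≠ 0 := by
    by_contra hcon
    push Not at hcon
    apply hQ
    refine funext_set (fun v : ι × Fin d => Metric.ball (x v.1 v.2) η)
      (fun v => ?_) fun y hy => ?_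
    · rw [Real.ball_eq_Ioo]
      exact Set.Ioo_infinite (by linarith)
    · rw [map_zero]
      refine hcon y fun v => ?_
      have h1 := hy v (Set.mem_univ v)
      rw [Metric.mem_ball, Real.dist_eq] at h1
      exact h1
  simp only [Q, map_mul, map_prod] at hy2
  have hA := left_ne_zero_of_mul hy2
  have hB := right_ne_zero_of_mul hy2
  refine ⟨fun i j => y (i, j), ⟨?_, ?_⟩, fun i j => hy1 (i, j)⟩
  · intro i j hij
    by_contra hne
    have h1 := (prod_ne_zero_iff.1 hB) (i, j) (mem_filter.2 ⟨mem_univ _, hne⟩)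
    apply h1
    simp only [map_sub, eval_X]
    rw [sub_eq_zero]
    exact congrFun hij i0
  · intro a p hp hdeg
    by_contra hcon
    push Not at hcon
    have h1 : Fintype.card (Fin d → Fin (a + 1)) ≤
        Fintype.card {i // eval (fun j => y (i, j)) p = 0} := by
      rw [Fintype.card_subtype, Fintype.card_pi]
      simpa using hcon
    obtain ⟨s⟩ := Function.Embedding.nonempty_of_card_le h1
    have ha : a < Fintype.card ι + 1 := by
      have h2 : a + 1 ≤ (a + 1) ^ d := Nat.le_self_pow (by omega) _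
      have h3 := card_filter_le (univ : Finset ι) (fun i => eval (fun j => y (i, j)) p = 0)
      rw [card_univ] at h3
      omega
    let s' : (Fin d → Fin (a + 1)) ↪ ι := s.trans (Function.Embedding.subtype _)
    have h2 := (prod_ne_zero_iff.1 ((prod_ne_zero_iff.1 hA) a (mem_range.2 ha))) s' (mem_univ _)
    rw [eval_D] at h2
    exact hp (zero_of_det _ h2 p hdeg fun β => (s β).2)

end Pool.Agent.R98.EQ
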