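import Pool.Agent.R98.EQ.Stm
import Pool.Agent.Helper133.BULib

/-! B1 HAM: the polynomial ham sandwich theorem for finite sets, from Borsuk-Ulam. -/

set_option autoImplicit false

namespace Pool.Agent.R98.EQ

open MvPolynomial Finset Filter Topology

namespace Ham

/-- Truncation to `[-1, 1]`. -/
noncomputable def clamp (t : ℝ) : ℝ := max (-1) (min 1 t)

theorem clamp_neg (t : ℝ) : clamp (-t) = - clamp t := by
  unfold clamp
  rcases le_total t 1 with h1 | h1 <;> rcases le_total (-1) t with h2 | h2
  · rw [min_eq_right (by linarith), max_eq_right (by linarith), min_eq_right h1, max_eq_right h2]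
  · rw [min_eq_left (by linarith), max_eq_right (by linarith), min_eq_right h1, max_eq_left h2]
    norm_num
  · rw [min_eq_right (by linarith), max_eq_left (by linarith), min_eq_left h1, max_eq_right (by linarith)]
  · linarith

theorem clamp_cont : Continuous clamp := by
  unfold clamp; fun_prop

theorem clamp_ge (t : ℝ) : -1 ≤ clamp t := le_max_left _ _

theorem clamp_le (t : ℝ) : clamp t ≤ 1 := max_le (by norm_num) (min_le_left _ _)

theorem clamp_one {t : ℝ} (h : 1 ≤ t) : clamp t = 1 := by
  unfold clamp; rw [min_eq_left h]; norm_num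

/-- The linear family of polynomials. -/
noncomputable def P {d r : ℕ} (s : Fin (r + 1) → (Fin d →₀ ℕ)) (v : Fin (r + 1) → ℝ) :
    MvPolynomial (Fin d) ℝ := ∑ k, monomial (s k) (v k)

theorem P_neg {d r : ℕ} (s : Fin (r + 1) → (Fin d →₀ ℕ)) (v : Fin (r + 1) → ℝ) :
    P s (-v) = - P s v := by
  unfold P
  rw [← Finset.sum_neg_distrib]
  refine Finset.sum_congr rfl fun k _ => ?_
  rw [Pi.neg_apply, map_neg]

theorem P_coeff {d r : ℕ} (s : Fin (r + 1) → (Fin d →₀ ℕ)) (hs : Function.Injective s)
    (v : Fin (r + 1) → ℝ) (k : Fin (r + 1)) : coeff (s k) (P s v) = v k := by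
  unfold P
  rw [coeff_sum, Finset.sum_eq_single k]
  · simp
  · intro b _ hb
    rw [coeff_monomial, if_neg]
    intro h
    exact hb (hs h)
  · simp

theorem P_eval_cont {d r : ℕ} (s : Fin (r + 1) → (Fin d →₀ ℕ)) (x : Fin d → ℝ) :
    Continuous (fun v : Fin (r + 1) → ℝ => eval x (P s v)) := by
  unfold P
  simp only [map_sum, eval_monomial]
  fun_prop

theorem K_compact (m : ℕ) : IsCompact (Pool.Agent.Helper133.BU.K m) := by
  refine Metric.isCompact_of_isClosed_isBounded ?_ ?_
  · unfold Pool.Agent.Helper133.BU.K
    exact isClosed_eq (by fun_prop) continuous_const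
  · refine (Metric.isBounded_closedBall (x := (0 : Fin (m + 1) → ℝ)) (r := 1)).subset ?_
    intro x hx
    rw [mem_closedBall_zero_iff, pi_norm_le_iff_of_nonneg (by norm_num)]
    intro i
    have h : ∑ i, |x i| = 1 := hx
    rw [Real.norm_eq_abs, ← h]
    exact Finset.single_le_sum (f := fun i => |x i|) (fun i _ => abs_nonneg _) (Finset.mem_univ i)

end Ham

open Ham

theorem ham : HamStmt := by
  intro d a r hr A
  classical
  -- the exponents
  have hcard : Fintype.card (Fin (r + 1)) ≤ Fintype.card (Fin d → Fin (a + 1)) := by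
    simp only [Fintype.card_fin, Fintype.card_fun]
    omega
  obtain ⟨e⟩ := Function.Embedding.nonempty_of_card_le hcard
  let s : Fin (r + 1) → (Fin d →₀ ℕ) := fun k => Finsupp.equivFunOnFinite.symm (fun i => ((e k i : Fin (a + 1)) : ℕ))
  have hs : Function.Injective s := by
    intro k l h
    apply e.injective
    funext i
    have h2 : s k i = s l i := by rw [h]
    exact Fin.ext h2
  -- the zeros of the approximations
  have hz : ∀ N : ℕ, ∃ v ∈ Pool.Agent.Helper133.BU.K r, ∀ j, ∑ x ∈ A j, clamp (N * eval x (P s v)) = 0 := by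
    intro N
    obtain ⟨v, hv, h0⟩ := Pool.Agent.Helper133.BU.borsuk_ulam r
      (fun v j => ∑ x ∈ A j, clamp (N * eval x (P s v)))
      (by
        refine continuous_pi fun j => ?_
        refine continuous_finsetSum _ fun x _ => ?_
        exact clamp_cont.comp (continuous_const.mul (P_eval_cont s x)))
      (by
        intro v
        funext j
        simp only [Pi.neg_apply]
        rw [← Finset.sum_neg_distrib]
        refine Finset.sum_congr rfl fun x _ => ?_
        rw [← clamp_neg, P_neg]
        congr 1
        simp)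
    exact ⟨v, hv, fun j => congrFun h0 j⟩
  choose v hv h0 using hz
  obtain ⟨w, hw, φ, hφ, hlim⟩ := (K_compact r).tendsto_subseq hv
  have hlimx : ∀ x : Fin d → ℝ, Tendsto (fun n => eval x (P s (v (φ n)))) atTop (𝓝 (eval x (P s w))) :=
    fun x => ((P_eval_cont s x).tendsto w).comp hlim
  have hN : Tendsto (fun n => ((φ n : ℕ) : ℝ)) atTop atTop :=
    tendsto_natCast_atTop_atTop.comp hφ.tendsto_atTop
  have hpos : ∀ x : Fin d → ℝ, 0 < eval x (P s w) →
      ∀ᶠ n in atTop, clamp (φ n * eval x (P s (v (φ n)))) = 1 := by
    intro x hx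
    have := (hN.atTop_mul_pos hx (hlimx x)).eventually_ge_atTop 1
    exact this.mono fun n hn => clamp_one hn
  have hneg : ∀ x : Fin d → ℝ, eval x (P s w) < 0 →
      ∀ᶠ n in atTop, clamp (φ n * eval x (P s (v (φ n)))) = -1 := by
    intro x hx
    have := (hN.atTop_mul_pos (by linarith : 0 < - eval x (P s w)) (hlimx x).neg).eventually_ge_atTop 1
    refine this.mono fun n hn => ?_
    have h1 : clamp (-(φ n * eval x (P s (v (φ n))))) = 1 := clamp_one (by linarith)
    rw [clamp_neg] at h1
    linarith
  refine ⟨P s w, ?_, ?_, ?_⟩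
  · intro h
    have hw0 : ∀ k, w k = 0 := by
      intro k
      rw [← P_coeff s hs w k, h]; simp
    have h1 : ∑ i, |w i| = 1 := hw
    simp [hw0] at h1
  · intro i
    rw [degreeOf_le_iff]
    intro m hm
    have hm2 : m ∈ Finset.univ.biUnion (fun k => (monomial (s k) (w k)).support) :=
      (MvPolynomial.support_sum) hm
    obtain ⟨k, _, hk⟩ := Finset.mem_biUnion.mp hm2
    have hk2 := (support_monomial_subset) hk
    rw [Finset.mem_singleton] at hk2
    rw [hk2]
    have : s k i = ((e k i : Fin (a + 1)) : ℕ) := rfl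
    rw [this]
    have := (e k i).is_lt
    omega
  · intro j
    have hev : ∀ᶠ n in atTop, ∀ x ∈ A j, (0 < eval x (P s w) →
        clamp (φ n * eval x (P s (v (φ n)))) = 1) ∧ (eval x (P s w) < 0 →
        clamp (φ n * eval x (P s (v (φ n)))) = -1) := by
      rw [Filter.eventually_all_finset]
      intro x _
      by_cases h1 : 0 < eval x (P s w)
      · exact (hpos x h1).mono fun n hn => ⟨fun _ => hn, fun h => by linarith⟩
      · by_cases h2 : eval x (P s w) < 0
        · exact (hneg x h2).mono fun n hn => ⟨fun h => by linarith, fun _ => hn⟩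
        · exact Eventually.of_forall fun n => ⟨fun h => absurd h h1, fun h => absurd h h2⟩
    obtain ⟨n, hn⟩ := hev.exists
    have hsum := h0 (φ n) j
    constructor
    · have key : ∑ x ∈ A j, (if 0 < eval x (P s w) then (2 : ℝ) else 0) ≤
          ∑ x ∈ A j, (clamp (φ n * eval x (P s (v (φ n)))) + 1) := by
        refine Finset.sum_le_sum fun x hx => ?_
        split_ifs with h
        · rw [(hn x hx).1 h]; norm_num
        · have := clamp_ge (φ n * eval x (P s (v (φ n)))); linarith
      rw [Finset.sum_add_distrib, hsum, ← Finset.sum_filter] at key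
      simp only [Finset.sum_const, nsmul_eq_mul, zero_add, mul_one] at key
      have : (((A j).filter (fun x => 0 < eval x (P s w))).card : ℝ) * 2 ≤ ((A j).card : ℝ) := key
      have h3 : ((A j).filter (fun x => 0 < eval x (P s w))).card * 2 ≤ (A j).card := by exact_mod_cast this
      convert (by omega : 2 * ((A j).filter (fun x => 0 < eval x (P s w))).card ≤ (A j).card)
    · have key : ∑ x ∈ A j, (if eval x (P s w) < 0 then (2 : ℝ) else 0) ≤
          ∑ x ∈ A j, (1 - clamp (φ n * eval x (P s (v (φ n))))) := by
        refine Finset.sum_le_sum fun x hx => ?_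
        split_ifs with h
        · rw [(hn x hx).2 h]; norm_num
        · have := clamp_le (φ n * eval x (P s (v (φ n)))); linarith
      rw [Finset.sum_sub_distrib, hsum, ← Finset.sum_filter] at key
      simp only [Finset.sum_const, nsmul_eq_mul, sub_zero, mul_one] at key
      have : (((A j).filter (fun x => eval x (P s w) < 0)).card : ℝ) * 2 ≤ ((A j).card : ℝ) := key
      have h3 : ((A j).filter (fun x => eval x (P s w) < 0)).card * 2 ≤ (A j).card := by exact_mod_cast this
      convert (by omega : 2 * ((A j).filter (fun x => eval x (P s w) < 0)).card ≤ (A j).card)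

end Pool.Agent.R98.EQ
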