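import Mathlib
import Pool.Agent.R98.EQ.Stm

/-! # D3b: Main0Stmt from CellStmt, ProdStmt, SegStmt -/

set_option autoImplicit false

namespace Pool.Agent.R98.EQ

open MvPolynomial Finset

open scoped Classical

namespace M0

theorem totalDegree_aeval_le {σ σ' : Type} (φ : σ → MvPolynomial σ' ℝ)
    (hφ : ∀ v, (φ v).totalDegree ≤ 1) (g : MvPolynomial σ ℝ) :
    (aeval φ g).totalDegree ≤ g.totalDegree := by
  rw [aeval_def, eval₂_eq]
  apply totalDegree_finsetSum_le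
  intro m hm
  refine (totalDegree_mul _ _).trans ?_
  have h1 : (algebraMap ℝ (MvPolynomial σ' ℝ) (coeff m g)).totalDegree = 0 := by
    rw [MvPolynomial.algebraMap_eq, totalDegree_C]
  rw [h1, zero_add]
  refine (totalDegree_finsetProd _ _).trans ?_
  refine le_trans ?_ (le_totalDegree hm)
  rw [Finsupp.sum]
  apply Finset.sum_le_sum
  intro i _
  refine (totalDegree_pow _ _).trans ?_
  calc m i * (φ i).totalDegree ≤ m i * 1 := Nat.mul_le_mul_left _ (hφ i)
    _ = m i := mul_one _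

theorem eval_aeval {σ σ' : Type} (φ : σ → MvPolynomial σ' ℝ) (z : σ' → ℝ)
    (g : MvPolynomial σ ℝ) : eval z (aeval φ g) = eval (fun v => eval z (φ v)) g := by
  induction g using MvPolynomial.induction_on with
  | C a => simp [MvPolynomial.algebraMap_eq]
  | add p q hp hq => rw [map_add, map_add, map_add, hp, hq]
  | mul_X p n hp => rw [map_mul, map_mul, map_mul, hp, aeval_X, eval_X]

theorem degSum_map {σ σ' : Type} (φ : σ → MvPolynomial σ' ℝ)
    (hφ : ∀ v, (φ v).totalDegree ≤ 1) (gs : List (MvPolynomial σ ℝ)) :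
    degSum (gs.map (fun g => aeval φ g)) ≤ degSum gs := by
  unfold degSum
  rw [List.map_map]
  exact List.sum_le_sum fun g _ => totalDegree_aeval_le φ hφ g

theorem crosses_map {σ σ' : Type} (φ : σ → MvPolynomial σ' ℝ) (gs : List (MvPolynomial σ ℝ))
    (z z' : σ' → ℝ) : Crosses (gs.map (fun g => aeval φ g)) z z' ↔
      Crosses gs (fun v => eval z (φ v)) (fun v => eval z' (φ v)) := by
  unfold Crosses
  simp only [List.mem_map, exists_exists_and_eq_and, eval_aeval]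

/-- lists of signs, without a decidability instance -/
def Sg : Type := List SignType

/-- the structure of one coordinate -/
structure CD (d K L D n : ℕ) (x : Fin n → Fin d → ℝ) where
  f : MvPolynomial (Fin d) ℝ
  M : ℕ
  e : Equiv.Perm (Fin n)
  c : Fin n → Fin M
  rep : Fin M → Fin n
  deg : f.totalDegree ≤ K * 2 ^ L
  hM : M ≤ K * min n (2 ^ (d * L))
  mono : Monotone c
  hrep : ∀ s, c (rep s) = s
  fib : ∀ s, (univ.filter (fun a => c a = s)).card * min n (2 ^ (d * L)) ≤ n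
  same : ∀ a b, c a = c b → a = b ∨ (eval (x (e a)) f ≠ 0 ∧ x (e b) ∈ cell f (x (e a)))
  conv : ∀ a b, eval (x (e a)) f ≠ 0 → x (e b) ∈ cell f (x (e a)) → c a = c b
  big : ∀ y, eval y f ≠ 0 → min n (2 ^ (d * L)) = 2 ^ (d * L)
  path : min n (2 ^ (d * L)) < n →
    ∀ gs : List (MvPolynomial (Fin d) ℝ), degSum gs ≤ D → (∀ g ∈ gs, ∀ i, eval (x i) g ≠ 0) →
      (univ.filter (fun s : Fin M => ∃ h : (s : ℕ) + 1 < M,
        Crosses gs (x (e (rep s))) (x (e (rep ⟨s + 1, h⟩))))).card ≤ K * D * 2 ^ ((d - 1) * L)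

theorem exCD (hC : CellStmt) (d : ℕ) (hd : 1 ≤ d) : ∃ K : ℕ, 1 ≤ K ∧
    ∀ (n : ℕ) (x : Fin n → Fin d → ℝ), Generic d x → ∀ (L D : ℕ), 1 ≤ D → D ≤ 2 ^ L →
      Nonempty (CD d K L D n x) := by
  obtain ⟨K, hK, h⟩ := hC d hd
  refine ⟨K, hK, fun n x hx L D hD hDL => ?_⟩
  by_cases hn : 2 ^ (d * L) < n
  · obtain ⟨f, M, e, c, rep, h1, h2, h3, h4, h5, h6, h7, h8⟩ := h n x hx L D hD hDL hn
    have hm : min n (2 ^ (d * L)) = 2 ^ (d * L) := min_eq_right hn.le
    have h2' : M ≤ K * min n (2 ^ (d * L)) := by rw [hm]; exact h2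
    have h5' : ∀ s, (univ.filter (fun a => c a = s)).card * min n (2 ^ (d * L)) ≤ n := by
      rw [hm]; exact h5
    exact ⟨⟨f, M, e, c, rep, h1, h2', h3, h4, h5', h6, h7, fun _ _ => hm, fun _ => h8⟩⟩
  · have hm : min n (2 ^ (d * L)) = n := min_eq_left (not_lt.1 hn)
    have hfib : ∀ s : Fin n, (univ.filter (fun a : Fin n => id a = s)).card *
        min n (2 ^ (d * L)) ≤ n := by
      intro s
      rw [hm]
      have : (univ.filter (fun a : Fin n => id a = s)).card = 1 := by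
        rw [Finset.card_eq_one]
        exact ⟨s, by ext a; simp⟩
      rw [this, one_mul]
    have hMn : n ≤ K * min n (2 ^ (d * L)) := by
      rw [hm]; exact Nat.le_mul_of_pos_left _ hK
    have hlt' : ¬ min n (2 ^ (d * L)) < n := by rw [hm]; exact lt_irrefl _
    exact ⟨⟨0, n, 1, id, id, by simp, hMn, monotone_id, fun _ => rfl, hfib,
      fun a b hab => Or.inl hab, fun a b ha _ => absurd (by simp) ha,
      fun y hy => absurd (by simp) hy, fun hlt => absurd hlt hlt'⟩⟩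

theorem card_fib {k : ℕ} {M : Fin k → ℕ} (S : Finset (∀ i, Fin (M i))) (I : Finset (Fin k))
    (B : ℕ) (h : ∀ γ0 ∈ S, (S.filter (fun γ => ∀ i ∉ I, γ i = γ0 i)).card ≤ B) :
    S.card ≤ B * ∏ i ∈ Iᶜ, M i := by
  let ρ : (∀ i, Fin (M i)) → (∀ i : {i // i ∉ I}, Fin (M i)) := fun γ i => γ i
  have h1 : S.card ≤ B * (S.image ρ).card := by
    apply Finset.card_le_mul_card_image
    intro b hb
    obtain ⟨γ0, hγ0, rfl⟩ := Finset.mem_image.1 hb
    refine le_trans (Finset.card_le_card ?_) (h γ0 hγ0)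
    intro γ hγ
    rw [Finset.mem_filter] at hγ ⊢
    refine ⟨hγ.1, fun i hi => ?_⟩
    exact congrFun hγ.2 ⟨i, hi⟩
  refine h1.trans (Nat.mul_le_mul_left _ ?_)
  refine (Finset.card_le_univ _).trans (le_of_eq ?_)
  rw [Fintype.card_pi]
  simp only [Fintype.card_fin]
  rw [Finset.prod_subtype (Iᶜ) (p := fun i => i ∉ I) (fun i => by simp) M]

section

variable {d k K L D : ℕ} {n : Fin k → ℕ} {x : ∀ i, Fin (n i) → Fin d → ℝ}
  (cd : ∀ i, CD d K L D (n i) (x i)) (gs : List (MvPolynomial (Fin k × Fin d) ℝ))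

/-- points in the new order -/
def P (i : Fin k) (a : Fin (n i)) : Fin d → ℝ := x i ((cd i).e a)

/-- tuples in the new order -/
def pt (a : ∀ i, Fin (n i)) : Fin k × Fin d → ℝ := tup x (fun i => (cd i).e (a i))

theorem pt_apply (a : ∀ i, Fin (n i)) (v : Fin k × Fin d) : pt cd a v = P cd v.1 (a v.1) v.2 := rfl

/-- list of signs -/
noncomputable def F (a : ∀ i, Fin (n i)) : Sg :=
  gs.map (fun g => SignType.sign (eval (pt cd a) g))

theorem F_ne (a b : ∀ i, Fin (n i)) : F cd gs a ≠ F cd gs b ↔ Crosses gs (pt cd a) (pt cd b) := by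
  unfold F Crosses
  show ¬ ((gs.map (fun g => SignType.sign (eval (pt cd a) g)) : List SignType) =
    gs.map (fun g => SignType.sign (eval (pt cd b) g))) ↔ _
  rw [List.map_inj_left]
  push Not
  rfl

/-- component classes -/
def isC (γ : ∀ i, Fin ((cd i).M)) (i : Fin k) : Prop :=
  eval (P cd i ((cd i).rep (γ i))) (cd i).f ≠ 0

/-- the set of component coordinates -/
noncomputable def comp (γ : ∀ i, Fin ((cd i).M)) : Finset (Fin k) := univ.filter (isC cd γ)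

/-- nonconstant tuples -/
noncomputable def SA : Finset (∀ i, Fin ((cd i).M)) :=
  univ.filter (fun γ => ∃ a b : ∀ i, Fin (n i), (∀ i, (cd i).c (a i) = γ i) ∧
    (∀ i, (cd i).c (b i) = γ i) ∧ F cd gs a ≠ F cd gs b)

theorem pointclass (γ : ∀ i, Fin ((cd i).M)) (i : Fin k) (h : ¬ isC cd γ i) (a : Fin (n i))
    (ha : (cd i).c a = γ i) : a = (cd i).rep (γ i) := by
  rcases (cd i).same ((cd i).rep (γ i)) a (by rw [(cd i).hrep, ha]) with h1 | h1
  · exact h1.symm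
  · exact absurd h1.1 h

theorem compclass (γ : ∀ i, Fin ((cd i).M)) (i : Fin k) (h : isC cd γ i) (a : Fin (n i))
    (ha : (cd i).c a = γ i) : eval (P cd i a) (cd i).f ≠ 0 := by
  rcases (cd i).same ((cd i).rep (γ i)) a (by rw [(cd i).hrep, ha]) with h1 | h1
  · rw [← h1]; exact h
  · exact connectedComponentIn_subset _ _ h1.2

theorem self_cell (i : Fin k) (a : Fin (n i)) (h : eval (P cd i a) (cd i).f ≠ 0) :
    P cd i a ∈ cell (cd i).f (P cd i a) := mem_connectedComponentIn h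

theorem cellclass (i : Fin k) (a b : Fin (n i)) (h : eval (P cd i a) (cd i).f ≠ 0)
    (hab : (cd i).c a = (cd i).c b) : P cd i b ∈ cell (cd i).f (P cd i a) := by
  rcases (cd i).same a b hab with h1 | h1
  · rw [← h1]; exact self_cell cd i a h
  · exact h1.2

theorem SA_mem (γ : ∀ i, Fin ((cd i).M)) : γ ∈ SA cd gs ↔ ∃ a b : ∀ i, Fin (n i),
    (∀ i, (cd i).c (a i) = γ i) ∧ (∀ i, (cd i).c (b i) = γ i) ∧ F cd gs a ≠ F cd gs b := by
  rw [SA, Finset.mem_filter]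
  simp

/-- substitution -/
noncomputable def phi (I : Finset (Fin k)) (γ0 : ∀ i, Fin ((cd i).M)) (v : Fin k × Fin d) :
    MvPolynomial ({i // i ∈ I} × Fin d) ℝ :=
  if h : v.1 ∈ I then X (⟨v.1, h⟩, v.2) else C (P cd v.1 ((cd v.1).rep (γ0 v.1)) v.2)

theorem phi_deg (I : Finset (Fin k)) (γ0 : ∀ i, Fin ((cd i).M)) (v : Fin k × Fin d) :
    (phi cd I γ0 v).totalDegree ≤ 1 := by
  unfold phi
  split_ifs
  · rw [totalDegree_X]
  · rw [totalDegree_C]; exact Nat.zero_le _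

theorem phi_eval (I : Finset (Fin k)) (γ0 : ∀ i, Fin ((cd i).M)) (a : ∀ i, Fin (n i))
    (ha : ∀ i ∉ I, a i = (cd i).rep (γ0 i)) :
    (fun v => eval (fun u : {i // i ∈ I} × Fin d => P cd u.1 (a u.1) u.2) (phi cd I γ0 v)) =
      pt cd a := by
  funext v
  rw [pt_apply]
  unfold phi
  split_ifs with h
  · rw [eval_X]
  · rw [eval_C, ha _ h]

/-- the conclusion of ProdStmt -/
def PQ (d : ℕ) (τ : Type) [Fintype τ] (KI : ℕ) : Prop :=
  ∀ (m D : ℕ), 1 ≤ D → D ≤ m → ∀ (f : τ → MvPolynomial (Fin d) ℝ),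
  (∀ t, (f t).totalDegree ≤ m) → ∀ gs : List (MvPolynomial (τ × Fin d) ℝ), degSum gs ≤ D →
  ∀ (ι : Type) [Fintype ι] (p q : ι → τ → Fin d → ℝ), (∀ j t, eval (p j t) (f t) ≠ 0) →
  (∀ j t, q j t ∈ cell (f t) (p j t)) →
  (∀ j, Crosses gs (fun v => p j v.1 v.2) (fun v => q j v.1 v.2)) →
  (∀ j, ∀ g ∈ gs, eval (fun v => p j v.1 v.2) g ≠ 0 ∧ eval (fun v => q j v.1 v.2) g ≠ 0) →
  (∀ i j, (∀ t, cell (f t) (p i t) = cell (f t) (p j t)) → i = j) →
  Fintype.card ι ≤ KI * D * m ^ (Fintype.card τ * d - 1)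

/-- fibres of the nonconstant tuples -/
theorem fibA (hK : 1 ≤ K) (hD : 1 ≤ D) (hDL : D ≤ 2 ^ L) (hdeg : degSum gs ≤ D)
    (hnz : ∀ g ∈ gs, ∀ a, eval (tup x a) g ≠ 0) (I : Finset (Fin k)) (KI : ℕ)
    (hP : PQ d {i // i ∈ I} KI)
    (γ0 : ∀ i, Fin ((cd i).M)) :
    (((SA cd gs).filter (fun γ => comp cd γ = I)).filter
      (fun γ => ∀ i ∉ I, γ i = γ0 i)).card ≤ KI * D * (K * 2 ^ L) ^ (I.card * d - 1) := by
  set T := ((SA cd gs).filter (fun γ => comp cd γ = I)).filter (fun γ => ∀ i ∉ I, γ i = γ0 i)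
    with hT
  have hmem : ∀ γ : {γ // γ ∈ T}, (∃ a b : ∀ i, Fin (n i), (∀ i, (cd i).c (a i) = γ.1 i) ∧
      (∀ i, (cd i).c (b i) = γ.1 i) ∧ F cd gs a ≠ F cd gs b) ∧ (∀ i, isC cd γ.1 i ↔ i ∈ I) ∧
      ∀ i ∉ I, γ.1 i = γ0 i := by
    rintro ⟨γ, hγ⟩
    rw [hT, Finset.mem_filter, Finset.mem_filter, SA, Finset.mem_filter] at hγ
    refine ⟨hγ.1.1.2, fun i => ?_, hγ.2⟩
    rw [← hγ.1.2, comp, Finset.mem_filter]
    simp
  choose a b ha hb hab using fun γ => (hmem γ).1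
  have haI : ∀ γ, ∀ i ∉ I, a γ i = (cd i).rep (γ0 i) := by
    intro γ i hi
    rw [← (hmem γ).2.2 i hi]
    exact pointclass cd γ.1 i (fun h => hi (((hmem γ).2.1 i).1 h)) _ (ha γ i)
  have hbI : ∀ γ, ∀ i ∉ I, b γ i = (cd i).rep (γ0 i) := by
    intro γ i hi
    rw [← (hmem γ).2.2 i hi]
    exact pointclass cd γ.1 i (fun h => hi (((hmem γ).2.1 i).1 h)) _ (hb γ i)
  have hane : ∀ γ, ∀ t : {i // i ∈ I}, eval (P cd t (a γ t)) (cd t).f ≠ 0 := fun γ t =>
    compclass cd γ.1 t (((hmem γ).2.1 t).2 t.2) _ (ha γ t)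
  have h1 := hP (K * 2 ^ L) D hD
    (hDL.trans (Nat.le_mul_of_pos_left _ hK))
    (fun t => (cd t).f) (fun t => (cd t).deg) (gs.map (fun g => aeval (phi cd I γ0) g))
    ((degSum_map _ (phi_deg cd I γ0) gs).trans hdeg)
    {γ // γ ∈ T} (fun γ t => P cd t (a γ t)) (fun γ t => P cd t (b γ t)) hane
    (fun γ t => cellclass cd t _ _ (hane γ t) ((ha γ t).trans (hb γ t).symm))
    (fun γ => by
      rw [crosses_map, phi_eval cd I γ0 _ (haI γ), phi_eval cd I γ0 _ (hbI γ)]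
      exact (F_ne cd gs _ _).1 (hab γ))
    (fun γ g hg => by
      obtain ⟨g', hg', rfl⟩ := List.mem_map.1 hg
      rw [eval_aeval, eval_aeval, phi_eval cd I γ0 _ (haI γ), phi_eval cd I γ0 _ (hbI γ)]
      exact ⟨hnz g' hg' _, hnz g' hg' _⟩)
    (fun γ γ' h => by
      apply Subtype.ext
      funext i
      by_cases hi : i ∈ I
      · have h2 : P cd i (a γ' i) ∈ cell (cd i).f (P cd i (a γ i)) := by
          rw [h ⟨i, hi⟩]
          exact self_cell cd i _ (hane γ' ⟨i, hi⟩)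
        have h3 := (cd i).conv _ _ (hane γ ⟨i, hi⟩) h2
        exact (ha γ i).symm.trans (h3.trans (ha γ' i))
      · rw [(hmem γ).2.2 i hi, (hmem γ').2.2 i hi])
  rwa [Fintype.card_coe, Fintype.card_coe] at h1

theorem boundA (hd : 1 ≤ d) (hK : 1 ≤ K) (hD : 1 ≤ D) (hDL : D ≤ 2 ^ L) (hdeg : degSum gs ≤ D)
    (hnz : ∀ g ∈ gs, ∀ a, eval (tup x a) g ≠ 0) (I : Finset (Fin k)) (KI : ℕ)
    (hP : I.Nonempty → PQ d {i // i ∈ I} KI) :
    ((SA cd gs).filter (fun γ => comp cd γ = I)).card * 2 ^ L ≤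
      KI * K ^ (k * d + k) * D * ∏ i, min (n i) (2 ^ (d * L)) := by
  rcases Finset.eq_empty_or_nonempty ((SA cd gs).filter (fun γ => comp cd γ = I)) with h0 | h0
  · rw [h0]; simp
  obtain ⟨γ, hγ⟩ := h0
  rw [Finset.mem_filter, SA, Finset.mem_filter] at hγ
  obtain ⟨⟨_, a, b, ha, hb, hab⟩, hI⟩ := hγ
  have hisC : ∀ i, isC cd γ i ↔ i ∈ I := fun i => by
    rw [← hI, comp, Finset.mem_filter]; simp
  have hne : I.Nonempty := by
    by_contra hcon
    rw [Finset.not_nonempty_iff_eq_empty] at hcon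
    have hpt : ∀ a : ∀ i, Fin (n i), (∀ i, (cd i).c (a i) = γ i) →
        a = fun i => (cd i).rep (γ i) := fun a ha => by
      funext i
      exact pointclass cd γ i (fun h => by have := (hisC i).1 h; simp [hcon] at this) _ (ha i)
    exact hab (by rw [hpt a ha, hpt b hb])
  have h1 := card_fib ((SA cd gs).filter (fun γ => comp cd γ = I)) I _
    (fun γ0 _ => fibA cd gs hK hD hDL hdeg hnz I KI (hP hne) γ0)
  have hmm : ∀ i ∈ I, min (n i) (2 ^ (d * L)) = 2 ^ (d * L) := fun i hi =>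
    (cd i).big _ ((hisC i).2 hi)
  have h2 : ∏ i ∈ Iᶜ, (cd i).M ≤ K ^ (Iᶜ).card * ∏ i ∈ Iᶜ, min (n i) (2 ^ (d * L)) := by
    rw [← Finset.prod_const, ← Finset.prod_mul_distrib]
    exact Finset.prod_le_prod' fun i _ => (cd i).hM
  have hc : 1 ≤ I.card * d := Nat.mul_pos (Finset.card_pos.2 hne) hd
  have h3 : (K * 2 ^ L) ^ (I.card * d - 1) * 2 ^ L ≤
      K ^ (I.card * d) * ∏ i ∈ I, min (n i) (2 ^ (d * L)) := by
    calc (K * 2 ^ L) ^ (I.card * d - 1) * 2 ^ L
        ≤ (K * 2 ^ L) ^ (I.card * d - 1) * (K * 2 ^ L) :=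
          Nat.mul_le_mul_left _ (Nat.le_mul_of_pos_left _ hK)
      _ = (K * 2 ^ L) ^ (I.card * d) := by
          rw [← pow_succ, Nat.sub_add_cancel hc]
      _ = K ^ (I.card * d) * ∏ i ∈ I, min (n i) (2 ^ (d * L)) := by
          rw [Finset.prod_congr rfl hmm, Finset.prod_const, mul_pow, ← pow_mul, ← pow_mul]
          congr 2
          ring
  have hprod : ∏ i, min (n i) (2 ^ (d * L)) =
      (∏ i ∈ I, min (n i) (2 ^ (d * L))) * ∏ i ∈ Iᶜ, min (n i) (2 ^ (d * L)) :=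
    (Finset.prod_mul_prod_compl I _).symm
  have hcard : I.card * d + (Iᶜ).card ≤ k * d + k := by
    have e1 : I.card ≤ k := by simpa using Finset.card_le_univ I
    have e2 : (Iᶜ).card ≤ k := by simpa using Finset.card_le_univ (Iᶜ)
    have e3 : I.card * d ≤ k * d := Nat.mul_le_mul_right _ e1
    omega
  calc ((SA cd gs).filter (fun γ => comp cd γ = I)).card * 2 ^ L
      ≤ (KI * D * (K * 2 ^ L) ^ (I.card * d - 1) *
          (K ^ (Iᶜ).card * ∏ i ∈ Iᶜ, min (n i) (2 ^ (d * L)))) * 2 ^ L :=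
        Nat.mul_le_mul_right _ (h1.trans (Nat.mul_le_mul_left _ h2))
    _ = KI * D * ((K * 2 ^ L) ^ (I.card * d - 1) * 2 ^ L) *
          (K ^ (Iᶜ).card * ∏ i ∈ Iᶜ, min (n i) (2 ^ (d * L))) := by ring
    _ ≤ KI * D * (K ^ (I.card * d) * ∏ i ∈ I, min (n i) (2 ^ (d * L))) *
          (K ^ (Iᶜ).card * ∏ i ∈ Iᶜ, min (n i) (2 ^ (d * L))) :=
        Nat.mul_le_mul_right _ (Nat.mul_le_mul_left _ h3)
    _ = KI * K ^ (I.card * d + (Iᶜ).card) * D * ∏ i, min (n i) (2 ^ (d * L)) := by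
        rw [hprod, pow_add]; ring
    _ ≤ KI * K ^ (k * d + k) * D * ∏ i, min (n i) (2 ^ (d * L)) := by
        gcongr

/-- bad steps -/
noncomputable def SB (i : Fin k) : Finset (∀ i, Fin ((cd i).M)) :=
  univ.filter (fun γ => ∃ h : (γ i : ℕ) + 1 < (cd i).M,
    F cd gs (fun j => (cd j).rep (γ j)) ≠
      F cd gs (fun j => (cd j).rep (Function.update γ i ⟨γ i + 1, h⟩ j)))

/-- substitution of all but one coordinate -/
noncomputable def psi (i : Fin k) (γ0 : ∀ i, Fin ((cd i).M)) (v : Fin k × Fin d) :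
    MvPolynomial (Fin d) ℝ :=
  if v.1 = i then X v.2 else C (P cd v.1 ((cd v.1).rep (γ0 v.1)) v.2)

theorem psi_deg (i : Fin k) (γ0 : ∀ i, Fin ((cd i).M)) (v : Fin k × Fin d) :
    (psi cd i γ0 v).totalDegree ≤ 1 := by
  unfold psi
  split_ifs
  · rw [totalDegree_X]
  · rw [totalDegree_C]; exact Nat.zero_le _

theorem psi_eval (i : Fin k) (γ0 : ∀ i, Fin ((cd i).M)) (a : ∀ i, Fin (n i))
    (ha : ∀ j, j ≠ i → a j = (cd j).rep (γ0 j)) :
    (fun v => eval (P cd i (a i)) (psi cd i γ0 v)) = pt cd a := by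
  funext v
  rw [pt_apply]
  unfold psi
  split_ifs with h
  · rw [eval_X]
    subst h
    rfl
  · rw [eval_C, ha _ h]

theorem fibB (hdeg : degSum gs ≤ D)
    (hnz : ∀ g ∈ gs, ∀ a, eval (tup x a) g ≠ 0) (i : Fin k)
    (hi : min (n i) (2 ^ (d * L)) < n i) (γ0 : ∀ i, Fin ((cd i).M)) :
    ((SB cd gs i).filter (fun γ => ∀ j ∉ ({i} : Finset (Fin k)), γ j = γ0 j)).card ≤
      K * D * 2 ^ ((d - 1) * L) := by
  have h1 := (cd i).path hi (gs.map (fun g => aeval (psi cd i γ0) g))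
    ((degSum_map _ (psi_deg cd i γ0) gs).trans hdeg) (by
      intro g hg a
      obtain ⟨g', hg', rfl⟩ := List.mem_map.1 hg
      rw [eval_aeval]
      have h2 := psi_eval cd i γ0 (Function.update (fun j => (cd j).rep (γ0 j)) i ((cd i).e.symm a))
        (fun j hj => by rw [Function.update_of_ne hj])
      rw [Function.update_self] at h2
      have h3 : P cd i ((cd i).e.symm a) = x i a := by
        unfold P
        rw [Equiv.apply_symm_apply]
      rw [h3] at h2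
      rw [h2]
      exact hnz g' hg' _)
  refine le_trans ?_ h1
  apply Finset.card_le_card_of_injOn (fun γ => γ i)
  · intro γ hγ
    rw [Finset.mem_coe, Finset.mem_filter, SB, Finset.mem_filter] at hγ
    obtain ⟨⟨_, h, hne⟩, hγ0⟩ := hγ
    rw [Finset.mem_coe, Finset.mem_filter]
    refine ⟨Finset.mem_univ _, h, ?_⟩
    rw [F_ne] at hne
    rw [crosses_map]
    have e1 := psi_eval cd i γ0 (fun j => (cd j).rep (γ j))
      (fun j hj => by rw [hγ0 j (by simpa using hj)])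
    have e2 := psi_eval cd i γ0
      (fun j => (cd j).rep (Function.update γ i ⟨γ i + 1, h⟩ j))
      (fun j hj => by
        show (cd j).rep (Function.update γ i ⟨γ i + 1, h⟩ j) = _
        rw [Function.update_of_ne hj, hγ0 j (by simpa using hj)])
    rw [Function.update_self] at e2
    rw [← e1, ← e2] at hne
    exact hne
  · intro γ hγ γ' hγ' heq
    rw [Finset.mem_coe, Finset.mem_filter] at hγ hγ'
    funext j
    by_cases hj : j = i
    · subst hj; exact heq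
    · rw [hγ.2 j (by simpa using hj), hγ'.2 j (by simpa using hj)]

theorem boundB (hd : 1 ≤ d) (hdeg : degSum gs ≤ D)
    (hnz : ∀ g ∈ gs, ∀ a, eval (tup x a) g ≠ 0) (i : Fin k)
    (hi : min (n i) (2 ^ (d * L)) < n i) :
    (SB cd gs i).card * 2 ^ L ≤ K ^ k * D * ∏ i, min (n i) (2 ^ (d * L)) := by
  have h1 := card_fib (SB cd gs i) {i} _ (fun γ0 _ => fibB cd gs hdeg hnz i hi γ0)
  have h2 : ∏ j ∈ ({i} : Finset (Fin k))ᶜ, (cd j).M ≤
      K ^ (k - 1) * ∏ j ∈ ({i} : Finset (Fin k))ᶜ, min (n j) (2 ^ (d * L)) := by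
    have hc : (({i} : Finset (Fin k))ᶜ).card = k - 1 := by
      rw [Finset.card_compl, Finset.card_singleton, Fintype.card_fin]
    rw [← hc, ← Finset.prod_const, ← Finset.prod_mul_distrib]
    exact Finset.prod_le_prod' fun i _ => (cd i).hM
  have hk : 1 ≤ k := by
    have := i.2
    omega
  have hm : min (n i) (2 ^ (d * L)) = 2 ^ (d * L) := by
    rcases min_choice (n i) (2 ^ (d * L)) with h | h
    · rw [h] at hi; exact absurd hi (lt_irrefl _)
    · exact h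
  have h3 : 2 ^ ((d - 1) * L) * 2 ^ L = 2 ^ (d * L) := by
    rw [← pow_add]
    congr 1
    obtain ⟨d', rfl⟩ := Nat.exists_eq_add_of_le hd
    simp
    ring
  have hprod : ∏ i, min (n i) (2 ^ (d * L)) = 2 ^ (d * L) *
      ∏ j ∈ ({i} : Finset (Fin k))ᶜ, min (n j) (2 ^ (d * L)) := by
    rw [← Finset.prod_mul_prod_compl ({i} : Finset (Fin k)), Finset.prod_singleton, hm]
  calc (SB cd gs i).card * 2 ^ L
      ≤ (K * D * 2 ^ ((d - 1) * L) *
          (K ^ (k - 1) * ∏ j ∈ ({i} : Finset (Fin k))ᶜ, min (n j) (2 ^ (d * L)))) * 2 ^ L :=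
        Nat.mul_le_mul_right _ (h1.trans (Nat.mul_le_mul_left _ h2))
    _ = (K ^ (k - 1) * K) * D * ((2 ^ ((d - 1) * L) * 2 ^ L) *
          ∏ j ∈ ({i} : Finset (Fin k))ᶜ, min (n j) (2 ^ (d * L))) := by ring
    _ = K ^ k * D * ∏ i, min (n i) (2 ^ (d * L)) := by
        rw [h3, hprod, ← pow_succ, Nat.sub_add_cancel hk]

theorem SB_mem (i : Fin k) (γ : ∀ i, Fin ((cd i).M)) : γ ∈ SB cd gs i ↔
    ∃ h : (γ i : ℕ) + 1 < (cd i).M,
    F cd gs (fun j => (cd j).rep (γ j)) ≠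
      F cd gs (fun j => (cd j).rep (Function.update γ i ⟨γ i + 1, h⟩ j)) := by
  rw [SB, Finset.mem_filter]
  simp

theorem mainAux (hS : SegStmt) (hd : 1 ≤ d) (hK : 1 ≤ K) (hD : 1 ≤ D) (hDL : D ≤ 2 ^ L)
    (hn : ∀ i, 1 ≤ n i) (hdeg : degSum gs ≤ D)
    (hnz : ∀ g ∈ gs, ∀ a, eval (tup x a) g ≠ 0) (KI : Finset (Fin k) → ℕ)
    (hKI : ∀ I : Finset (Fin k), I.Nonempty → PQ d {i // i ∈ I} (KI I)) :
    (univ.filter (fun s : ∀ i, Fin (min (n i) (2 ^ (d * L))) => ∃ a b : ∀ i, Fin (n i),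
      (∀ i, (a i : ℕ) * min (n i) (2 ^ (d * L)) / n i = s i) ∧
      (∀ i, (b i : ℕ) * min (n i) (2 ^ (d * L)) / n i = s i) ∧
      Crosses gs (pt cd a) (pt cd b))).card * 2 ^ L ≤
      (2 ^ k * ((∑ I, KI I) * K ^ (k * d + k) + k * (k * K ^ k)) + 1) * D *
        ∏ i, min (n i) (2 ^ (d * L)) := by
  have hseg0 := hS k n (fun i => min (n i) (2 ^ (d * L))) (fun i => (cd i).M) Sg
    (fun i => ⟨le_min (hn i) Nat.one_le_two_pow, min_le_left _ _⟩) (fun i => (cd i).c)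
    (fun i => (cd i).mono) (fun i s => (cd i).fib s) (fun i => (cd i).rep)
    (fun i s => (cd i).hrep s) (F cd gs) (SA cd gs).card (∑ i ∈ univ.filter
      (fun i => min (n i) (2 ^ (d * L)) < n i), (SB cd gs i).card)
  have hseg1 := hseg0 (Finset.card_le_card fun γ hγ =>
    (SA_mem cd gs γ).2 (Finset.mem_filter.1 hγ).2)
  have hseg := hseg1 (fun i hi => le_trans (Finset.card_le_card fun γ hγ =>
      (SB_mem cd gs i γ).2 (Finset.mem_filter.1 hγ).2)
        (Finset.single_le_sum (f := fun i => (SB cd gs i).card)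
          (fun _ _ => Nat.zero_le _) (Finset.mem_filter.2 ⟨Finset.mem_univ i, hi⟩)))
  clear hseg0 hseg1
  have hA : (SA cd gs).card * 2 ^ L ≤
      (∑ I, KI I) * K ^ (k * d + k) * D * ∏ i, min (n i) (2 ^ (d * L)) := by
    have h1 : (SA cd gs).card = ∑ I, ((SA cd gs).filter (fun γ => comp cd γ = I)).card :=
      Finset.card_eq_sum_card_fiberwise (fun _ _ => by simp)
    rw [h1, Finset.sum_mul, Finset.sum_mul, Finset.sum_mul, Finset.sum_mul]
    exact Finset.sum_le_sum fun I _ => boundA cd gs hd hK hD hDL hdeg hnz I (KI I) (hKI I)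
  have hB : (∑ i ∈ univ.filter (fun i => min (n i) (2 ^ (d * L)) < n i), (SB cd gs i).card) *
      2 ^ L ≤ k * (K ^ k * D * ∏ i, min (n i) (2 ^ (d * L))) := by
    rw [Finset.sum_mul]
    refine (Finset.sum_le_card_nsmul _ _ (K ^ k * D * ∏ i, min (n i) (2 ^ (d * L)))
      fun i hi => ?_).trans ?_
    · exact boundB cd gs hd hdeg hnz i (Finset.mem_filter.1 hi).2
    · rw [smul_eq_mul]
      refine Nat.mul_le_mul_right _ ?_
      simpa using Finset.card_le_univ (univ.filter (fun i => min (n i) (2 ^ (d * L)) < n i))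
  have hseg' := le_trans (Finset.card_le_card (s := univ.filter
    (fun s : ∀ i, Fin (min (n i) (2 ^ (d * L))) => ∃ a b : ∀ i, Fin (n i),
      (∀ i, (a i : ℕ) * min (n i) (2 ^ (d * L)) / n i = s i) ∧
      (∀ i, (b i : ℕ) * min (n i) (2 ^ (d * L)) / n i = s i) ∧
      Crosses gs (pt cd a) (pt cd b))) fun s hs => by
        obtain ⟨a, b, h1, h2, h3⟩ := (Finset.mem_filter.1 hs).2
        exact Finset.mem_filter.2 ⟨Finset.mem_univ _, a, b, h1, h2, (F_ne cd gs a b).2 h3⟩) hseg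
  refine le_trans (Nat.mul_le_mul_right _ hseg') ?_
  clear hseg hseg'
  generalize (∑ i ∈ univ.filter (fun i => min (n i) (2 ^ (d * L)) < n i),
    (SB cd gs i).card) = NB at *
  generalize (SA cd gs).card = NA at *
  generalize ∏ i, min (n i) (2 ^ (d * L)) = PP at *
  generalize (∑ I, KI I) = SK at *
  calc 2 ^ k * (NA + k * NB) * 2 ^ L
      = 2 ^ k * (NA * 2 ^ L + k * (NB * 2 ^ L)) := by ring
    _ ≤ 2 ^ k * (SK * K ^ (k * d + k) * D * PP + k * (k * (K ^ k * D * PP))) := by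
        gcongr
    _ = (2 ^ k * (SK * K ^ (k * d + k) + k * (k * K ^ k))) * D * PP := by ring
    _ ≤ _ := by
        gcongr
        exact Nat.le_succ _

end

end M0

open M0 in
theorem main0 (hC : CellStmt) (hP : ProdStmt) (hS : SegStmt) : Main0Stmt := by
  intro d k hd _hk
  obtain ⟨K, hK, hcd⟩ := exCD hC d hd
  have hPI : ∀ I : Finset (Fin k), ∃ KI : ℕ, I.Nonempty → PQ d {i // i ∈ I} KI := by
    intro I
    by_cases hI : I.Nonempty
    · have : Nonempty {i // i ∈ I} := hI.to_subtype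
      obtain ⟨KI, h⟩ := hP d {i // i ∈ I} hd
      exact ⟨KI, fun _ => h⟩
    · exact ⟨0, fun h => absurd h hI⟩
  choose KI hKI using hPI
  refine ⟨2 ^ k * ((∑ I, KI I) * K ^ (k * d + k) + k * (k * K ^ k)) + 1, Nat.le_add_left _ _, ?_⟩
  intro n hn x hx L D hD hDL
  have hcd' := fun i => hcd (n i) (x i) (hx i) L D hD hDL
  refine ⟨fun i => (hcd' i).some.e, fun gs hdeg hnz => ?_⟩
  exact mainAux (fun i => (hcd' i).some) gs hS hd hK hD hDL hn hdeg hnz KI hKI

end Pool.Agent.R98.EQ
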