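import Pool.Agent.R98.EQ.Stm

/-!
Project EQ, piece B3 PART: partitioning polynomial for a generic family, from the polynomial
ham sandwich theorem.
-/

set_option autoImplicit false

namespace Pool.Agent.R98.EQ

open MvPolynomial Finset

open scoped Classical

namespace PartAux

theorem totalDegree_le_of_degreeOf {d : ℕ} {p : MvPolynomial (Fin d) ℝ} {a : ℕ}
    (h : ∀ i, degreeOf i p ≤ a) : p.totalDegree ≤ d * a := by
  unfold totalDegree
  apply Finset.sup_le
  intro m hm
  rw [Finsupp.sum_fintype _ _ (by simp)]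
  calc ∑ i, m i ≤ ∑ _i : Fin d, a :=
        Finset.sum_le_sum fun i _ => (monomial_le_degreeOf i hm).trans (h i)
    _ = d * a := by simp

theorem sign_eq_of_conn {X : Type*} [TopologicalSpace X] {s : Set X} (hs : IsPreconnected s)
    {g : X → ℝ} (hg : ContinuousOn g s) (h0 : ∀ y ∈ s, g y ≠ 0) {a b : X} (ha : a ∈ s)
    (hb : b ∈ s) : SignType.sign (g a) = SignType.sign (g b) := by
  rcases lt_or_gt_of_ne (h0 a ha) with h1 | h1 <;> rcases lt_or_gt_of_ne (h0 b hb) with h2 | h2
  · rw [sign_neg h1, sign_neg h2]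
  · exfalso
    obtain ⟨y, hy, hy0⟩ := hs.intermediate_value ha hb hg ⟨h1.le, h2.le⟩
    exact h0 y hy hy0
  · exfalso
    obtain ⟨y, hy, hy0⟩ := hs.intermediate_value hb ha hg ⟨h2.le, h1.le⟩
    exact h0 y hy hy0
  · rw [sign_pos h1, sign_pos h2]

theorem lt_pow (d j : ℕ) (hd : 1 ≤ d) : 2 ^ j < (2 ^ (j / d + 1)) ^ d := by
  rw [← pow_mul]
  apply Nat.pow_lt_pow_right (by norm_num)
  have h1 := Nat.div_add_mod j d
  have h2 := Nat.mod_lt j (show d > 0 by omega)
  calc j = d * (j / d) + j % d := h1.symm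
    _ < d * (j / d) + d := by omega
    _ = (j / d + 1) * d := by ring

theorem pow_le (d j : ℕ) : (2 ^ (j / d + 1)) ^ d ≤ 2 ^ (j + d) := by
  rw [← pow_mul]
  apply Nat.pow_le_pow_right (by norm_num)
  have h1 := Nat.div_mul_le_self j d
  calc (j / d + 1) * d = j / d * d + d := by ring
    _ ≤ j + d := by omega

theorem ind (hH : HamStmt) (d : ℕ) (hd : 1 ≤ d) {ι : Type} [Fintype ι] (x : ι → Fin d → ℝ)
    (hx : Generic d x) (J : ℕ) :
    ∃ (κ : Type) (_ : Fintype κ) (P : List (MvPolynomial (Fin d) ℝ)) (A : κ → Finset ι),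
      Fintype.card κ = 2 ^ J ∧ (∀ k, (A k).card * 2 ^ J ≤ Fintype.card ι) ∧
      (∀ i, (∀ p ∈ P, eval (x i) p ≠ 0) → ∃ k, ∀ j,
        (∀ p ∈ P, SignType.sign (eval (x j) p) = SignType.sign (eval (x i) p)) → j ∈ A k) ∧
      (∀ p ∈ P, p ≠ 0) ∧
      (P.map totalDegree).sum ≤ ∑ j ∈ range J, d * 2 ^ (j / d + 1) ∧
      (univ.filter (fun i => ∃ p ∈ P, eval (x i) p = 0)).card ≤ ∑ j ∈ range J, 2 ^ (j + d) := by
  induction J with
  | zero =>
    refine ⟨Unit, inferInstance, [], fun _ => univ, ?_, ?_, ?_, ?_, ?_, ?_⟩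
    · simp
    · intro k
      simp
    · intro i _
      exact ⟨(), fun j _ => Finset.mem_univ j⟩
    · intro p hp
      simp at hp
    · simp
    · simp
  | succ J ih =>
    obtain ⟨κ, _, P, A, hκ, hA, hcl, hP0, hdeg, hzer⟩ := ih
    obtain ⟨q, hq0, hqd, hq⟩ := hH d (2 ^ (J / d + 1) - 1) (Fintype.card κ) (by
      rw [hκ, Nat.sub_add_cancel (Nat.one_le_two_pow)]
      exact lt_pow d J hd) (fun k => (A ((Fintype.equivFin κ).symm k)).image x)
    have hhalf : ∀ k : κ, 2 * ((A k).filter (fun i => 0 < eval (x i) q)).card ≤ (A k).card ∧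
        2 * ((A k).filter (fun i => eval (x i) q < 0)).card ≤ (A k).card := by
      intro k
      have h1 := hq (Fintype.equivFin κ k)
      rw [Equiv.symm_apply_apply, Finset.card_image_of_injective _ hx.1,
        Finset.filter_image, Finset.filter_image, Finset.card_image_of_injective _ hx.1,
        Finset.card_image_of_injective _ hx.1] at h1
      exact h1
    refine ⟨κ × Bool, inferInstance, q :: P,
      fun k => if k.2 then (A k.1).filter (fun i => 0 < eval (x i) q)
        else (A k.1).filter (fun i => eval (x i) q < 0), ?_, ?_, ?_, ?_, ?_, ?_⟩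
    · rw [Fintype.card_prod, hκ, Fintype.card_bool, pow_succ]
    · rintro ⟨k, b⟩
      have h1 := hA k
      obtain ⟨h2, h3⟩ := hhalf k
      have h4 : 2 ^ (J + 1) = 2 * 2 ^ J := by ring
      rw [h4]
      cases b
      · simp only [Bool.false_eq_true, if_false]
        calc ((A k).filter (fun i => eval (x i) q < 0)).card * (2 * 2 ^ J)
            = (2 * ((A k).filter (fun i => eval (x i) q < 0)).card) * 2 ^ J := by ring
          _ ≤ (A k).card * 2 ^ J := Nat.mul_le_mul_right _ h3
          _ ≤ Fintype.card ι := h1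
      · simp only [if_true]
        calc ((A k).filter (fun i => 0 < eval (x i) q)).card * (2 * 2 ^ J)
            = (2 * ((A k).filter (fun i => 0 < eval (x i) q)).card) * 2 ^ J := by ring
          _ ≤ (A k).card * 2 ^ J := Nat.mul_le_mul_right _ h2
          _ ≤ Fintype.card ι := h1
    · intro i hi
      obtain ⟨k, hk⟩ := hcl i fun p hp => hi p (List.mem_cons_of_mem _ hp)
      have hqi := hi q List.mem_cons_self
      rcases lt_or_gt_of_ne hqi with h1 | h1
      · refine ⟨(k, false), fun j hj => ?_⟩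
        simp only [Bool.false_eq_true, if_false, Finset.mem_filter]
        refine ⟨hk j fun p hp => hj p (List.mem_cons_of_mem _ hp), ?_⟩
        have h2 := hj q List.mem_cons_self
        rw [sign_neg h1, sign_eq_neg_one_iff] at h2
        exact h2
      · refine ⟨(k, true), fun j hj => ?_⟩
        simp only [if_true, Finset.mem_filter]
        refine ⟨hk j fun p hp => hj p (List.mem_cons_of_mem _ hp), ?_⟩
        have h2 := hj q List.mem_cons_self
        rw [sign_pos h1, sign_eq_one_iff] at h2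
        exact h2
    · intro p hp
      rcases List.mem_cons.1 hp with rfl | hp
      · exact hq0
      · exact hP0 p hp
    · rw [List.map_cons, List.sum_cons, Finset.sum_range_succ]
      have h1 := totalDegree_le_of_degreeOf hqd
      have h2 : d * (2 ^ (J / d + 1) - 1) ≤ d * 2 ^ (J / d + 1) :=
        Nat.mul_le_mul_left _ (Nat.sub_le _ _)
      omega
    · rw [Finset.sum_range_succ]
      have h1 := hx.2 (2 ^ (J / d + 1) - 1) q hq0 hqd
      rw [Nat.sub_add_cancel (Nat.one_le_two_pow)] at h1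
      have h2 := pow_le d J
      have h3 : (univ.filter (fun i => ∃ p ∈ q :: P, eval (x i) p = 0)) ⊆
          (univ.filter (fun i => ∃ p ∈ P, eval (x i) p = 0)) ∪
            univ.filter (fun i => eval (x i) q = 0) := by
        intro i hi
        rw [Finset.mem_filter] at hi
        obtain ⟨-, p, hp, hp0⟩ := hi
        rw [Finset.mem_union, Finset.mem_filter, Finset.mem_filter]
        rcases List.mem_cons.1 hp with rfl | hp
        · exact Or.inr ⟨Finset.mem_univ _, hp0⟩
        · exact Or.inl ⟨Finset.mem_univ _, p, hp, hp0⟩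
      have h4 := (Finset.card_le_card h3).trans (Finset.card_union_le _ _)
      omega

theorem sum_deg (d L : ℕ) : ∑ j ∈ range (d * L), 2 ^ (j / d + 1) ≤ 2 * d * 2 ^ L := by
  rcases Nat.eq_zero_or_pos d with rfl | hd
  · simp
  have h : ∑ j ∈ range (d * L), 2 ^ (j / d + 1) + 2 * d = 2 * d * 2 ^ L := by
    induction L with
    | zero => simp
    | succ L ih =>
      rw [Nat.mul_succ, Finset.sum_range_add]
      have h1 : ∑ y ∈ range d, 2 ^ ((d * L + y) / d + 1) = d * 2 ^ (L + 1) := by
        rw [Finset.sum_congr rfl (g := fun _ => 2 ^ (L + 1))]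
        · simp
        · intro y hy
          rw [Finset.mem_range] at hy
          rw [Nat.mul_add_div hd, Nat.div_eq_of_lt hy, add_zero]
      rw [h1]
      have h2 : 2 * d * 2 ^ (L + 1) = 2 * d * 2 ^ L + d * 2 ^ (L + 1) := by
        rw [pow_succ]
        ring
      omega
  omega

theorem sum_zer (d N : ℕ) : ∑ j ∈ range N, 2 ^ (j + d) ≤ 2 ^ d * 2 ^ N := by
  have h : ∑ j ∈ range N, 2 ^ (j + d) + 2 ^ d = 2 ^ d * 2 ^ N := by
    induction N with
    | zero => simp
    | succ N ih =>
      rw [Finset.sum_range_succ]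
      have h1 : 2 ^ (N + d) = 2 ^ d * 2 ^ N := by rw [pow_add]; ring
      have h2 : 2 ^ d * 2 ^ (N + 1) = 2 * (2 ^ d * 2 ^ N) := by rw [pow_succ]; ring
      omega
  exact (Nat.le_add_right _ _).trans h.le

end PartAux

open PartAux in
/-- B3 PART. -/
theorem part (hH : HamStmt) : PartStmt := by
  intro d hd
  refine ⟨2 * d * d + 2 ^ d, ?_⟩
  intro ι _ x hx L
  obtain ⟨κ, _, P, A, -, hA, hcl, hP0, hdeg, hzer⟩ := ind hH d hd x hx (d * L)
  have hev : ∀ y : Fin d → ℝ, eval y P.prod = 0 ↔ ∃ p ∈ P, eval y p = 0 := by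
    intro y
    rw [map_list_prod, List.prod_eq_zero_iff, List.mem_map]
  refine ⟨P.prod, ?_, ?_, ?_, ?_⟩
  · intro h
    rw [List.prod_eq_zero_iff] at h
    exact hP0 0 h rfl
  · refine (totalDegree_list_prod P).trans (hdeg.trans ?_)
    rw [← Finset.mul_sum]
    calc d * ∑ j ∈ range (d * L), 2 ^ (j / d + 1) ≤ d * (2 * d * 2 ^ L) :=
          Nat.mul_le_mul_left _ (sum_deg d L)
      _ = 2 * d * d * 2 ^ L := by ring
      _ ≤ (2 * d * d + 2 ^ d) * 2 ^ L := Nat.mul_le_mul_right _ (Nat.le_add_right _ _)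
  · have h1 : (univ.filter (fun i => eval (x i) P.prod = 0)) =
        univ.filter (fun i => ∃ p ∈ P, eval (x i) p = 0) :=
      Finset.filter_congr fun i _ => hev (x i)
    rw [h1]
    calc (univ.filter (fun i => ∃ p ∈ P, eval (x i) p = 0)).card
        ≤ ∑ j ∈ range (d * L), 2 ^ (j + d) := hzer
      _ ≤ 2 ^ d * 2 ^ (d * L) := sum_zer d (d * L)
      _ ≤ (2 * d * d + 2 ^ d) * 2 ^ (d * L) := Nat.mul_le_mul_right _ (Nat.le_add_left _ _)
  · intro i hi
    have hi' : ∀ p ∈ P, eval (x i) p ≠ 0 := by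
      intro p hp h0
      exact hi ((hev (x i)).2 ⟨p, hp, h0⟩)
    obtain ⟨k, hk⟩ := hcl i hi'
    refine le_trans (Nat.mul_le_mul_right _ (Finset.card_le_card ?_)) (hA k)
    intro j hj
    rw [Finset.mem_filter] at hj
    apply hk j
    intro p hp
    have hcell : cell P.prod (x i) ⊆ {y | eval y P.prod ≠ 0} :=
      connectedComponentIn_subset _ _
    refine (sign_eq_of_conn (s := cell P.prod (x i)) (g := fun y => eval y p)
      isPreconnected_connectedComponentIn (MvPolynomial.continuous_eval p).continuousOn ?_ ?_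
      hj.2).symm
    · intro y hy h0
      exact hcell hy ((hev y).2 ⟨p, hp, h0⟩)
    · exact mem_connectedComponentIn hi

end Pool.Agent.R98.EQ
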