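import Pool.Agent.R98.EQ.Stm

/-!
# Project EQ, piece C5: the path lemma in dimension one
-/

set_option autoImplicit false

namespace Pool.Agent.R98.EQ

open MvPolynomial Finset

open scoped Classical

namespace P1

/-- the univariate polynomial -/
noncomputable def uni (g : MvPolynomial (Fin 1) ℝ) : Polynomial ℝ :=
  aeval (fun _ : Fin 1 => (Polynomial.X : Polynomial ℝ)) g

theorem uni_eval (g : MvPolynomial (Fin 1) ℝ) (x : Fin 1 → ℝ) :
    (uni g).eval (x 0) = eval x g := by
  have hx : x = fun _ => x 0 := by
    funext i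
    rw [Subsingleton.elim i 0]
  unfold uni
  induction g using MvPolynomial.induction_on with
  | C a => simp
  | add p q hp hq => simp only [map_add, Polynomial.eval_add, hp, hq]
  | mul_X p i hp =>
    simp only [map_mul, Polynomial.eval_mul, hp, aeval_X, Polynomial.eval_X, eval_X]
    rw [Subsingleton.elim i 0]

theorem uni_natDegree (g : MvPolynomial (Fin 1) ℝ) : (uni g).natDegree ≤ g.totalDegree := by
  have := MvPolynomial.aeval_natDegree_le g le_rfl (fun _ : Fin 1 => (Polynomial.X : Polynomial ℝ))
    (n := 1) (fun i => Polynomial.natDegree_X_le)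
  simpa [uni] using this

/-- a sign change gives a root -/
theorem root_between (p : Polynomial ℝ) (a b : ℝ) (hab : a < b) (ha : p.eval a ≠ 0)
    (hb : p.eval b ≠ 0) (hs : SignType.sign (p.eval a) ≠ SignType.sign (p.eval b)) :
    ∃ r ∈ Set.Ioo a b, p.eval r = 0 := by
  have hc : ContinuousOn (fun t => p.eval t) (Set.Icc a b) := p.continuous.continuousOn
  rcases lt_or_gt_of_ne ha with h1 | h1
  · rcases lt_or_gt_of_ne hb with h2 | h2
    · exact absurd (by rw [sign_neg h1, sign_neg h2]) hs
    · obtain ⟨r, hr, he⟩ := intermediate_value_Ioo hab.le hc ⟨h1, h2⟩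
      exact ⟨r, hr, he⟩
  · rcases lt_or_gt_of_ne hb with h2 | h2
    · obtain ⟨r, hr, he⟩ := intermediate_value_Ioo' hab.le hc ⟨h2, h1⟩
      exact ⟨r, hr, he⟩
    · exact absurd (by rw [sign_pos h1, sign_pos h2]) hs

/-- number of sign changes of one polynomial along an increasing sequence -/
theorem changes_le (N : ℕ) (z : Fin N → Fin 1 → ℝ) (hz : StrictMono (fun i => z i 0))
    (g : MvPolynomial (Fin 1) ℝ) (hg : ∀ i, eval (z i) g ≠ 0) :
    (univ.filter (fun i : Fin N => ∃ h : (i : ℕ) + 1 < N,
      SignType.sign (eval (z i) g) ≠ SignType.sign (eval (z ⟨i + 1, h⟩) g))).card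
      ≤ g.totalDegree := by
  set F := univ.filter (fun i : Fin N => ∃ h : (i : ℕ) + 1 < N,
      SignType.sign (eval (z i) g) ≠ SignType.sign (eval (z ⟨i + 1, h⟩) g)) with hF
  rcases F.eq_empty_or_nonempty with he | ⟨i₀, hi₀⟩
  · rw [he]
    simp
  have hp0 : uni g ≠ 0 := by
    intro h0
    have := uni_eval g (z i₀)
    rw [h0, Polynomial.eval_zero] at this
    exact hg i₀ this.symm
  have hroot : ∀ i ∈ F, ∃ r : ℝ, (uni g).eval r = 0 ∧ z i 0 < r ∧
      ∀ j : Fin N, i < j → r < z j 0 := by
    intro i hi
    rw [hF, Finset.mem_filter] at hi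
    obtain ⟨-, h, hs⟩ := hi
    have hlt : z i 0 < z ⟨i + 1, h⟩ 0 := hz (by
      rw [Fin.lt_def]
      simp)
    obtain ⟨r, hr, he⟩ := root_between (uni g) (z i 0) (z ⟨i + 1, h⟩ 0) hlt
      (by rw [uni_eval]; exact hg _) (by rw [uni_eval]; exact hg _)
      (by rw [uni_eval, uni_eval]; exact hs)
    refine ⟨r, he, hr.1, fun j hj => hr.2.trans_le ?_⟩
    exact hz.monotone (by
      rw [Fin.le_def]
      simpa using hj)
  choose! r hr1 hr2 hr3 using hroot
  have hcard : F.card ≤ (uni g).roots.toFinset.card := by
    refine Finset.card_le_card_of_injOn r ?_ ?_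
    · intro i hi
      have := hr1 i hi
      simp only [Finset.mem_coe, Multiset.mem_toFinset]
      exact (Polynomial.mem_roots hp0).2 this
    · intro i hi j hj e
      rcases lt_trichotomy i j with h | h | h
      · have h1 := hr3 i hi j h
        have h2 := hr2 j hj
        rw [e] at h1
        linarith
      · exact h
      · have h1 := hr3 j hj i h
        have h2 := hr2 i hi
        rw [← e] at h1
        linarith
  exact hcard.trans ((Multiset.toFinset_card_le _).trans
    ((Polynomial.card_roots' _).trans (uni_natDegree g)))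

end P1

/-- C5 -/
theorem path1 : PathIn 1 := by
  intro C1
  refine ⟨1, ?_⟩
  intro ι _ x hx L D hD hDL hcard
  have hinj : Function.Injective (fun i => x i 0) := by
    intro i j h
    apply hx.1
    funext k
    rw [Subsingleton.elim k 0]
    exact h
  obtain ⟨e, he⟩ : ∃ e : Fin (Fintype.card ι) ≃ ι, StrictMono (fun i => x (e i) 0) := by
    letI : LinearOrder ι := LinearOrder.lift' (fun i => x i 0) hinj
    refine ⟨(Fintype.orderIsoFinOfCardEq ι rfl).toEquiv, ?_⟩
    intro i j hij
    exact (Fintype.orderIsoFinOfCardEq ι rfl).strictMono hij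
  refine ⟨e, ?_⟩
  intro gs hgs hnz
  have key : ∀ l : List (MvPolynomial (Fin 1) ℝ), (∀ g ∈ l, ∀ i, eval (x i) g ≠ 0) →
      (univ.filter (fun i : Fin (Fintype.card ι) => ∃ h : (i : ℕ) + 1 < Fintype.card ι,
      Crosses l (x (e i)) (x (e ⟨i + 1, h⟩)))).card ≤ degSum l := by
    intro l
    induction l with
    | nil =>
      intro _
      have : (univ.filter (fun i : Fin (Fintype.card ι) => ∃ h : (i : ℕ) + 1 < Fintype.card ι,
        Crosses [] (x (e i)) (x (e ⟨i + 1, h⟩)))) = ∅ := by
        rw [Finset.filter_eq_empty_iff]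
        rintro i - ⟨_, g, hg, _⟩
        exact absurd hg (by simp)
      rw [this]
      simp
    | cons g l ih =>
      intro hl
      have h1 := P1.changes_le (Fintype.card ι) (fun i => x (e i)) he g
        (fun i => hl g (by simp) _)
      have h2 := ih (fun g' hg' => hl g' (by simp [hg']))
      have h3 : degSum (g :: l) = g.totalDegree + degSum l := by simp [degSum]
      rw [h3]
      refine le_trans (Finset.card_le_card ?_) ((Finset.card_union_le _ _).trans
        (Nat.add_le_add h1 h2))
      intro i hi
      rw [Finset.mem_filter] at hi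
      obtain ⟨-, h, g', hg', hs⟩ := hi
      rw [Finset.mem_union, Finset.mem_filter, Finset.mem_filter]
      rcases List.mem_cons.1 hg' with h4 | h4
      · left
        subst h4
        exact ⟨Finset.mem_univ _, h, hs⟩
      · right
        exact ⟨Finset.mem_univ _, h, g', h4, hs⟩
  have h1 := (key gs hnz).trans hgs
  refine h1.trans ?_
  rw [one_mul]
  exact Nat.le_mul_of_pos_right _ (by positivity)

end Pool.Agent.R98.EQ
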