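import Pool.Agent.R98.EQ.Stm

/-!
Project EQ, piece C4 PATH2.
-/

set_option autoImplicit false

namespace Pool.Agent.R98.EQ

open MvPolynomial Finset

open scoped Classical

namespace Path2Aux

lemma generic_sub {d : ℕ} {ι κ : Type} [Fintype ι] [Fintype κ] {x : ι → Fin d → ℝ}
    (hx : Generic d x) (g : κ → ι) (hg : Function.Injective g) : Generic d (fun k => x (g k)) := by
  refine ⟨fun a b hab => hg (hx.1 hab), ?_⟩
  intro a p hp hd
  refine lt_of_le_of_lt ?_ (hx.2 a p hp hd)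
  apply Finset.card_le_card_of_injOn g
  · intro k hk
    simp only [coe_filter, mem_univ, true_and, Set.mem_setOf_eq] at hk ⊢
    exact hk
  · exact hg.injOn

lemma crosses_symm {σ : Type} {gs : List (MvPolynomial σ ℝ)} {x y : σ → ℝ}
    (h : Crosses gs x y) : Crosses gs y x := by
  obtain ⟨g, hg, h1⟩ := h
  exact ⟨g, hg, fun h2 => h1 h2.symm⟩

end Path2Aux

open Path2Aux

/-- C4 PATH2 -/
theorem path2 (hC : CloseStmt) (hW : WelzlStmt) (hN : CountStmt) : ∀ d, 2 ≤ d → PathIn d := by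
  intro d hd C1
  obtain ⟨Kc, hKc1, hKc⟩ := hC d (by omega)
  obtain ⟨Kn, hKn⟩ := hN d C1 hd
  obtain ⟨K', hK'⟩ := hW d Kc hd hKc1
  refine ⟨K' * (Kn + 2 ^ ((d - 1) * C1) + 1), ?_⟩
  intro ι _ x hx L D hD hDL hcard
  let R : Set (ι → ι → Prop) := {r : ι → ι → Prop | ∃ gs : List (MvPolynomial (Fin d) ℝ),
    degSum gs ≤ D ∧ (∀ g ∈ gs, ∀ i, eval (x i) g ≠ 0) ∧ ∀ i j, r i j ↔ Crosses gs (x i) (x j)}
  haveI : Fintype R := Fintype.ofFinite _
  have hRc : Fintype.card R ≤ 2 ^ (Kn * D * 2 ^ ((d - 1) * L)) := by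
    have h1 := hKn ι x L D hD hDL hcard
    rw [← Nat.card_coe_set_eq] at h1
    rw [← Nat.card_eq_fintype_card]
    exact h1
  let gsOf : R → List (MvPolynomial (Fin d) ℝ) := fun r => r.2.choose
  have hgs : ∀ r : R, degSum (gsOf r) ≤ D ∧ (∀ g ∈ gsOf r, ∀ i, eval (x i) g ≠ 0) ∧
      ∀ i j, r.1 i j ↔ Crosses (gsOf r) (x i) (x j) := fun r => r.2.choose_spec
  have hcard1 : Fintype.card ι ≤ Kc * 2 ^ (d * (L + C1)) := by
    refine hcard.trans ?_
    have h1 : C1 ≤ 2 ^ (d * C1) := by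
      have h2 : C1 < 2 ^ C1 := Nat.lt_two_pow_self
      have h3 : 2 ^ C1 ≤ 2 ^ (d * C1) := Nat.pow_le_pow_right (by norm_num)
        (Nat.le_mul_of_pos_left _ (by omega))
      omega
    calc C1 * 2 ^ (d * L) ≤ 2 ^ (d * C1) * 2 ^ (d * L) := Nat.mul_le_mul_right _ h1
      _ = 2 ^ (d * (L + C1)) := by rw [← pow_add]; congr 1; ring
      _ ≤ Kc * 2 ^ (d * (L + C1)) := Nat.le_mul_of_pos_left _ hKc1
  obtain ⟨e, he⟩ := hK' D (L + C1) hD ι R (fun r i j => r.1 i j)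
    (by
      intro r i j h
      rw [(hgs r).2.2] at h ⊢
      exact crosses_symm h)
    (by
      intro L' hL' Y hY w hw
      have h1 := hKc (↥Y) (fun y => x y.1) (generic_sub hx (fun y : ↥Y => y.1)
        Subtype.val_injective) L' D hD hL' (by rw [Fintype.card_coe]; exact hY) R w gsOf hw
        (fun r => (hgs r).1) (fun r g hg i => (hgs r).2.1 g hg i.1)
      obtain ⟨i, j, hij, h2⟩ := h1
      refine ⟨i.1, i.2, j.1, j.2, fun h => hij (Subtype.ext h), ?_⟩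
      have h3 : (univ.filter (fun r : R => r.1 i.1 j.1)) =
          univ.filter (fun r : R => Crosses (gsOf r) (x i.1) (x j.1)) := by
        apply Finset.filter_congr
        intro r _
        exact (hgs r).2.2 i.1 j.1
      rw [h3]
      exact h2)
    hcard1
  refine ⟨e, ?_⟩
  intro gs hdeg hnv
  have h1 := he ⟨fun i j => Crosses gs (x i) (x j), gs, hdeg, hnv, fun _ _ => Iff.rfl⟩
  refine le_trans h1 ?_
  have hlog : Nat.log 2 (Fintype.card R) ≤ Kn * D * 2 ^ ((d - 1) * L) := by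
    have h2 := Nat.log_mono_right (b := 2) hRc
    rwa [Nat.log_pow (by norm_num)] at h2
  have hD1 : D * 2 ^ ((d - 1) * (L + C1)) = 2 ^ ((d - 1) * C1) * (D * 2 ^ ((d - 1) * L)) := by
    rw [Nat.mul_add (d - 1) L C1, pow_add]
    ring
  have hD2 : D ^ d ≤ D * 2 ^ ((d - 1) * L) := by
    obtain ⟨s, rfl⟩ : ∃ s, d = s + 1 := ⟨d - 1, by omega⟩
    rw [pow_succ, Nat.mul_comm, Nat.add_sub_cancel]
    apply Nat.mul_le_mul_left
    rw [Nat.mul_comm s L, pow_mul]
    exact Nat.pow_le_pow_left hDL s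
  rw [hD1]
  calc K' * (Nat.log 2 (Fintype.card R) + 2 ^ ((d - 1) * C1) * (D * 2 ^ ((d - 1) * L)) + D ^ d)
      ≤ K' * (Kn * D * 2 ^ ((d - 1) * L) + 2 ^ ((d - 1) * C1) * (D * 2 ^ ((d - 1) * L)) +
        D * 2 ^ ((d - 1) * L)) := by
        apply Nat.mul_le_mul_left
        exact Nat.add_le_add (Nat.add_le_add_right hlog _) hD2
    _ = K' * (Kn + 2 ^ ((d - 1) * C1) + 1) * D * 2 ^ ((d - 1) * L) := by ring

end Pool.Agent.R98.EQ
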