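import Pool.Agent.R98.EQ.Stm

set_option autoImplicit false

namespace Pool.Agent.R98.EQ

open MvPolynomial Finset

open scoped Classical

namespace ProdAux

/-- Flattening. -/
def flat {τ : Type} {d : ℕ} (x : τ → Fin d → ℝ) : τ × Fin d → ℝ := fun v => x v.1 v.2

/-- Projection. -/
def proj {τ : Type} {d : ℕ} (t : τ) (z : τ × Fin d → ℝ) : Fin d → ℝ := fun i => z (t, i)

theorem flat_cont {τ : Type} {d : ℕ} : Continuous (flat : (τ → Fin d → ℝ) → (τ × Fin d → ℝ)) := by
  unfold flat
  fun_prop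

theorem proj_cont {τ : Type} {d : ℕ} (t : τ) :
    Continuous (proj t : (τ × Fin d → ℝ) → (Fin d → ℝ)) := by
  unfold proj
  fun_prop

theorem proj_flat {τ : Type} {d : ℕ} (t : τ) (x : τ → Fin d → ℝ) : proj t (flat x) = x t := rfl

/-- The product polynomial. -/
noncomputable def FF {τ : Type} [Fintype τ] {d : ℕ} (f : τ → MvPolynomial (Fin d) ℝ) :
    MvPolynomial (τ × Fin d) ℝ := ∏ t, rename (fun i => (t, i)) (f t)

theorem eval_FF {τ : Type} [Fintype τ] {d : ℕ} (f : τ → MvPolynomial (Fin d) ℝ)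
    (z : τ × Fin d → ℝ) : eval z (FF f) = ∏ t, eval (proj t z) (f t) := by
  unfold FF
  rw [map_prod]
  refine Finset.prod_congr rfl (fun t _ => ?_)
  rw [eval_rename]
  rfl

theorem eval_FF_ne {τ : Type} [Fintype τ] {d : ℕ} (f : τ → MvPolynomial (Fin d) ℝ)
    (z : τ × Fin d → ℝ) : eval z (FF f) ≠ 0 ↔ ∀ t, eval (proj t z) (f t) ≠ 0 := by
  rw [eval_FF, Finset.prod_ne_zero_iff]
  simp

theorem deg_FF {τ : Type} [Fintype τ] {d m : ℕ} (f : τ → MvPolynomial (Fin d) ℝ)
    (hf : ∀ t, (f t).totalDegree ≤ m) : (FF f).totalDegree ≤ Fintype.card τ * m := by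
  unfold FF
  refine (totalDegree_finsetProd _ _).trans ?_
  have h : ∑ t : τ, (rename (fun i => (t, i)) (f t) : MvPolynomial (τ × Fin d) ℝ).totalDegree ≤
      ∑ _t : τ, m := Finset.sum_le_sum (fun t _ => (totalDegree_rename_le _ _).trans (hf t))
  refine h.trans ?_
  simp

theorem mem_cell_FF {τ : Type} [Fintype τ] {d : ℕ} (f : τ → MvPolynomial (Fin d) ℝ)
    (p q : τ → Fin d → ℝ) (hp : ∀ t, eval (p t) (f t) ≠ 0) (hq : ∀ t, q t ∈ cell (f t) (p t)) :
    flat q ∈ cell (FF f) (flat p) := by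
  have h1 : IsPreconnected (flat '' (Set.univ.pi (fun t => cell (f t) (p t)))) :=
    (isPreconnected_univ_pi (fun t => isPreconnected_connectedComponentIn)).image _
      flat_cont.continuousOn
  have h2 : flat p ∈ flat '' (Set.univ.pi (fun t => cell (f t) (p t))) := by
    refine ⟨p, fun t _ => ?_, rfl⟩
    exact mem_connectedComponentIn (hp t)
  have h3 : flat '' (Set.univ.pi (fun t => cell (f t) (p t))) ⊆ {y | eval y (FF f) ≠ 0} := by
    rintro _ ⟨x, hx, rfl⟩
    show eval (flat x) (FF f) ≠ 0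
    rw [eval_FF_ne]
    intro t
    have h4 : x t ∈ cell (f t) (p t) := hx t (Set.mem_univ t)
    exact connectedComponentIn_subset _ _ h4
  exact h1.subset_connectedComponentIn h2 h3 ⟨q, fun t _ => hq t, rfl⟩

theorem cell_eq_of {τ : Type} [Fintype τ] {d : ℕ} (f : τ → MvPolynomial (Fin d) ℝ)
    (p q : τ → Fin d → ℝ) (hp : ∀ t, eval (p t) (f t) ≠ 0) (hq : ∀ t, eval (q t) (f t) ≠ 0)
    (h : cell (FF f) (flat p) = cell (FF f) (flat q)) (t : τ) :
    cell (f t) (p t) = cell (f t) (q t) := by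
  have hq' : flat q ∈ cell (FF f) (flat p) := by
    rw [h]
    refine mem_connectedComponentIn ?_
    show eval (flat q) (FF f) ≠ 0
    rw [eval_FF_ne]
    exact hq
  have hp' : flat p ∈ cell (FF f) (flat p) := by
    refine mem_connectedComponentIn ?_
    show eval (flat p) (FF f) ≠ 0
    rw [eval_FF_ne]
    exact hp
  have h1 : IsPreconnected (proj t '' (cell (FF f) (flat p))) :=
    isPreconnected_connectedComponentIn.image _ (proj_cont t).continuousOn
  have h3 : proj t '' (cell (FF f) (flat p)) ⊆ {y | eval y (f t) ≠ 0} := by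
    rintro _ ⟨x, hx, rfl⟩
    have h4 : eval x (FF f) ≠ 0 := connectedComponentIn_subset _ _ hx
    rw [eval_FF_ne] at h4
    exact h4 t
  have h5 : q t ∈ cell (f t) (p t) :=
    h1.subset_connectedComponentIn ⟨flat p, hp', rfl⟩ h3 ⟨flat q, hq', rfl⟩
  exact connectedComponentIn_eq h5

theorem eval_const_of_deg {σ : Type} (g : MvPolynomial σ ℝ) (h : g.totalDegree = 0)
    (x y : σ → ℝ) : eval x g = eval y g := by
  rw [totalDegree_eq_zero_iff_eq_C.mp h]
  simp

/-- Main counting for one polynomial in one direction. -/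
theorem count_one {τ : Type} [Fintype τ] [Nonempty τ] {d : ℕ} (hd : 1 ≤ d) (K : ℕ)
    (hK : ∀ (f g : MvPolynomial (τ × Fin d) ℝ) (m D : ℕ), 1 ≤ m → 1 ≤ D → f.totalDegree ≤ m →
      g.totalDegree ≤ D → ∀ (ι : Type) [Fintype ι] (p q : ι → (τ × Fin d) → ℝ),
      (∀ j, eval (p j) f ≠ 0) → (∀ j, q j ∈ cell f (p j)) → (∀ j, 0 < eval (p j) g) →
      (∀ j, eval (q j) g < 0) → (∀ i j, cell f (p i) = cell f (p j) → i = j) →
      Fintype.card ι ≤ K * D * (m + D) ^ (Fintype.card (τ × Fin d) - 1))
    (m : ℕ) (f : τ → MvPolynomial (Fin d) ℝ) (hf : ∀ t, (f t).totalDegree ≤ m)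
    (hm : 1 ≤ m) (g : MvPolynomial (τ × Fin d) ℝ) (hg : g.totalDegree ≤ m)
    (ι : Type) [Fintype ι] (p q : ι → τ → Fin d → ℝ)
    (hp : ∀ j t, eval (p j t) (f t) ≠ 0) (hq : ∀ j t, q j t ∈ cell (f t) (p j t))
    (hpos : ∀ j, 0 < eval (flat (p j)) g) (hneg : ∀ j, eval (flat (q j)) g < 0)
    (hinj : ∀ i j, (∀ t, cell (f t) (p i t) = cell (f t) (p j t)) → i = j) :
    Fintype.card ι ≤ K * g.totalDegree * ((Fintype.card τ + 1) * m) ^ (Fintype.card τ * d - 1) := by
  by_cases hι : IsEmpty ι
  · rw [Fintype.card_eq_zero]; exact Nat.zero_le _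
  · rw [not_isEmpty_iff] at hι
    obtain ⟨j0⟩ := hι
    have hdeg : 1 ≤ g.totalDegree := by
      by_contra hcon
      have h0 : g.totalDegree = 0 := by omega
      have h1 := eval_const_of_deg g h0 (flat (p j0)) (flat (q j0))
      have h2 := hpos j0
      have h3 := hneg j0
      rw [h1] at h2
      linarith
    have hτ : 1 ≤ Fintype.card τ := Fintype.card_pos
    have hM : 1 ≤ Fintype.card τ * m := Nat.mul_pos hτ hm
    have h := hK (FF f) g (Fintype.card τ * m) g.totalDegree hM hdeg (deg_FF f hf) le_rfl ι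
      (fun j => flat (p j)) (fun j => flat (q j))
      (fun j => (eval_FF_ne f _).mpr (hp j)) (fun j => mem_cell_FF f _ _ (hp j) (hq j))
      hpos hneg (fun i j hij => hinj i j (fun t => cell_eq_of f _ _ (hp i) (hp j) hij t))
    refine h.trans ?_
    rw [Fintype.card_prod, Fintype.card_fin]
    refine Nat.mul_le_mul_left _ (Nat.pow_le_pow_left ?_ _)
    rw [Nat.add_mul, Nat.one_mul]
    exact Nat.add_le_add_left hg _

end ProdAux

open ProdAux

theorem prod (hX : CrossStmt) : ProdStmt := by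
  intro d τ _ _ hd
  have hne : Nonempty (Fin d) := ⟨⟨0, hd⟩⟩
  obtain ⟨K, hK⟩ := hX (τ × Fin d)
  refine ⟨2 * K * (Fintype.card τ + 1) ^ (Fintype.card τ * d - 1), ?_⟩
  intro m D hD hDm f hf gs hgs ι _ p q hp hq hcr hnz hinj
  have hm : 1 ≤ m := hD.trans hDm
  -- choice of position and direction
  have hch : ∀ j : ι, ∃ c : Fin gs.length × Bool,
      (c.2 = true → 0 < eval (flat (p j)) gs[c.1.1] ∧ eval (flat (q j)) gs[c.1.1] < 0) ∧
      (c.2 = false → 0 < eval (flat (p j)) (-gs[c.1.1]) ∧
        eval (flat (q j)) (-gs[c.1.1]) < 0) := by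
    intro j
    obtain ⟨g, hg, hs⟩ := hcr j
    obtain ⟨a, ha, rfl⟩ := List.getElem_of_mem hg
    obtain ⟨h1, h2⟩ := hnz j _ hg
    have hs' : SignType.sign (eval (flat (p j)) gs[a]) ≠ SignType.sign (eval (flat (q j)) gs[a]) := hs
    have h1' : eval (flat (p j)) gs[a] ≠ 0 := h1
    have h2' : eval (flat (q j)) gs[a] ≠ 0 := h2
    rcases lt_or_gt_of_ne h1' with h3 | h3
    · rcases lt_or_gt_of_ne h2' with h4 | h4
      · exfalso
        apply hs'
        rw [sign_neg h3, sign_neg h4]
      · refine ⟨(⟨a, ha⟩, false), fun h => by simp at h, fun _ => ?_⟩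
        rw [map_neg, map_neg]
        exact ⟨by linarith, by linarith⟩
    · rcases lt_or_gt_of_ne h2' with h4 | h4
      · exact ⟨(⟨a, ha⟩, true), fun _ => ⟨h3, h4⟩, fun h => by simp at h⟩
      · exfalso
        apply hs'
        rw [sign_pos h3, sign_pos h4]
  choose ch hch1 hch2 using hch
  have hgdeg : ∀ a : Fin gs.length, (gs[a.1]).totalDegree ≤ m := by
    intro a
    refine le_trans ?_ (hgs.trans hDm)
    unfold degSum
    exact List.single_le_sum (fun x _ => Nat.zero_le x) _
      (List.mem_map_of_mem (List.getElem_mem a.2))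
  have hfib : ∀ c : Fin gs.length × Bool,
      (univ.filter (fun j => ch j = c)).card ≤
        K * (gs[c.1.1]).totalDegree *
          ((Fintype.card τ + 1) * m) ^ (Fintype.card τ * d - 1) := by
    intro c
    rw [← Fintype.card_subtype]
    obtain ⟨a, b⟩ := c
    cases b with
    | true =>
      refine count_one hd K hK m f hf hm gs[a.1] (hgdeg a) {j // ch j = (a, true)}
        (fun j => p j.1) (fun j => q j.1) (fun j t => hp j.1 t) (fun j t => hq j.1 t) ?_ ?_
        (fun i j hij => Subtype.ext (hinj i.1 j.1 hij))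
      · rintro ⟨j, hj⟩
        have h := hch1 j (by rw [hj])
        simp only [hj] at h
        exact h.1
      · rintro ⟨j, hj⟩
        have h := hch1 j (by rw [hj])
        simp only [hj] at h
        exact h.2
    | false =>
      have h0 := count_one hd K hK m f hf hm (-gs[a.1]) (by rw [totalDegree_neg]; exact hgdeg a)
        {j // ch j = (a, false)}
        (fun j => p j.1) (fun j => q j.1) (fun j t => hp j.1 t) (fun j t => hq j.1 t) (by
          rintro ⟨j, hj⟩
          have h := hch2 j (by rw [hj])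
          simp only [hj] at h
          exact h.1) (by
          rintro ⟨j, hj⟩
          have h := hch2 j (by rw [hj])
          simp only [hj] at h
          exact h.2)
        (fun i j hij => Subtype.ext (hinj i.1 j.1 hij))
      rw [totalDegree_neg] at h0
      exact h0
  have hcard : Fintype.card ι = ∑ c : Fin gs.length × Bool, (univ.filter (fun j => ch j = c)).card := by
    rw [← Finset.card_univ]
    exact Finset.card_eq_sum_card_fiberwise (fun x _ => Finset.mem_univ _)
  rw [hcard]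
  refine (Finset.sum_le_sum (fun c _ => hfib c)).trans ?_
  have e2 : ∑ c : Fin gs.length × Bool, K * (gs[c.1.1]).totalDegree *
      ((Fintype.card τ + 1) * m) ^ (Fintype.card τ * d - 1) =
      2 * (K * (∑ a : Fin gs.length, (gs[a.1]).totalDegree) *
        ((Fintype.card τ + 1) * m) ^ (Fintype.card τ * d - 1)) := by
    rw [Fintype.sum_prod_type]
    have e3 : ∀ a : Fin gs.length, ∑ b : Bool, K * (gs[((a, b) : Fin gs.length × Bool).1.1]).totalDegree *
        ((Fintype.card τ + 1) * m) ^ (Fintype.card τ * d - 1) =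
        2 * (K * (gs[a.1]).totalDegree *
          ((Fintype.card τ + 1) * m) ^ (Fintype.card τ * d - 1)) := by
      intro a
      rw [Fintype.sum_bool]
      ring
    rw [Finset.sum_congr rfl (fun a _ => e3 a), ← Finset.mul_sum, ← Finset.sum_mul,
      ← Finset.mul_sum]
  rw [e2]
  have hsum : ∑ a : Fin gs.length, (gs[a.1]).totalDegree = degSum gs := by
    unfold degSum
    exact Fin.sum_univ_fun_getElem gs totalDegree
  rw [hsum]
  calc 2 * (K * degSum gs * ((Fintype.card τ + 1) * m) ^ (Fintype.card τ * d - 1))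
      ≤ 2 * (K * D * ((Fintype.card τ + 1) * m) ^ (Fintype.card τ * d - 1)) := by
        gcongr
    _ = 2 * K * (Fintype.card τ + 1) ^ (Fintype.card τ * d - 1) * D *
          m ^ (Fintype.card τ * d - 1) := by
        rw [mul_pow]; ring

end Pool.Agent.R98.EQ
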