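import Pool.Agent.R98.EQ.Stm

/-!
Project EQ (MP_f3d7df_co), piece A1 REL: algebraic dependence by a dimension count.
-/

set_option autoImplicit false

namespace Pool.Agent.R98.EQ

open MvPolynomial Finset

open scoped Classical

namespace RelP

/-- a function as a monomial -/
noncomputable def mo {τ : Type} [Fintype τ] (a : τ → ℕ) : τ →₀ ℕ := Finsupp.equivFunOnFinite.symm a

theorem mo_apply {τ : Type} [Fintype τ] (a : τ → ℕ) (j : τ) : mo a j = a j := rfl

theorem mo_inj {τ : Type} [Fintype τ] {a b : τ → ℕ} (h : mo a = mo b) : a = b :=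
  Finsupp.equivFunOnFinite.symm.injective h

theorem coeff_zero_of_deg {σ : Type} (P : MvPolynomial σ ℝ) (m : σ →₀ ℕ) (v : σ)
    (h : degreeOf v P < m v) : coeff m P = 0 := by
  by_contra h1
  have h2 : m ∈ P.support := mem_support_iff.2 h1
  have h3 := monomial_le_degreeOf v h2
  omega

theorem deg_prod {σ τ : Type} [Fintype τ] (u : τ → MvPolynomial σ ℝ)
    (l : MvPolynomial σ ℝ) (e : σ → τ → ℕ) (e' : σ → ℕ) (A : τ → ℕ) (B : ℕ)
    (hu : ∀ v j, degreeOf v (u j) ≤ e v j) (hl : ∀ v, degreeOf v l ≤ e' v)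
    (a : τ → ℕ) (ha : ∀ j, a j ≤ A j) (b : ℕ) (hb : b ≤ B) (v : σ) :
    degreeOf v ((∏ j, u j ^ a j) * l ^ b) ≤ ∑ j, A j * e v j + B * e' v := by
  refine (degreeOf_mul_le v _ _).trans (add_le_add ?_ ?_)
  · refine (degreeOf_prod_le v _ _).trans (Finset.sum_le_sum fun j _ => ?_)
    exact (degreeOf_pow_le v _ _).trans (Nat.mul_le_mul (ha j) (hu v j))
  · exact (degreeOf_pow_le v _ _).trans (Nat.mul_le_mul hb (hl v))

end RelP

open RelP in
theorem rel : RelStmt := by
  intro σ τ _ _ u l e e' A B hu hl hlt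
  let N : σ → ℕ := fun v => ∑ j, A j * e v j + B * e' v + 1
  let Pp : (∀ j, Fin (A j + 1)) × Fin (B + 1) → MvPolynomial σ ℝ := fun p =>
    (∏ j, u j ^ (p.1 j : ℕ)) * l ^ (p.2 : ℕ)
  let w : (∀ j, Fin (A j + 1)) × Fin (B + 1) → ((∀ v, Fin (N v)) → ℝ) := fun p m =>
    coeff (mo fun v => (m v : ℕ)) (Pp p)
  have hnli : ¬ LinearIndependent ℝ w := by
    intro h
    have h1 := h.fintype_card_le_finrank
    rw [Module.finrank_fintype_fun_eq_card, Fintype.card_prod, Fintype.card_pi, Fintype.card_pi,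
      Fintype.card_fin] at h1
    simp only [Fintype.card_fin] at h1
    exact absurd h1 (not_le.2 hlt)
  rw [Fintype.not_linearIndependent_iff] at hnli
  obtain ⟨g, hg, p, hp⟩ := hnli
  have hdeg : ∀ p v, degreeOf v (Pp p) < N v := fun p v =>
    Nat.lt_succ_of_le (deg_prod u l e e' A B hu hl (fun j => (p.1 j : ℕ))
      (fun j => Nat.lt_succ_iff.1 (p.1 j).2) p.2 (Nat.lt_succ_iff.1 p.2.2) v)
  have hZ : ∑ p, C (g p) * Pp p = 0 := by
    ext m
    rw [coeff_sum, coeff_zero]
    simp_rw [coeff_C_mul]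
    by_cases hm : ∀ v, m v < N v
    · have h1 := congrFun hg fun v => ⟨m v, hm v⟩
      rw [Finset.sum_apply] at h1
      have h2 : m = mo fun v => m v := by
        ext v
        rfl
      rw [h2]
      exact h1
    · push Not at hm
      obtain ⟨v, hv⟩ := hm
      apply Finset.sum_eq_zero
      intro p _
      rw [coeff_zero_of_deg (Pp p) m v ((hdeg p v).trans_le hv), mul_zero]
  refine ⟨fun b => ∑ a : (∀ j, Fin (A j + 1)), monomial (mo fun j => (a j : ℕ)) (g (a, b)),
    ⟨p.2, ?_⟩, ?_⟩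
  · intro h0
    apply hp
    have h1 := congrArg (coeff (mo fun j => (p.1 j : ℕ))) h0
    rw [coeff_sum, coeff_zero] at h1
    rw [Finset.sum_eq_single p.1] at h1
    · rwa [coeff_monomial, if_pos rfl] at h1
    · intro a _ ha
      rw [coeff_monomial, if_neg]
      intro h2
      apply ha
      funext j
      exact Fin.ext (congrFun (mo_inj h2) j)
    · intro h2
      exact absurd (Finset.mem_univ _) h2
  · rw [← hZ, Fintype.sum_prod_type_right]
    apply Finset.sum_congr rfl
    intro b _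
    rw [map_sum, Finset.sum_mul]
    apply Finset.sum_congr rfl
    intro a _
    rw [aeval_monomial, Finsupp.prod_fintype _ _ (fun i => pow_zero _)]
    show C (g (a, b)) * (∏ j, u j ^ (a j : ℕ)) * l ^ (b : ℕ) =
      C (g (a, b)) * ((∏ j, u j ^ (a j : ℕ)) * l ^ (b : ℕ))
    rw [mul_assoc]

end Pool.Agent.R98.EQ
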