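import Pool.Agent.R98.EQ.Stm

set_option autoImplicit false

/-! Piece D1 SEG of project EQ (helper11). -/

namespace Pool.Agent.R98.EQ

open Finset

open scoped Classical

namespace SegAux

/-- A function on a box which does not change along unit steps is constant. -/
theorem box_const {k : ℕ} {M : Fin k → ℕ} {α : Type} (g : (∀ i, Fin (M i)) → α)
    (lo hi : ∀ i, Fin (M i))
    (hstep : ∀ η : ∀ i, Fin (M i), (∀ i, lo i ≤ η i ∧ η i ≤ hi i) →
      ∀ (i : Fin k) (h : (η i : ℕ) + 1 < M i), (η i : ℕ) + 1 ≤ hi i →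
        g η = g (Function.update η i ⟨η i + 1, h⟩)) :
    ∀ (N : ℕ) (η : ∀ i, Fin (M i)), (∀ i, lo i ≤ η i ∧ η i ≤ hi i) →
      ∑ i, (η i : ℕ) = N → g η = g lo := by
  intro N
  induction N using Nat.strong_induction_on with
  | _ N ih =>
    intro η hη hN
    by_cases hlo : η = lo
    · rw [hlo]
    · obtain ⟨i, hi'⟩ := Function.ne_iff.1 hlo
      have hlt : lo i < η i := lt_of_le_of_ne (hη i).1 (Ne.symm hi')
      have hlt' : (lo i : ℕ) < (η i : ℕ) := hlt
      have hηM : (η i : ℕ) < M i := (η i).2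
      have hhi : (η i : ℕ) ≤ (hi i : ℕ) := (hη i).2
      set η' : ∀ i, Fin (M i) := Function.update η i ⟨(η i : ℕ) - 1, by omega⟩ with hη'
      have h1 : (η' i : ℕ) = (η i : ℕ) - 1 := by rw [hη', Function.update_self]
      have h2 : ∀ j, j ≠ i → η' j = η j := by
        intro j hj
        rw [hη', Function.update_of_ne hj]
      have hbox : ∀ j, lo j ≤ η' j ∧ η' j ≤ hi j := by
        intro j
        by_cases hj : j = i
        · subst hj
          constructor
          · show (lo j : ℕ) ≤ (η' j : ℕ)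
            omega
          · show (η' j : ℕ) ≤ (hi j : ℕ)
            omega
        · rw [h2 j hj]; exact hη j
      have hsum : ∑ j, (η' j : ℕ) < N := by
        rw [← hN]
        apply Finset.sum_lt_sum
        · intro j _
          by_cases hj : j = i
          · subst hj; omega
          · rw [h2 j hj]
        · exact ⟨i, Finset.mem_univ _, by omega⟩
      have h3 := ih _ hsum η' hbox rfl
      have hM : (η' i : ℕ) + 1 < M i := by omega
      have h4 := hstep η' hbox i hM (by omega)
      rw [← h3, h4]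
      congr 1
      funext j
      by_cases hj : j = i
      · subst hj
        rw [Function.update_self]
        apply Fin.ext
        show (η j : ℕ) = (η' j : ℕ) + 1
        omega
      · rw [Function.update_of_ne hj, h2 j hj]

/-- Two points of one fibre lie in the same or in adjacent segments. -/
theorem fibre_close {n m M : ℕ} (hn : 1 ≤ n) (c : Fin n → Fin M) (hc : Monotone c)
    (hcard : ∀ s, (univ.filter (fun a => c a = s)).card * m ≤ n) (hm : 1 ≤ m) (a b : Fin n)
    (hab : c a = c b) : (b : ℕ) * m / n ≤ (a : ℕ) * m / n + 1 := by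
  rcases le_total b a with h | h
  · have h' : (b : ℕ) ≤ a := h
    have : (b : ℕ) * m / n ≤ (a : ℕ) * m / n := Nat.div_le_div_right (Nat.mul_le_mul_right _ h')
    omega
  · have h' : (a : ℕ) ≤ b := h
    have hsub : Finset.Icc a b ⊆ univ.filter (fun x => c x = c a) := by
      intro x hx
      rw [Finset.mem_Icc] at hx
      rw [Finset.mem_filter]
      refine ⟨Finset.mem_univ _, le_antisymm ?_ (hc hx.1)⟩
      rw [hab]
      exact hc hx.2
    have h1 := Finset.card_le_card hsub
    rw [Fin.card_Icc] at h1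
    have h2 := hcard (c a)
    have h3 : ((b : ℕ) + 1 - a) * m ≤ n := (Nat.mul_le_mul_right _ h1).trans h2
    have h4 : (b : ℕ) * m ≤ (a : ℕ) * m + n := by
      have e : (b : ℕ) = a + (b - a) := by omega
      have h5 : ((b : ℕ) - a) * m ≤ ((b : ℕ) + 1 - a) * m := Nat.mul_le_mul_right _ (by omega)
      calc (b : ℕ) * m = (a + (b - a)) * m := by rw [← e]
        _ = a * m + ((b : ℕ) - a) * m := by ring
        _ ≤ _ := by omega
    calc (b : ℕ) * m / n ≤ ((a : ℕ) * m + n) / n := Nat.div_le_div_right h4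
      _ = (a : ℕ) * m / n + 1 := Nat.add_div_right _ hn

/-- the segments met by a fibre -/
noncomputable def sg {n m M : ℕ} (hm : 1 ≤ m ∧ m ≤ n) (c : Fin n → Fin M) (t : Fin M) :
    Finset (Fin m) :=
  (univ.filter (fun a : Fin n => c a = t)).image (fun a : Fin n => (⟨(a : ℕ) * m / n, by
    rw [Nat.div_lt_iff_lt_mul (by omega)]
    rw [Nat.mul_comm]
    exact Nat.mul_lt_mul_of_pos_left a.2 (by omega)⟩ : Fin m))

theorem mem_sg {n m M : ℕ} (hm : 1 ≤ m ∧ m ≤ n) (c : Fin n → Fin M) (t : Fin M) (s : Fin m) :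
    s ∈ sg hm c t ↔ ∃ a, c a = t ∧ (a : ℕ) * m / n = s := by
  rw [sg, Finset.mem_image]
  constructor
  · rintro ⟨a, ha, h⟩
    rw [Finset.mem_filter] at ha
    exact ⟨a, ha.2, by rw [← h]⟩
  · rintro ⟨a, ha, h⟩
    exact ⟨a, Finset.mem_filter.2 ⟨Finset.mem_univ _, ha⟩, Fin.ext h⟩

theorem card_sg {n m M : ℕ} (hm : 1 ≤ m ∧ m ≤ n) (c : Fin n → Fin M) (hc : Monotone c)
    (hcard : ∀ s, (univ.filter (fun a => c a = s)).card * m ≤ n) (t : Fin M) :
    (sg hm c t).card ≤ 2 := by
  by_contra h
  push Not at h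
  obtain ⟨x, hx, y, hy, z, hz, hxy, hxz, hyz⟩ := Finset.two_lt_card.1 h
  rw [mem_sg] at hx hy hz
  obtain ⟨a, ha, hax⟩ := hx
  obtain ⟨b, hb, hby⟩ := hy
  obtain ⟨d, hd, hdz⟩ := hz
  have hn : 1 ≤ n := hm.1.trans hm.2
  have h1 := fibre_close hn c hc hcard hm.1 a b (ha.trans hb.symm)
  have h2 := fibre_close hn c hc hcard hm.1 b a (hb.trans ha.symm)
  have h3 := fibre_close hn c hc hcard hm.1 a d (ha.trans hd.symm)
  have h4 := fibre_close hn c hc hcard hm.1 d a (hd.trans ha.symm)
  have h5 := fibre_close hn c hc hcard hm.1 b d (hb.trans hd.symm)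
  have h6 := fibre_close hn c hc hcard hm.1 d b (hd.trans hb.symm)
  have n1 : (x : ℕ) ≠ y := fun e => hxy (Fin.ext e)
  have n2 : (x : ℕ) ≠ z := fun e => hxz (Fin.ext e)
  have n3 : (y : ℕ) ≠ z := fun e => hyz (Fin.ext e)
  omega

/-- a cell between two cells which meet a segment meets it. -/
theorem between {n m M : ℕ} (hm : 1 ≤ m ∧ m ≤ n) (c : Fin n → Fin M) (hc : Monotone c)
    (rep : Fin M → Fin n) (hrep : ∀ s, c (rep s) = s) (a b : Fin n) (s : Fin m)
    (ha : (a : ℕ) * m / n = s) (hb : (b : ℕ) * m / n = s) (t : Fin M)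
    (h1 : c a ⊓ c b ≤ t) (h2 : t ≤ c a ⊔ c b) : s ∈ sg hm c t := by
  wlog hab : c a ≤ c b generalizing a b
  · exact this b a hb ha (by rwa [inf_comm]) (by rwa [sup_comm]) (le_of_lt (not_le.1 hab))
  rw [inf_eq_left.2 hab] at h1
  rw [sup_eq_right.2 hab] at h2
  rw [mem_sg]
  rcases h1.eq_or_lt with h | h
  · exact ⟨a, h, ha⟩
  rcases h2.eq_or_lt with h' | h'
  · exact ⟨b, h'.symm, hb⟩
  refine ⟨rep t, hrep t, ?_⟩
  have e1 : a ≤ rep t := by
    by_contra hcon
    have := hc (le_of_lt (not_le.1 hcon))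
    rw [hrep] at this
    exact absurd h (not_lt.2 this)
  have e2 : rep t ≤ b := by
    by_contra hcon
    have := hc (le_of_lt (not_le.1 hcon))
    rw [hrep] at this
    exact absurd h' (not_lt.2 this)
  have e3 : (a : ℕ) * m / n ≤ (rep t : ℕ) * m / n :=
    Nat.div_le_div_right (Nat.mul_le_mul_right _ e1)
  have e4 : (rep t : ℕ) * m / n ≤ (b : ℕ) * m / n :=
    Nat.div_le_div_right (Nat.mul_le_mul_right _ e2)
  omega

end SegAux

open SegAux

/-- D1 SEG. -/
theorem seg : SegStmt := by
  intro k n m M α hm c hc hcard rep hrep F Na Nb hNa hNb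
  set P : (∀ i, Fin (M i)) → Finset (∀ i, Fin (m i)) := fun γ =>
    Fintype.piFinset (fun i => sg (hm i) (c i) (γ i)) with hP
  have hPc : ∀ γ, (P γ).card ≤ 2 ^ k := by
    intro γ
    rw [hP]
    simp only
    rw [Fintype.card_piFinset]
    calc ∏ i, (sg (hm i) (c i) (γ i)).card ≤ ∏ _i : Fin k, 2 :=
          Finset.prod_le_prod' (fun i _ => card_sg (hm i) (c i) (hc i) (hcard i) (γ i))
      _ = 2 ^ k := by simp
  set A := univ.filter (fun γ : ∀ i, Fin (M i) => ∃ a b : ∀ i, Fin (n i),
    (∀ i, c i (a i) = γ i) ∧ (∀ i, c i (b i) = γ i) ∧ F a ≠ F b) with hA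
  set B : Fin k → Finset (∀ i, Fin (M i)) := fun i =>
    if m i < n i then univ.filter (fun γ : ∀ i, Fin (M i) => ∃ h : (γ i : ℕ) + 1 < M i,
      F (fun j => rep j (γ j)) ≠
        F (fun j => rep j (Function.update γ i ⟨γ i + 1, h⟩ j))) else ∅ with hB
  have hBc : ∀ i, (B i).card ≤ Nb := by
    intro i
    rw [hB]
    simp only
    split_ifs with h
    · exact hNb i h
    · simp
  have hsub : (univ.filter (fun s : ∀ i, Fin (m i) => ∃ a b : ∀ i, Fin (n i),
    (∀ i, (a i : ℕ) * m i / n i = s i) ∧ (∀ i, (b i : ℕ) * m i / n i = s i) ∧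
      F a ≠ F b)) ⊆ A.biUnion P ∪ univ.biUnion (fun i => (B i).biUnion P) := by
    intro s hs
    rw [Finset.mem_filter] at hs
    obtain ⟨-, a, b, ha, hb, hab⟩ := hs
    rw [Finset.mem_union]
    by_contra hcon
    push Not at hcon
    obtain ⟨hnA, hnB⟩ := hcon
    -- F is constant on every cell meeting `s`
    have hconst : ∀ γ : ∀ i, Fin (M i), (∀ i, s i ∈ sg (hm i) (c i) (γ i)) →
        ∀ x y : ∀ i, Fin (n i), (∀ i, c i (x i) = γ i) → (∀ i, c i (y i) = γ i) →
          F x = F y := by
      intro γ hγ x y hx hy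
      by_contra hne
      apply hnA
      rw [Finset.mem_biUnion]
      refine ⟨γ, ?_, ?_⟩
      · rw [hA, Finset.mem_filter]
        exact ⟨Finset.mem_univ _, x, y, hx, hy, hne⟩
      · rw [hP]
        simp only
        rw [Fintype.mem_piFinset]
        exact hγ
    have hgstep : ∀ γ : ∀ i, Fin (M i), (∀ i, s i ∈ sg (hm i) (c i) (γ i)) →
        ∀ (i : Fin k) (h : (γ i : ℕ) + 1 < M i), s i ∈ sg (hm i) (c i) ⟨γ i + 1, h⟩ →
          F (fun j => rep j (γ j)) =
            F (fun j => rep j (Function.update γ i ⟨γ i + 1, h⟩ j)) := by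
      intro γ hγ i h hi
      by_contra hne
      have hmn : m i < n i := by
        by_contra hmn
        have hmn' : m i = n i := le_antisymm (hm i).2 (not_lt.1 hmn)
        have h1 := hγ i
        rw [mem_sg] at h1 hi
        obtain ⟨x, hx, hxs⟩ := h1
        obtain ⟨y, hy, hys⟩ := hi
        have hn0 : 0 < n i := lt_of_lt_of_le (hm i).1 (hm i).2
        have hmul : ∀ v : ℕ, v * m i / n i = v := by
          intro v
          rw [hmn', Nat.mul_div_cancel _ hn0]
        rw [hmul] at hxs hys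
        have hxy : x = y := Fin.ext (hxs.trans hys.symm)
        rw [hxy, hy] at hx
        have := congrArg Fin.val hx
        simp at this
      apply hnB
      rw [Finset.mem_biUnion]
      refine ⟨i, Finset.mem_univ _, ?_⟩
      rw [Finset.mem_biUnion]
      refine ⟨γ, ?_, ?_⟩
      · rw [hB]
        simp only
        rw [if_pos hmn, Finset.mem_filter]
        exact ⟨Finset.mem_univ _, h, hne⟩
      · rw [hP]
        simp only
        rw [Fintype.mem_piFinset]
        exact hγ
    have hbet : ∀ i (t : Fin (M i)), c i (a i) ⊓ c i (b i) ≤ t → t ≤ c i (a i) ⊔ c i (b i) →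
        s i ∈ sg (hm i) (c i) t := fun i t h1 h2 =>
      between (hm i) (c i) (hc i) (rep i) (hrep i) (a i) (b i) (s i) (ha i) (hb i) t h1 h2
    have hcc := box_const (fun γ : ∀ i, Fin (M i) => F (fun j => rep j (γ j)))
      (fun i => c i (a i) ⊓ c i (b i)) (fun i => c i (a i) ⊔ c i (b i)) (by
        intro η hη i h hle
        refine hgstep η (fun j => hbet j _ (hη j).1 (hη j).2) i h (hbet i _ ?_ ?_)
        · refine (hη i).1.trans ?_
          show (η i : ℕ) ≤ (η i : ℕ) + 1
          omega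
        · exact hle)
    have e1 : F (fun j => rep j (c j (a j))) = F (fun j => rep j (c j (b j))) := by
      have h1 := hcc _ (fun j => c j (a j)) (fun j => ⟨inf_le_left, le_sup_left⟩) rfl
      have h2 := hcc _ (fun j => c j (b j)) (fun j => ⟨inf_le_right, le_sup_right⟩) rfl
      exact h1.trans h2.symm
    have e2 : F a = F (fun j => rep j (c j (a j))) :=
      hconst (fun j => c j (a j)) (fun j => hbet j _ inf_le_left le_sup_left) _ _
        (fun _ => rfl) (fun j => hrep j _)
    have e3 : F b = F (fun j => rep j (c j (b j))) :=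
      hconst (fun j => c j (b j)) (fun j => hbet j _ inf_le_right le_sup_right) _ _
        (fun _ => rfl) (fun j => hrep j _)
    exact hab (e2.trans (e1.trans e3.symm))
  refine (Finset.card_le_card hsub).trans ?_
  refine (Finset.card_union_le _ _).trans ?_
  have h1 : (A.biUnion P).card ≤ Na * 2 ^ k := by
    refine (Finset.card_biUnion_le_card_mul _ _ _ (fun γ _ => hPc γ)).trans ?_
    exact Nat.mul_le_mul_right _ hNa
  have h2 : (univ.biUnion (fun i => (B i).biUnion P)).card ≤ k * (Nb * 2 ^ k) := by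
    refine (Finset.card_biUnion_le_card_mul _ _ (Nb * 2 ^ k) (fun i _ => ?_)).trans ?_
    · refine (Finset.card_biUnion_le_card_mul _ _ _ (fun γ _ => hPc γ)).trans ?_
      exact Nat.mul_le_mul_right _ (hBc i)
    · simp
  calc (A.biUnion P).card + (univ.biUnion (fun i => (B i).biUnion P)).card
      ≤ Na * 2 ^ k + k * (Nb * 2 ^ k) := Nat.add_le_add h1 h2
    _ = 2 ^ k * (Na + k * Nb) := by ring

end Pool.Agent.R98.EQ
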