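import Pool.Agent.R98.EQ.Stm

set_option autoImplicit false

namespace Pool.Agent.R98.EQ

open MvPolynomial Finset

open scoped Classical

namespace SolAux

lemma exists_eval_ne {τ : Type} [Fintype τ] {G : MvPolynomial τ ℝ} (hG : G ≠ 0)
    {O : Set (τ → ℝ)} (hO : IsOpen O) (hne : O.Nonempty) : ∃ y ∈ O, eval y G ≠ 0 := by
  by_contra hcon
  push Not at hcon
  obtain ⟨y₀, hy₀⟩ := hne
  obtain ⟨ε, hε, hball⟩ := Metric.isOpen_iff.1 hO y₀ hy₀
  apply hG
  refine funext_set (fun i => Set.Ioo (y₀ i - ε) (y₀ i + ε))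
    (fun i => Set.Ioo_infinite (by linarith)) (fun x hx => ?_)
  rw [map_zero]
  refine hcon x (hball ?_)
  rw [Metric.mem_ball, dist_pi_lt_iff hε]
  intro i
  have := hx i trivial
  rw [Real.dist_eq, abs_lt]
  constructor <;> linarith [this.1, this.2]

/-- the index -/
noncomputable def idx {ρ : Type} [Fintype ρ] (i : ρ) : ℕ := (Fintype.equivFin ρ i : ℕ)

lemma idx_inj {ρ : Type} [Fintype ρ] {i j : ρ} (h : idx i = idx j) : i = j :=
  (Fintype.equivFin ρ).injective (Fin.ext h)

lemma idx_lt {ρ : Type} [Fintype ρ] (i : ρ) : idx i < Fintype.card ρ :=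
  (Fintype.equivFin ρ i).2

/-- the univariate polynomial of a vector -/
noncomputable def pol {ρ : Type} [Fintype ρ] (D : ρ → ℝ) : Polynomial ℝ :=
  ∑ i, Polynomial.C (D i) * Polynomial.X ^ (idx i)

lemma pol_coeff {ρ : Type} [Fintype ρ] (D : ρ → ℝ) (i : ρ) : (pol D).coeff (idx i) = D i := by
  unfold pol
  rw [Polynomial.finsetSum_coeff, Finset.sum_eq_single i]
  · simp
  · intro j _ hj
    rw [Polynomial.coeff_C_mul, Polynomial.coeff_X_pow, if_neg, mul_zero]
    intro h
    exact hj (idx_inj h.symm)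
  · intro h
    exact absurd (mem_univ i) h

lemma pol_natDegree {ρ : Type} [Fintype ρ] (D : ρ → ℝ) :
    (pol D).natDegree ≤ Fintype.card ρ := by
  unfold pol
  refine Polynomial.natDegree_sum_le_of_forall_le _ _ (fun i _ => ?_)
  exact (Polynomial.natDegree_C_mul_X_pow_le _ _).trans (idx_lt i).le

lemma pol_eval {ρ : Type} [Fintype ρ] (D : ρ → ℝ) (t : ℝ) :
    (pol D).eval t = ∑ i, t ^ idx i * D i := by
  unfold pol
  rw [Polynomial.eval_finsetSum]
  refine Finset.sum_congr rfl (fun i _ => ?_)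
  rw [Polynomial.eval_mul, Polynomial.eval_C, Polynomial.eval_pow, Polynomial.eval_X, mul_comm]

/-- separating linear forms -/
lemma exists_sep (ρ : Type) [Fintype ρ] (N : ℕ) : ∃ M : ℕ, ∀ T : Finset (ρ → ℝ), T.card = N →
    ∃ t < M, Set.InjOn (fun x : ρ → ℝ => ∑ i, (t:ℝ) ^ idx i * x i) (T : Set (ρ → ℝ)) := by
  refine ⟨N * N * Fintype.card ρ + 1, fun T hT => ?_⟩
  let P : Polynomial ℝ := ∏ p ∈ T.offDiag, pol (fun i => p.1 i - p.2 i)
  have hP : P ≠ 0 := by
    refine Finset.prod_ne_zero_iff.2 (fun p hp h0 => ?_)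
    rw [mem_offDiag] at hp
    apply hp.2.2
    funext i
    have := pol_coeff (fun i => p.1 i - p.2 i) i
    rw [h0, Polynomial.coeff_zero] at this
    linarith
  have hdeg : P.natDegree ≤ N * N * Fintype.card ρ := by
    calc P.natDegree ≤ ∑ p ∈ T.offDiag, (pol (fun i => p.1 i - p.2 i)).natDegree :=
          Polynomial.natDegree_prod_le _ _
      _ ≤ ∑ p ∈ T.offDiag, Fintype.card ρ := Finset.sum_le_sum (fun p _ => pol_natDegree _)
      _ = T.offDiag.card * Fintype.card ρ := by rw [Finset.sum_const, smul_eq_mul]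
      _ ≤ N * N * Fintype.card ρ := by
          refine Nat.mul_le_mul_right _ ?_
          rw [offDiag_card, hT]
          omega
  by_contra hcon
  push Not at hcon
  have hall : ∀ t < N * N * Fintype.card ρ + 1, P.eval (t:ℝ) = 0 := by
    intro t ht
    have h1 := hcon t ht
    rw [Set.InjOn] at h1
    push Not at h1
    obtain ⟨x, hx, x', hx', heq, hne⟩ := h1
    simp only [P]
    rw [Polynomial.eval_prod]
    refine Finset.prod_eq_zero (i := (x, x')) (mem_offDiag.2 ⟨hx, hx', hne⟩) ?_
    rw [pol_eval]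
    simp only [mul_sub, Finset.sum_sub_distrib]
    linarith
  have hsub : ((range (N * N * Fintype.card ρ + 1)).image (fun t : ℕ => (t:ℝ))).val ⊆ P.roots := by
    intro z hz
    rw [Finset.mem_val, mem_image] at hz
    obtain ⟨t, ht, rfl⟩ := hz
    rw [Polynomial.mem_roots hP]
    exact hall t (mem_range.1 ht)
  have h2 := Polynomial.card_le_degree_of_subset_roots hsub
  rw [card_image_of_injective _ Nat.cast_injective, card_range] at h2
  omega

end SolAux

open SolAux in
theorem sol : SolStmt := by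
  intro σ ρ τ _ _ _ emb u B hrel Q hQ O hO hOne
  obtain ⟨M, hM⟩ := exists_sep ρ (B + 1)
  choose R hR using fun t : ℕ => hrel (fun i => (t:ℝ) ^ idx i)
  choose b hb using fun t => (hR t).1
  have hG : Q * ∏ t ∈ range M, R t (b t) ≠ 0 :=
    mul_ne_zero hQ (prod_ne_zero_iff.2 (fun t _ => hb t))
  obtain ⟨y, hy, hGy⟩ := exists_eval_ne hG hO hOne
  rw [map_mul, map_prod] at hGy
  refine ⟨y, hy, left_ne_zero_of_mul hGy, ?_⟩
  intro T hT
  by_contra hcard
  push Not at hcard
  obtain ⟨T', hT'T, hT'⟩ := Finset.exists_subset_card_eq (show B + 1 ≤ T.card by omega)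
  obtain ⟨t, ht, hinj⟩ := hM T' hT'
  have hbt : eval y (R t (b t)) ≠ 0 := by
    have := right_ne_zero_of_mul hGy
    rw [prod_ne_zero_iff] at this
    exact this t (mem_range.2 ht)
  let g : Polynomial ℝ := ∑ k : Fin (B + 1), Polynomial.C (eval y (R t k)) * Polynomial.X ^ (k:ℕ)
  have hgdeg : g.natDegree ≤ B := by
    refine Polynomial.natDegree_sum_le_of_forall_le _ _ (fun k _ => ?_)
    exact (Polynomial.natDegree_C_mul_X_pow_le _ _).trans (Nat.lt_succ_iff.1 k.2)
  have hgcoef : g.coeff (b t : ℕ) = eval y (R t (b t)) := by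
    simp only [g]
    rw [Polynomial.finsetSum_coeff, Finset.sum_eq_single (b t)]
    · simp
    · intro j _ hj
      rw [Polynomial.coeff_C_mul, Polynomial.coeff_X_pow, if_neg, mul_zero]
      intro h
      exact hj (Fin.ext h.symm)
    · intro h
      exact absurd (mem_univ _) h
  have hgne : g ≠ 0 := by
    intro h
    rw [h, Polynomial.coeff_zero] at hgcoef
    exact hbt hgcoef.symm
  have hroots : ∀ x ∈ T', g.eval (∑ i, (t:ℝ) ^ idx i * x i) = 0 := by
    intro x hx
    obtain ⟨z, hz1, hz2⟩ := hT x (hT'T hx)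
    have h1 := congrArg (eval z) (hR t).2
    rw [map_sum, map_zero] at h1
    simp only [g]
    rw [Polynomial.eval_finsetSum, ← h1]
    refine Finset.sum_congr rfl (fun k _ => ?_)
    rw [map_mul, map_pow, Polynomial.eval_mul, Polynomial.eval_C, Polynomial.eval_pow,
      Polynomial.eval_X]
    congr 1
    · -- eval z (aeval u R) = eval y R
      have h2 : eval z (aeval u (R t k)) = eval (fun j => eval z (u j)) (R t k) := by
        have e : (eval z).comp (algebraMap ℝ (MvPolynomial σ ℝ)) = RingHom.id ℝ :=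
          RingHom.ext (fun r => by rw [RingHom.comp_apply, algebraMap_eq, eval_C]; rfl)
        rw [aeval_def, eval_eval₂, e]
        rfl
      rw [h2]
      congr 1
      exact congrArg _ (funext fun j => (hz2 j).symm)
    · congr 1
      rw [map_sum]
      refine Finset.sum_congr rfl (fun i _ => ?_)
      rw [map_mul, eval_C, eval_X, hz1]
  have hZ : (T'.image (fun x : ρ → ℝ => ∑ i, (t:ℝ) ^ idx i * x i)).card = B + 1 := by
    rw [card_image_of_injOn hinj, hT']
  have hle : (T'.image (fun x : ρ → ℝ => ∑ i, (t:ℝ) ^ idx i * x i)).card ≤ g.natDegree := by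
    refine Polynomial.card_le_degree_of_subset_roots (fun w hw => ?_)
    rw [Finset.mem_val, mem_image] at hw
    obtain ⟨x, hx, rfl⟩ := hw
    rw [Polynomial.mem_roots hgne]
    exact hroots x hx
  omega

end Pool.Agent.R98.EQ
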