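import Pool.Agent.R98.EQ.Stm

/-! Project EQ, piece D2 STRICT (helper180). -/

set_option autoImplicit false

namespace Pool.Agent.R98.EQ

open MvPolynomial Finset

namespace Strict

lemma fin_pos {κ : Type*} [Finite κ] (f : κ → ℝ) (hf : ∀ k, 0 < f k) :
    ∃ η : ℝ, 0 < η ∧ ∀ k, η ≤ f k := by
  rcases isEmpty_or_nonempty κ with h | h
  · exact ⟨1, one_pos, fun k => (h.false k).elim⟩
  · obtain ⟨k0, hk0⟩ := Finite.exists_min f
    exact ⟨f k0, hf k0, hk0⟩

lemma sign_near {σ : Type} [Fintype σ] (g : MvPolynomial σ ℝ) (p : σ → ℝ) (h : eval p g ≠ 0) :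
    ∃ η : ℝ, 0 < η ∧ ∀ q : σ → ℝ, (∀ v, |q v - p v| < η) →
      SignType.sign (eval q g) = SignType.sign (eval p g) := by
  have hc : Continuous fun q : σ → ℝ => eval q g := MvPolynomial.continuous_eval g
  rcases lt_or_gt_of_ne h with hn | hp
  · have ho : IsOpen {q : σ → ℝ | eval q g < 0} := isOpen_lt hc continuous_const
    obtain ⟨ε, hε, hb⟩ := Metric.isOpen_iff.1 ho p hn
    refine ⟨ε, hε, fun q hq => ?_⟩
    have : q ∈ Metric.ball p ε := by
      rw [Metric.mem_ball, dist_pi_lt_iff hε]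
      intro v; rw [Real.dist_eq]; exact hq v
    have h2 : eval q g < 0 := hb this
    rw [sign_neg h2, sign_neg hn]
  · have ho : IsOpen {q : σ → ℝ | 0 < eval q g} := isOpen_lt continuous_const hc
    obtain ⟨ε, hε, hb⟩ := Metric.isOpen_iff.1 ho p hp
    refine ⟨ε, hε, fun q hq => ?_⟩
    have : q ∈ Metric.ball p ε := by
      rw [Metric.mem_ball, dist_pi_lt_iff hε]
      intro v; rw [Real.dist_eq]; exact hq v
    have h2 : 0 < eval q g := hb this
    rw [sign_pos h2, sign_pos hp]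

lemma degSum_pair {σ : Type} (gs : List (MvPolynomial σ ℝ)) (δ : ℝ) :
    degSum (gs.flatMap fun g => [g + C δ, g - C δ]) ≤ 2 * degSum gs := by
  induction gs with
  | nil => simp [degSum]
  | cons g gs ih =>
    have h1 : (g + C δ).totalDegree ≤ g.totalDegree := by
      refine (totalDegree_add _ _).trans ?_
      simp
    have h2 : (g - C δ).totalDegree ≤ g.totalDegree := by
      refine (totalDegree_sub _ _).trans ?_
      simp
    have e1 : degSum ((g :: gs).flatMap fun g => [g + C δ, g - C δ]) =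
        (g + C δ).totalDegree + ((g - C δ).totalDegree +
          degSum (gs.flatMap fun g => [g + C δ, g - C δ])) := by
      simp [degSum]
    have e2 : degSum (g :: gs) = g.totalDegree + degSum gs := by simp [degSum]
    rw [e1, e2]
    omega

lemma sign_aux {u v δ : ℝ} (hδ : 0 < δ) (hu : u ≠ 0 → δ < |u|) (hv : v ≠ 0 → δ < |v|)
    (h1 : SignType.sign (u + δ) = SignType.sign (v + δ))
    (h2 : SignType.sign (u - δ) = SignType.sign (v - δ)) :
    SignType.sign u = SignType.sign v := by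
  have key : ∀ w : ℝ, (w ≠ 0 → δ < |w|) →
      (SignType.sign w = 1 → SignType.sign (w - δ) = 1) ∧
      (SignType.sign (w - δ) = 1 → SignType.sign w = 1) ∧
      (SignType.sign w = -1 → SignType.sign (w + δ) = -1) ∧
      (SignType.sign (w + δ) = -1 → SignType.sign w = -1) := by
    intro w hw
    refine ⟨fun h => ?_, fun h => ?_, fun h => ?_, fun h => ?_⟩
    · have hw0 : 0 < w := by rwa [sign_eq_one_iff] at h
      have := hw hw0.ne'
      rw [abs_of_pos hw0] at this
      rw [sign_eq_one_iff]; linarith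
    · rw [sign_eq_one_iff] at h ⊢; linarith
    · have hw0 : w < 0 := by rwa [sign_eq_neg_one_iff] at h
      have := hw hw0.ne
      rw [abs_of_neg hw0] at this
      rw [sign_eq_neg_one_iff]; linarith
    · rw [sign_eq_neg_one_iff] at h ⊢; linarith
  obtain ⟨a1, a2, a3, a4⟩ := key u hu
  obtain ⟨b1, b2, b3, b4⟩ := key v hv
  rcases lt_trichotomy u 0 with h | h | h
  · have hu1 : SignType.sign u = -1 := sign_neg h
    have : SignType.sign v = -1 := b4 (h1 ▸ a3 hu1)
    rw [hu1, this]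
  · have hu0 : SignType.sign u = 0 := by rw [h]; exact sign_zero
    rcases lt_trichotomy v 0 with h' | h' | h'
    · have hv1 : SignType.sign v = -1 := sign_neg h'
      have : SignType.sign u = -1 := a4 (h1.trans (b3 hv1))
      rw [hv1, this]
    · rw [h, h']
    · have hv1 : SignType.sign v = 1 := sign_pos h'
      have : SignType.sign u = 1 := a2 (h2.trans (b1 hv1))
      rw [hv1, this]
  · have hu1 : SignType.sign u = 1 := sign_pos h
    have : SignType.sign v = 1 := b2 (h2 ▸ a1 hu1)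
    rw [hu1, this]

section

variable {d k : ℕ} {n : Fin k → ℕ}

lemma one_list (x : ∀ i, Fin (n i) → Fin d → ℝ) (gs : List (MvPolynomial (Fin k × Fin d) ℝ)) :
    ∃ (gs' : List (MvPolynomial (Fin k × Fin d) ℝ)) (η : ℝ), 0 < η ∧ degSum gs' ≤ 2 * degSum gs ∧
      ∀ x' : ∀ i, Fin (n i) → Fin d → ℝ, (∀ i a j, |x' i a j - x i a j| < η) →
        (∀ g ∈ gs', ∀ a, eval (tup x' a) g ≠ 0) ∧
        ∀ a b, ¬ Crosses gs' (tup x' a) (tup x' b) → ¬ Crosses gs (tup x a) (tup x b) := by
  classical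
  -- choice of δ
  have f1 : Finite {g // g ∈ gs} := (List.finite_toSet gs).to_subtype
  obtain ⟨δ, hδ, hδ2⟩ := fin_pos (κ := {g // g ∈ gs} × (∀ i, Fin (n i)))
    (fun z => if eval (tup x z.2) z.1.1 = 0 then 1 else |eval (tup x z.2) z.1.1| / 2) (by
      intro z
      by_cases h : eval (tup x z.2) z.1.1 = 0
      · simp only [if_pos h]; exact one_pos
      · simp only [if_neg h]; exact half_pos (abs_pos.2 h))
  have hδ3 : ∀ g ∈ gs, ∀ a, eval (tup x a) g ≠ 0 → δ < |eval (tup x a) g| := by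
    intro g hg a h
    have := hδ2 ⟨⟨g, hg⟩, a⟩
    simp only [if_neg h] at this
    have h2 : 0 < |eval (tup x a) g| := abs_pos.2 h
    linarith
  set gs' := gs.flatMap fun g => [g + C δ, g - C δ] with hgs'
  have f2 : Finite {g // g ∈ gs'} := (List.finite_toSet gs').to_subtype
  -- nonvanishing at x
  have hnv : ∀ g ∈ gs', ∀ a, eval (tup x a) g ≠ 0 := by
    intro g hg a
    rw [hgs', List.mem_flatMap] at hg
    obtain ⟨g0, hg0, hg⟩ := hg
    have h3 := hδ3 g0 hg0 a
    simp only [List.mem_cons, List.not_mem_nil, or_false] at hg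
    rcases hg with rfl | rfl
    · rw [map_add, eval_C]
      by_cases h : eval (tup x a) g0 = 0
      · rw [h, zero_add]; exact hδ.ne'
      · intro h4
        have h5 : eval (tup x a) g0 = -δ := by linarith
        have := h3 h
        rw [h5, abs_neg, abs_of_pos hδ] at this
        exact lt_irrefl _ this
    · rw [map_sub, eval_C]
      by_cases h : eval (tup x a) g0 = 0
      · rw [h, zero_sub]; exact neg_ne_zero.2 hδ.ne'
      · intro h4
        have h5 : eval (tup x a) g0 = δ := by linarith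
        have := h3 h
        rw [h5, abs_of_pos hδ] at this
        exact lt_irrefl _ this
  -- choice of η
  have hs : ∀ z : {g // g ∈ gs'} × (∀ i, Fin (n i)), ∃ η : ℝ, 0 < η ∧
      ∀ q : Fin k × Fin d → ℝ, (∀ v, |q v - tup x z.2 v| < η) →
      SignType.sign (eval q z.1.1) = SignType.sign (eval (tup x z.2) z.1.1) :=
    fun z => sign_near z.1.1 (tup x z.2) (hnv z.1.1 z.1.2 z.2)
  choose ηf hηf hηf2 using hs
  obtain ⟨η, hη, hη2⟩ := fin_pos ηf hηf
  refine ⟨gs', η, hη, degSum_pair gs δ, fun x' hx' => ?_⟩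
  have hsign : ∀ g ∈ gs', ∀ a, SignType.sign (eval (tup x' a) g) =
      SignType.sign (eval (tup x a) g) := by
    intro g hg a
    refine hηf2 ⟨⟨g, hg⟩, a⟩ (tup x' a) fun v => ?_
    exact lt_of_lt_of_le (hx' v.1 (a v.1) v.2) (hη2 _)
  refine ⟨fun g hg a h => ?_, fun a b hab => ?_⟩
  · have h1 := hsign g hg a
    rw [h, sign_zero] at h1
    exact hnv g hg a (sign_eq_zero_iff.1 h1.symm)
  · rintro ⟨g, hg, hne⟩
    apply hne
    have m1 : g + C δ ∈ gs' := by
      rw [hgs', List.mem_flatMap]; exact ⟨g, hg, by simp⟩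
    have m2 : g - C δ ∈ gs' := by
      rw [hgs', List.mem_flatMap]; exact ⟨g, hg, by simp⟩
    have e : ∀ g' ∈ gs', SignType.sign (eval (tup x a) g') = SignType.sign (eval (tup x b) g') := by
      intro g' hg'
      rw [← hsign g' hg' a, ← hsign g' hg' b]
      by_contra hcon
      exact hab ⟨g', hg', hcon⟩
    have e1 := e _ m1
    have e2 := e _ m2
    have p1 : ∀ a, eval (tup x a) (g + C δ) = eval (tup x a) g + δ := fun a => by simp
    have p2 : ∀ a, eval (tup x a) (g - C δ) = eval (tup x a) g - δ := fun a => by simp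
    rw [p1, p1] at e1
    rw [p2, p2] at e2
    exact sign_aux hδ (hδ3 g hg a) (hδ3 g hg b) e1 e2

end

end Strict

theorem strict (hG : GenStmt) : StrictStmt := by
  classical
  intro d k D hd n x
  let R := (∀ i, Fin (n i)) → (∀ i, Fin (n i)) → Prop
  have h1 : ∀ r : R, ∃ η : ℝ, 0 < η ∧ ∀ x' : ∀ i, Fin (n i) → Fin d → ℝ,
      (∀ i a j, |x' i a j - x i a j| < η) →
      ∀ gs : List (MvPolynomial (Fin k × Fin d) ℝ), degSum gs ≤ D →
      (∀ a b, r a b ↔ Crosses gs (tup x a) (tup x b)) →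
      ∃ gs' : List (MvPolynomial (Fin k × Fin d) ℝ), degSum gs' ≤ 2 * D ∧
      (∀ g ∈ gs', ∀ a, eval (tup x' a) g ≠ 0) ∧
      ∀ a b, ¬ Crosses gs' (tup x' a) (tup x' b) → ¬ r a b := by
    intro r
    by_cases h : ∃ gs : List (MvPolynomial (Fin k × Fin d) ℝ), degSum gs ≤ D ∧
      (∀ a b, r a b ↔ Crosses gs (tup x a) (tup x b))
    · obtain ⟨gs, hgs, hr⟩ := h
      obtain ⟨gs', η, hη, hdeg, hx⟩ := Strict.one_list x gs
      refine ⟨η, hη, fun x' hx' _ _ _ => ⟨gs', by omega, (hx x' hx').1, fun a b hab => ?_⟩⟩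
      rw [hr a b]
      exact (hx x' hx').2 a b hab
    · refine ⟨1, one_pos, fun x' _ gs hgs hr => ?_⟩
      exact (h ⟨gs, hgs, hr⟩).elim
  choose ηf hηf hηf2 using h1
  have : Finite R := by
    show Finite ((∀ i, Fin (n i)) → (∀ i, Fin (n i)) → Prop)
    infer_instance
  obtain ⟨η, hη, hη2⟩ := Strict.fin_pos ηf hηf
  have h2 : ∀ i, ∃ x' : Fin (n i) → Fin d → ℝ, Generic d x' ∧ ∀ a j, |x' a j - x i a j| < η :=
    fun i => hG d hd (Fin (n i)) (x i) η hη
  choose x' hx' hx'2 using h2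
  refine ⟨x', hx', fun gs hgs => ?_⟩
  let r : R := fun a b => Crosses gs (tup x a) (tup x b)
  obtain ⟨gs', h3, h4, h5⟩ := hηf2 r x' (fun i a j => lt_of_lt_of_le (hx'2 i a j) (hη2 r)) gs hgs
    (fun a b => Iff.rfl)
  exact ⟨gs', h3, h4, h5⟩

end Pool.Agent.R98.EQ
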