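import Pool.Agent.R98.EQ.Stm

set_option autoImplicit false

namespace Pool.Agent.R98.EQ

open MvPolynomial Finset

namespace VCp

/-- A nontrivial relation with a positive entry. -/
theorem relation {ι τ : Type} [Fintype τ] (s : Finset ι) (M : ι → τ → ℝ)
    (h : Fintype.card τ < s.card) :
    ∃ c : ι → ℝ, (∀ e, ∑ i ∈ s, c i * M i e = 0) ∧ ∃ i ∈ s, 0 < c i := by
  classical
  let f : (s → ℝ) →ₗ[ℝ] (τ → ℝ) :=
    { toFun := fun c e => ∑ i : s, c i * M i e
      map_add' := by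
        intro c c'
        funext e
        simp only [Pi.add_apply, add_mul, Finset.sum_add_distrib]
      map_smul' := by
        intro a c
        funext e
        simp only [Pi.smul_apply, smul_eq_mul, RingHom.id_apply, Finset.mul_sum, mul_assoc] }
  have hker : LinearMap.ker f ≠ ⊥ := by
    apply LinearMap.ker_ne_bot_of_finrank_lt
    rw [Module.finrank_fintype_fun_eq_card, Module.finrank_fintype_fun_eq_card, Fintype.card_coe]
    exact h
  obtain ⟨c, hc, hc0⟩ := (Submodule.ne_bot_iff _).1 hker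
  have hc1 : ∀ e, ∑ i : s, c i * M i e = 0 := fun e => congrFun (LinearMap.mem_ker.1 hc) e
  have hex : ∃ c' : s → ℝ, (∀ e, ∑ i : s, c' i * M i e = 0) ∧ ∃ i, 0 < c' i := by
    obtain ⟨i, hi⟩ : ∃ i, c i ≠ 0 := by
      by_contra hcon
      push Not at hcon
      exact hc0 (funext hcon)
    rcases lt_or_gt_of_ne hi with h1 | h1
    · refine ⟨fun i => - c i, fun e => ?_, i, by simpa using h1⟩
      have := hc1 e
      simp only [neg_mul, Finset.sum_neg_distrib, this, neg_zero]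
    · exact ⟨c, hc1, i, h1⟩
  obtain ⟨c', h1, i, hi⟩ := hex
  refine ⟨fun j => if hj : j ∈ s then c' ⟨j, hj⟩ else 0, fun e => ?_, i.1, i.2, ?_⟩
  · rw [← h1 e, ← Finset.sum_coe_sort s]
    refine Finset.sum_congr rfl fun j _ => ?_
    simp
  · simpa using hi

theorem shat {ι : Type} [DecidableEq ι] (d D : ℕ) (x : ι → Fin d → ℝ) (𝒜 : Finset (Finset ι))
    (h𝒜 : ∀ S ∈ 𝒜, ∃ g : MvPolynomial (Fin d) ℝ, g.totalDegree ≤ D ∧
      ∀ i, i ∈ S ↔ 0 < eval (x i) g) (s : Finset ι) (hs : 𝒜.Shatters s) :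
    s.card ≤ (D + 1) ^ d := by
  by_contra hcon
  push Not at hcon
  obtain ⟨c, hc, i0, hi0, hpos⟩ := relation (τ := Fin d → Fin (D + 1)) s
    (fun i e => ∏ j, x i j ^ (e j : ℕ)) (by
      rw [Fintype.card_fun, Fintype.card_fin, Fintype.card_fin]; exact hcon)
  obtain ⟨u, hu, hsu⟩ := hs (Finset.filter_subset (fun i => 0 < c i) s)
  obtain ⟨g, hg, hgu⟩ := h𝒜 u hu
  have hiff : ∀ i ∈ s, (0 < eval (x i) g ↔ 0 < c i) := by
    intro i hi
    rw [← hgu]
    constructor
    · intro h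
      have : i ∈ s ∩ u := Finset.mem_inter.2 ⟨hi, h⟩
      rw [hsu] at this
      exact (Finset.mem_filter.1 this).2
    · intro h
      have : i ∈ s ∩ u := by rw [hsu]; exact Finset.mem_filter.2 ⟨hi, h⟩
      exact (Finset.mem_inter.1 this).2
  have hsum : ∑ i ∈ s, c i * eval (x i) g = 0 := by
    have h1 : ∀ i ∈ s, c i * eval (x i) g =
        ∑ m ∈ g.support, g.coeff m * (c i * ∏ j, x i j ^ m j) := by
      intro i _
      rw [MvPolynomial.eval_eq', Finset.mul_sum]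
      exact Finset.sum_congr rfl fun m _ => by ring
    rw [Finset.sum_congr rfl h1, Finset.sum_comm]
    refine Finset.sum_eq_zero fun m hm => ?_
    rw [← Finset.mul_sum]
    have h2 : ∀ j, m j < D + 1 := by
      intro j
      have h3 := MvPolynomial.monomial_le_degreeOf j hm
      have h4 := MvPolynomial.degreeOf_le_totalDegree g j
      omega
    have h5 := hc (fun j => ⟨m j, h2 j⟩)
    simp only at h5
    rw [h5, mul_zero]
  have hnn : ∀ i ∈ s, 0 ≤ c i * eval (x i) g := by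
    intro i hi
    by_cases h : 0 < c i
    · exact (mul_pos h ((hiff i hi).2 h)).le
    · have h' : ¬ 0 < eval (x i) g := fun hh => h ((hiff i hi).1 hh)
      exact mul_nonneg_of_nonpos_of_nonpos (not_lt.1 h) (not_lt.1 h')
  have h0 := (Finset.sum_eq_zero_iff_of_nonneg hnn).1 hsum i0 hi0
  have h1 := mul_pos hpos ((hiff i0 hi0).2 hpos)
  exact absurd h0 h1.ne'

theorem binsum (n N : ℕ) (ρ : ℝ) (hρ : 1 ≤ ρ) :
    ((∑ k ∈ Finset.range (N + 1), n.choose k : ℕ) : ℝ) ≤ ρ ^ N * (1 + 1 / ρ) ^ n := by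
  have hρ0 : 0 < ρ := by linarith
  have h1 : (1 + 1 / ρ) ^ n = ∑ k ∈ Finset.range (n + 1), (1 / ρ) ^ k * (n.choose k : ℝ) := by
    rw [add_comm, add_pow]
    refine Finset.sum_congr rfl fun k _ => ?_
    rw [one_pow, mul_one]
  rw [h1, Finset.mul_sum]
  push_cast
  -- extend both sums to a common range
  have h2 : ∑ k ∈ Finset.range (N + 1), (n.choose k : ℝ) ≤
      ∑ k ∈ Finset.range (N + 1), ρ ^ N * ((1 / ρ) ^ k * (n.choose k : ℝ)) := by
    refine Finset.sum_le_sum fun k hk => ?_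
    have hk' : k ≤ N := by
      have := Finset.mem_range.1 hk
      omega
    have h3 : ρ ^ N * (1 / ρ) ^ k = ρ ^ (N - k) := by
      rw [one_div, inv_pow, ← div_eq_mul_inv, pow_sub₀ _ hρ0.ne' hk', div_eq_mul_inv]
    rw [← mul_assoc, h3]
    have h4 : 1 ≤ ρ ^ (N - k) := one_le_pow₀ hρ
    have h5 : (0 : ℝ) ≤ (n.choose k : ℝ) := Nat.cast_nonneg _
    nlinarith
  refine h2.trans ?_
  rcases le_total N n with h | h
  · refine Finset.sum_le_sum_of_subset_of_nonneg (Finset.range_subset_range.2 (by omega)) ?_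
    intro k _ _
    positivity
  · have h6 : ∑ k ∈ Finset.range (N + 1), ρ ^ N * ((1 / ρ) ^ k * (n.choose k : ℝ)) =
        ∑ k ∈ Finset.range (n + 1), ρ ^ N * ((1 / ρ) ^ k * (n.choose k : ℝ)) := by
      symm
      refine Finset.sum_subset (Finset.range_subset_range.2 (by omega)) ?_
      intro k _ hk
      have : n < k := by
        by_contra hc
        exact hk (Finset.mem_range.2 (by omega))
      rw [Nat.choose_eq_zero_of_lt this]
      simp
    exact h6.le

theorem arith (d C1 n L D : ℕ) (hd : 2 ≤ d) (hD : 1 ≤ D) (hDL : D ≤ 2 ^ L)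
    (hn : n ≤ C1 * 2 ^ (d * L)) :
    (∑ k ∈ Finset.range ((D + 1) ^ d + 1), n.choose k) ≤
      2 ^ (2 * (2 ^ d + C1) * D * 2 ^ ((d - 1) * L)) := by
  set N := (D + 1) ^ d with hN
  set X : ℕ := D * 2 ^ ((d - 1) * L) with hX
  have hD0 : (0 : ℝ) < D := by exact_mod_cast hD
  set ρ : ℝ := (2 : ℝ) ^ L / D with hρ
  have hρ1 : 1 ≤ ρ := by
    rw [hρ, le_div_iff₀ hD0, one_mul]
    exact_mod_cast hDL
  have hρ0 : 0 < ρ := by linarith
  have h1 := binsum n N ρ hρ1
  have h2 : ρ ^ N ≤ Real.exp (ρ * N) := by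
    rw [mul_comm, Real.exp_nat_mul]
    exact pow_le_pow_left₀ hρ0.le (by have := Real.add_one_le_exp ρ; linarith) _
  have h3 : (1 + 1 / ρ) ^ n ≤ Real.exp (n / ρ) := by
    have : Real.exp (n / ρ) = Real.exp (1 / ρ) ^ n := by
      rw [← Real.exp_nat_mul]
      congr 1
      ring
    rw [this]
    exact pow_le_pow_left₀ (by positivity) (by have := Real.add_one_le_exp (1 / ρ); linarith) _
  obtain ⟨e, he⟩ : ∃ e, d = e + 2 := ⟨d - 2, by omega⟩
  have h4 : ρ * N ≤ 2 ^ d * X := by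
    have a1 : (N : ℝ) ≤ (2 * D) ^ d := by
      rw [hN]
      push_cast
      have : (1 : ℝ) ≤ D := by exact_mod_cast hD
      exact pow_le_pow_left₀ (by positivity) (by linarith) _
    have a2 : ρ ≤ ρ ^ (d - 1) := by
      rw [he]
      exact le_self_pow₀ hρ1 (by omega)
    calc ρ * N ≤ ρ ^ (d - 1) * (2 * D) ^ d := mul_le_mul a2 a1 (by positivity) (by positivity)
      _ = 2 ^ d * X := by
        rw [hX, hρ, div_pow, mul_pow]
        push_cast
        rw [← pow_mul, mul_comm L (d - 1)]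
        have : (D : ℝ) ^ d = D ^ (d - 1) * D := by
          rw [← pow_succ]
          congr 1
          omega
        rw [this]
        field_simp
  have h5 : (n : ℝ) / ρ ≤ C1 * X := by
    rw [div_le_iff₀ hρ0, hρ, hX]
    have a1 : (n : ℝ) ≤ C1 * 2 ^ (d * L) := by exact_mod_cast hn
    refine a1.trans (le_of_eq ?_)
    push_cast
    have : (2 : ℝ) ^ (d * L) = 2 ^ ((d - 1) * L) * 2 ^ L := by
      rw [← pow_add]
      congr 1
      rw [he]
      simp only [show e + 2 - 1 = e + 1 from rfl]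
      ring
    rw [this]
    field_simp
  have h6 : ρ ^ N * (1 + 1 / ρ) ^ n ≤ Real.exp (((2 ^ d + C1) * X : ℕ) : ℝ) := by
    calc ρ ^ N * (1 + 1 / ρ) ^ n ≤ Real.exp (ρ * N) * Real.exp (n / ρ) :=
          mul_le_mul h2 h3 (by positivity) (Real.exp_pos _).le
      _ = Real.exp (ρ * N + n / ρ) := (Real.exp_add _ _).symm
      _ ≤ _ := by
        apply Real.exp_le_exp.2
        push_cast
        linarith
  have h7 : Real.exp (((2 ^ d + C1) * X : ℕ) : ℝ) ≤ (4 : ℝ) ^ ((2 ^ d + C1) * X) := by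
    have : Real.exp (((2 ^ d + C1) * X : ℕ) : ℝ) = Real.exp 1 ^ ((2 ^ d + C1) * X) := by
      rw [← Real.exp_nat_mul, mul_one]
    rw [this]
    exact pow_le_pow_left₀ (Real.exp_pos _).le (by linarith [Real.exp_one_lt_d9]) _
  have h8 : (4 : ℝ) ^ ((2 ^ d + C1) * X) =
      ((2 ^ (2 * (2 ^ d + C1) * D * 2 ^ ((d - 1) * L)) : ℕ) : ℝ) := by
    rw [show (4 : ℝ) = 2 ^ 2 by norm_num, ← pow_mul]
    push_cast
    congr 1
    rw [hX]
    ring
  have h9 := ((h1.trans h6).trans h7).trans h8.le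
  exact_mod_cast h9

end VCp

theorem vc : VCStmt := by
  classical
  intro d C1 hd
  refine ⟨2 * (2 ^ d + C1), ?_⟩
  intro ι _ x L D hD hDL hn
  set 𝒮 : Set (Finset ι) := {S : Finset ι | ∃ g : MvPolynomial (Fin d) ℝ, g.totalDegree ≤ D ∧
    ∀ i, i ∈ S ↔ 0 < eval (x i) g} with h𝒮
  have hfin : 𝒮.Finite := Set.toFinite _
  rw [Set.ncard_eq_toFinset_card 𝒮 hfin]
  set 𝒜 := hfin.toFinset with h𝒜
  have hmem : ∀ S ∈ 𝒜, ∃ g : MvPolynomial (Fin d) ℝ, g.totalDegree ≤ D ∧
      ∀ i, i ∈ S ↔ 0 < eval (x i) g := by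
    intro S hS
    rw [h𝒜, Set.Finite.mem_toFinset] at hS
    exact hS
  have h1 : 𝒜.card ≤ ∑ k ∈ Finset.Iic 𝒜.vcDim, (Fintype.card ι).choose k :=
    (Finset.card_le_card_shatterer 𝒜).trans Finset.card_shatterer_le_sum_vcDim
  have h2 : 𝒜.vcDim ≤ (D + 1) ^ d := by
    unfold Finset.vcDim
    apply Finset.sup_le
    intro s hs
    exact VCp.shat d D x 𝒜 hmem s (Finset.mem_shatterer.1 hs)
  have h3 : ∑ k ∈ Finset.Iic 𝒜.vcDim, (Fintype.card ι).choose k ≤
      ∑ k ∈ Finset.range ((D + 1) ^ d + 1), (Fintype.card ι).choose k := by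
    apply Finset.sum_le_sum_of_subset
    intro k hk
    rw [Finset.mem_Iic] at hk
    exact Finset.mem_range.2 (by omega)
  exact (h1.trans h3).trans (VCp.arith d C1 _ L D hd hD hDL hn)

end Pool.Agent.R98.EQ
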