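import Pool.Agent.R98.EQ.Stm

/-!
Project EQ, piece C2 WELZL: an abstract path of low crossing number by reweighting.
-/

set_option autoImplicit false

namespace Pool.Agent.R98.EQ

open Finset

open scoped Classical

namespace Wz

section

variable {X κ : Type} (cr : κ → X → X → Prop)

/-- number of crossed consecutive pairs of a list -/
noncomputable def cn (k : κ) : List X → ℕ
  | [] => 0
  | [_] => 0
  | x :: y :: l => (if cr k x y then 1 else 0) + cn k (y :: l)

theorem cn_nil (k : κ) : cn cr k [] = 0 := rfl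

theorem cn_one (k : κ) (x : X) : cn cr k [x] = 0 := rfl

theorem cn_cons (k : κ) (x y : X) (l : List X) :
    cn cr k (x :: y :: l) = (if cr k x y then 1 else 0) + cn cr k (y :: l) := rfl

theorem cn_split (k : κ) (x : X) (m : List X) : ∀ l : List X,
    cn cr k (l ++ x :: m) = cn cr k (l ++ [x]) + cn cr k (x :: m)
  | [] => by simp [cn_one]
  | [y] => by
    simp only [List.cons_append, List.nil_append, cn_cons, cn_one]
    ring
  | y :: z :: l => by
    have ih := cn_split k x m (z :: l)
    simp only [List.cons_append] at ih ⊢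
    rw [cn_cons, cn_cons, ih]
    ring

theorem cn_reverse (hs : ∀ k i j, cr k i j → cr k j i) (k : κ) : ∀ l : List X,
    cn cr k l.reverse = cn cr k l
  | [] => rfl
  | [x] => rfl
  | x :: y :: l => by
    have ih := cn_reverse hs k (y :: l)
    have h1 : (x :: y :: l).reverse = l.reverse ++ y :: [x] := by simp
    have h2 : (y :: l).reverse = l.reverse ++ [y] := by simp
    rw [h1, cn_split, ← h2, ih, cn_cons, cn_cons, cn_one]
    have : cr k y x ↔ cr k x y := ⟨hs k y x, hs k x y⟩
    simp only [this]
    ring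

theorem cn_append_le (k : κ) (B : List X) : ∀ A : List X,
    cn cr k (A ++ B) ≤ cn cr k A + cn cr k B + 1
  | [] => by simp [cn_nil]
  | [x] => by
    cases B with
    | nil => simp [cn_nil, cn_one]
    | cons y B =>
      simp only [List.cons_append, List.nil_append, cn_cons, cn_one]
      split_ifs <;> omega
  | x :: y :: A => by
    have ih := cn_append_le k B (y :: A)
    simp only [List.cons_append] at ih ⊢
    rw [cn_cons, cn_cons]
    omega

theorem cn_filter (k : κ) : ∀ l : List X,
    (univ.filter (fun i : Fin l.length => ∃ h : (i : ℕ) + 1 < l.length,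
      cr k (l.get i) (l.get ⟨i + 1, h⟩))).card ≤ cn cr k l
  | [] => by simp [cn_nil]
  | [x] => by
    rw [cn_one, Nat.le_zero, Finset.card_eq_zero, Finset.filter_eq_empty_iff]
    rintro i - ⟨h, -⟩
    simp at h
  | x :: y :: l => by
    have ih := cn_filter k (y :: l)
    rw [cn_cons]
    have h := Fin.card_filter_univ_succ (n := (y :: l).length)
      (fun i : Fin ((y :: l).length + 1) => ∃ h : (i : ℕ) + 1 < (x :: y :: l).length,
        cr k ((x :: y :: l).get i) ((x :: y :: l).get ⟨i + 1, h⟩))
    have h' : (univ.filter (fun i : Fin (x :: y :: l).length =>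
        ∃ h : (i : ℕ) + 1 < (x :: y :: l).length,
        cr k ((x :: y :: l).get i) ((x :: y :: l).get ⟨i + 1, h⟩))).card ≤
        (if cr k x y then 1 else 0) +
        (univ.filter (fun i : Fin (y :: l).length => ∃ h : (i : ℕ) + 1 < (y :: l).length,
          cr k ((y :: l).get i) ((y :: l).get ⟨i + 1, h⟩))).card := by
      refine h.le.trans ?_
      have e1 : (univ.filter (fun i : Fin (y :: l).length =>
          ∃ h : ((i.succ : Fin ((y :: l).length + 1)) : ℕ) + 1 < (x :: y :: l).length,
          cr k ((x :: y :: l).get i.succ) ((x :: y :: l).get ⟨i.succ + 1, h⟩))).card =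
          (univ.filter (fun i : Fin (y :: l).length => ∃ h : (i : ℕ) + 1 < (y :: l).length,
          cr k ((y :: l).get i) ((y :: l).get ⟨i + 1, h⟩))).card := by
        congr 1
        apply Finset.filter_congr
        intro i _
        constructor
        · rintro ⟨h, h2⟩
          refine ⟨by simpa using h, ?_⟩
          exact h2
        · rintro ⟨h, h2⟩
          refine ⟨by simpa using h, ?_⟩
          exact h2
      by_cases hxy : cr k x y
      · rw [if_pos hxy]
        split_ifs
        · rw [e1]; omega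
        · rw [e1]; omega
      · rw [if_neg hxy]
        rw [if_neg]
        · rw [e1]; omega
        · rintro ⟨h, h2⟩
          exact hxy h2
    omega

/-- the list of a path -/
def pl (p : X × List X) : List X := p.1 :: p.2

/-- number of crossed consecutive pairs of a family of paths -/
noncomputable def tot (k : κ) (P : List (X × List X)) : ℕ := (P.map fun p => cn cr k (pl p)).sum

theorem tot_perm (k : κ) {P Q : List (X × List X)} (h : P.Perm Q) : tot cr k P = tot cr k Q :=
  (h.map _).sum_eq

theorem tot_cons (k : κ) (p : X × List X) (P : List (X × List X)) :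
    tot cr k (p :: P) = cn cr k (pl p) + tot cr k P := by
  simp [tot]

theorem cn_flat (k : κ) : ∀ P : List (X × List X),
    cn cr k (P.flatMap pl) ≤ tot cr k P + P.length
  | [] => by simp [cn_nil]
  | p :: P => by
    have ih := cn_flat k P
    rw [List.flatMap_cons, tot_cons, List.length_cons]
    have := cn_append_le cr k (P.flatMap pl) (pl p)
    omega

theorem fst_sub : ∀ P : List (X × List X), (P.map Prod.fst).Sublist (P.flatMap pl)
  | [] => by simp
  | p :: P => by
    have ih := fst_sub P
    rw [List.flatMap_cons, List.map_cons, pl, List.cons_append]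
    exact (ih.trans (List.sublist_append_right _ _)).cons_cons _

end

section

variable {X κ : Type} [Fintype X] [Fintype κ] (cr : κ → X → X → Prop)

/-- total weight -/
noncomputable def W (P : List (X × List X)) : ℝ := ∑ k, (2 : ℝ) ^ tot cr k P

omit [Fintype X] in
theorem W_nonneg (P : List (X × List X)) : 0 ≤ W cr P :=
  Finset.sum_nonneg fun _ _ => by positivity

/-- one step of the reweighting process -/
theorem step (hs : ∀ k i j, cr k i j → cr k j i) (K D L m : ℕ)
    (H : ∀ Y : Finset X, m ≤ Y.card → ∀ w : κ → ℝ, (∀ k, 0 ≤ w k) →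
      ∃ i ∈ Y, ∃ j ∈ Y, i ≠ j ∧
        (∑ k ∈ univ.filter (fun k => cr k i j), w k) * 2 ^ L ≤ K * D * ∑ k, w k)
    (P : List (X × List X)) (hP : (P.flatMap pl).Perm (univ : Finset X).toList)
    (hm : m ≤ P.length) :
    ∃ P' : List (X × List X), (P'.flatMap pl).Perm (univ : Finset X).toList ∧
      P'.length + 1 = P.length ∧ W cr P' ≤ W cr P * (1 + K * D / 2 ^ L) := by
  have hnd : (P.flatMap pl).Nodup := hP.nodup_iff.mpr (Finset.nodup_toList _)
  have hnd1 : (P.map Prod.fst).Nodup := (fst_sub P).nodup hnd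
  obtain ⟨i, hi, j, hj, hij, hw⟩ := H (P.map Prod.fst).toFinset
    (by rw [List.toFinset_card_of_nodup hnd1, List.length_map]; exact hm)
    (fun k => (2 : ℝ) ^ tot cr k P) (fun k => by positivity)
  rw [List.mem_toFinset, List.mem_map] at hi hj
  obtain ⟨p, hp, rfl⟩ := hi
  obtain ⟨q, hq, rfl⟩ := hj
  have hpq : q ≠ p := by
    rintro rfl
    exact hij rfl
  have hq' : q ∈ P.erase p := (List.mem_erase_of_ne hpq).mpr hq
  have h1 : P.Perm (p :: q :: (P.erase p).erase q) :=
    (List.perm_cons_erase hp).trans ((List.perm_cons_erase hq').cons p)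
  set P'' := (P.erase p).erase q with hP''
  obtain ⟨x, l, hxl⟩ : ∃ x l, (pl p).reverse ++ pl q = x :: l := by
    apply List.exists_cons_of_ne_nil
    simp [pl]
  refine ⟨(x, l) :: P'', ?_, ?_, ?_⟩
  · refine List.Perm.trans ?_ hP
    refine List.Perm.trans ?_ (h1.flatMap_right pl).symm
    rw [List.flatMap_cons, List.flatMap_cons, List.flatMap_cons]
    have : pl (x, l) = (pl p).reverse ++ pl q := by rw [hxl]; rfl
    rw [this, List.append_assoc]
    exact (List.reverse_perm _).append_right _
  · rw [h1.length_eq]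
    simp
  · have hcn : ∀ k, tot cr k ((x, l) :: P'') = tot cr k P + if cr k p.1 q.1 then 1 else 0 := by
      intro k
      rw [tot_perm cr k h1, tot_cons, tot_cons, tot_cons]
      have e1 : pl (x, l) = (pl p).reverse ++ pl q := by rw [hxl]; rfl
      have e2 : (pl p).reverse ++ pl q = p.2.reverse ++ p.1 :: (q.1 :: q.2) := by simp [pl]
      have e3 : p.2.reverse ++ [p.1] = (pl p).reverse := by simp [pl]
      rw [e1, e2, cn_split, e3, cn_reverse cr hs, cn_cons]
      have e4 : q.1 :: q.2 = pl q := rfl
      rw [e4]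
      ring
    have hW : W cr ((x, l) :: P'') = W cr P +
        ∑ k ∈ univ.filter (fun k => cr k p.1 q.1), (2 : ℝ) ^ tot cr k P := by
      rw [W, W, Finset.sum_filter, ← Finset.sum_add_distrib]
      refine Finset.sum_congr rfl fun k _ => ?_
      rw [hcn k]
      split_ifs
      · rw [pow_succ]; ring
      · simp
    rw [hW, mul_add, mul_one]
    have h2 : (0 : ℝ) < 2 ^ L := by positivity
    have h3 : (∑ k ∈ univ.filter (fun k => cr k p.1 q.1), (2 : ℝ) ^ tot cr k P) ≤
        W cr P * (K * D / 2 ^ L) := by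
      rw [← mul_div_assoc, le_div_iff₀ h2]
      refine hw.trans (le_of_eq ?_)
      rw [W]
      ring
    linarith

/-- repeated steps -/
theorem steps (hs : ∀ k i j, cr k i j → cr k j i) (K D L m : ℕ)
    (H : ∀ Y : Finset X, m ≤ Y.card → ∀ w : κ → ℝ, (∀ k, 0 ≤ w k) →
      ∃ i ∈ Y, ∃ j ∈ Y, i ≠ j ∧
        (∑ k ∈ univ.filter (fun k => cr k i j), w k) * 2 ^ L ≤ K * D * ∑ k, w k)
    (P : List (X × List X)) (hP : (P.flatMap pl).Perm (univ : Finset X).toList) (n : ℕ) :
    ∃ P' : List (X × List X), (P'.flatMap pl).Perm (univ : Finset X).toList ∧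
      P'.length ≤ max m (P.length - n) ∧ W cr P' ≤ W cr P * (1 + K * D / 2 ^ L) ^ n := by
  induction n with
  | zero => exact ⟨P, hP, by simp, by simp⟩
  | succ n ih =>
    obtain ⟨Q, hQ, hQl, hQW⟩ := ih
    have h1 : (1 : ℝ) ≤ 1 + K * D / 2 ^ L := by
      have : (0 : ℝ) ≤ K * D / 2 ^ L := by positivity
      linarith
    by_cases hlen : Q.length ≤ m
    · refine ⟨Q, hQ, hlen.trans (le_max_left _ _), hQW.trans ?_⟩
      rw [pow_succ]
      have h2 : 0 ≤ W cr P * (1 + K * D / 2 ^ L) ^ n :=
        mul_nonneg (W_nonneg cr P) (by positivity)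
      nlinarith
    · push Not at hlen
      obtain ⟨Q', hQ', hl', hW'⟩ := step cr hs K D L m H Q hQ hlen.le
      refine ⟨Q', hQ', ?_, ?_⟩
      · omega
      · refine hW'.trans ?_
        rw [pow_succ, ← mul_assoc]
        exact mul_le_mul_of_nonneg_right hQW (by linarith)

end

theorem exp_pow_le (t : ℝ) (n N : ℕ) (ht : 0 ≤ t) (h : t * n = N) : (1 + t) ^ n ≤ 4 ^ N := by
  have h1 : (1 + t) ^ n ≤ Real.exp t ^ n :=
    pow_le_pow_left₀ (by linarith) (by rw [add_comm]; exact Real.add_one_le_exp t) n
  have h2 : Real.exp t ^ n = Real.exp 1 ^ N := by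
    rw [← Real.exp_nat_mul, ← Real.exp_nat_mul]
    congr 1
    rw [mul_comm, h, mul_one]
  have h3 : Real.exp 1 ≤ 4 := by
    have := Real.exp_one_lt_d9
    linarith
  rw [h2] at h1
  exact h1.trans (pow_le_pow_left₀ (Real.exp_pos _).le h3 N)

end Wz

open Wz

theorem welzl : WelzlStmt := by
  intro d K hd hK
  refine ⟨2 * (K ^ 2 * 2 ^ d) + K * 2 ^ d + 1, ?_⟩
  intro D L₁ hD X κ _ _ cr hs H hcard
  -- it suffices to find a good list of paths
  suffices hP : ∃ P : List (X × List X), (P.flatMap pl).Perm (univ : Finset X).toList ∧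
      P.length ≤ K * 2 ^ d * D ^ d ∧
      W cr P ≤ Fintype.card κ * 4 ^ (K ^ 2 * 2 ^ d * D * 2 ^ ((d - 1) * L₁)) by
    obtain ⟨P, hP, hlen, hW⟩ := hP
    set l := P.flatMap pl with hl
    have hnd : l.Nodup := hP.nodup_iff.mpr (Finset.nodup_toList _)
    have hmem : ∀ x, x ∈ l := fun x => hP.mem_iff.mpr (by simp)
    have hll : l.length = Fintype.card X := by
      rw [hP.length_eq, Finset.length_toList, Finset.card_univ]
    have key : ∀ k, cn cr k l ≤ (2 * (K ^ 2 * 2 ^ d) + K * 2 ^ d + 1) *
        (Nat.log 2 (Fintype.card κ) + D * 2 ^ ((d - 1) * L₁) + D ^ d) := by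
      intro k
      have h1 := cn_flat cr k P
      rw [← hl] at h1
      have h2 : (2 : ℝ) ^ tot cr k P ≤ W cr P :=
        Finset.single_le_sum (f := fun k => (2 : ℝ) ^ tot cr k P) (fun _ _ => by positivity)
          (Finset.mem_univ k)
      have h3 : Fintype.card κ ≤ 2 ^ (Nat.log 2 (Fintype.card κ) + 1) :=
        (Nat.lt_pow_succ_log_self (by norm_num) _).le
      have h4 : (2 : ℝ) ^ tot cr k P ≤ 2 ^ (Nat.log 2 (Fintype.card κ) + 1 +
          2 * (K ^ 2 * 2 ^ d * D * 2 ^ ((d - 1) * L₁))) := by
        refine (h2.trans hW).trans ?_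
        have h6 : (2 : ℝ) ^ (Nat.log 2 (Fintype.card κ) + 1 +
            2 * (K ^ 2 * 2 ^ d * D * 2 ^ ((d - 1) * L₁))) =
            2 ^ (Nat.log 2 (Fintype.card κ) + 1) *
              4 ^ (K ^ 2 * 2 ^ d * D * 2 ^ ((d - 1) * L₁)) := by
          rw [pow_add _ (Nat.log 2 (Fintype.card κ) + 1), pow_mul 2 2]
          norm_num
        rw [h6]
        have h5 : (Fintype.card κ : ℝ) ≤ 2 ^ (Nat.log 2 (Fintype.card κ) + 1) := by
          exact_mod_cast h3
        exact mul_le_mul_of_nonneg_right h5 (by positivity)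
      have h7 : tot cr k P ≤ Nat.log 2 (Fintype.card κ) + 1 +
          2 * (K ^ 2 * 2 ^ d * D * 2 ^ ((d - 1) * L₁)) :=
        (pow_le_pow_iff_right₀ (by norm_num : (1 : ℝ) < 2)).mp h4
      have h8 : 1 ≤ D * 2 ^ ((d - 1) * L₁) := Nat.one_le_iff_ne_zero.mpr (by positivity)
      have h9 : 1 ≤ K * 2 ^ d := Nat.one_le_iff_ne_zero.mpr (by positivity)
      generalize Nat.log 2 (Fintype.card κ) = a at *
      generalize tot cr k P = t at *
      have e1 : K ^ 2 * 2 ^ d * D * 2 ^ ((d - 1) * L₁) = K ^ 2 * 2 ^ d * (D * 2 ^ ((d - 1) * L₁)) := by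
        ring
      rw [e1] at h7
      generalize D * 2 ^ ((d - 1) * L₁) = b at *
      generalize D ^ d = c at *
      generalize K ^ 2 * 2 ^ d = u at *
      generalize K * 2 ^ d = v at *
      have g1 : cn cr k l ≤ a + 1 + 2 * (u * b) + v * c := by omega
      have g2 : (2 * u + v + 1) * (a + b + c) =
          2 * (u * b) + v * c + a + b + (2 * (u * a) + 2 * (u * c) + v * a + v * b + c) := by
        ring
      rw [g2]
      omega
    refine ⟨(finCongr hll.symm).trans (hnd.getEquivOfForallMemList l hmem), fun k => ?_⟩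
    refine le_trans ?_ (key k)
    refine le_trans (le_of_eq ?_) (cn_filter cr k l)
    refine Finset.card_bij (fun i _ => finCongr hll.symm i) ?_ ?_ ?_
    · intro i hi
      rw [Finset.mem_filter] at hi ⊢
      obtain ⟨-, h, hc⟩ := hi
      refine ⟨Finset.mem_univ _, ?_⟩
      exact ⟨lt_of_lt_of_eq h hll.symm, hc⟩
    · intro i _ j _ h
      exact (finCongr hll.symm).injective h
    · intro i hi
      rw [Finset.mem_filter] at hi
      obtain ⟨-, h, hc⟩ := hi
      refine ⟨finCongr hll i, ?_, ?_⟩
      · rw [Finset.mem_filter]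
        refine ⟨Finset.mem_univ _, ?_⟩
        exact ⟨lt_of_lt_of_eq h hll, hc⟩
      · simp
  -- the initial family
  set P0 : List (X × List X) := (univ : Finset X).toList.map fun x => (x, []) with hP0
  have hP0p : (P0.flatMap pl).Perm (univ : Finset X).toList := by
    have : P0.flatMap pl = (univ : Finset X).toList := by
      rw [hP0, List.flatMap_map]
      simp [pl]
    rw [this]
  have hP0l : P0.length = Fintype.card X := by
    rw [hP0, List.length_map, Finset.length_toList, Finset.card_univ]
  have hP0W : W cr P0 = Fintype.card κ := by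
    have : ∀ k, tot cr k P0 = 0 := by
      intro k
      rw [tot, hP0, List.map_map]
      have : ((fun p => cn cr k (pl p)) ∘ fun x : X => (x, ([] : List X))) = fun _ => 0 := by
        funext x
        rfl
      rw [this]
      simp
    rw [W]
    simp [this]
  by_cases hDL : D ≤ 2 ^ L₁
  · -- main case
    set L0 := Nat.clog 2 D with hL0
    have hL0D : D ≤ 2 ^ L0 := Nat.le_pow_clog (by norm_num) D
    have hL0L : L0 ≤ L₁ := (Nat.clog_le_iff_le_pow (by norm_num)).mpr hDL
    have hL02 : 2 ^ L0 ≤ 2 * D := by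
      rcases Nat.eq_or_lt_of_le hD with h | h
      · rw [← h] at hL0
        simp at hL0
        rw [hL0]
        omega
      · have h1 : 0 < L0 := Nat.clog_pos (by norm_num) h
        have h2 : 2 ^ (L0 - 1) < D := Nat.pow_pred_clog_lt_self (by norm_num) h
        have h3 : 2 ^ L0 = 2 * 2 ^ (L0 - 1) := by
          rw [← pow_succ']
          congr 1
          omega
        omega
    set c := K ^ 2 * 2 ^ d * D with hc
    have hmain : ∀ m : ℕ, L0 + m ≤ L₁ → ∃ P : List (X × List X),
        (P.flatMap pl).Perm (univ : Finset X).toList ∧ P.length ≤ K * 2 ^ (d * (L₁ - m)) ∧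
        W cr P * 4 ^ (c * 2 ^ ((d - 1) * (L₁ - m))) ≤
          Fintype.card κ * 4 ^ (c * 2 ^ ((d - 1) * L₁)) := by
      intro m
      induction m with
      | zero =>
        intro _
        refine ⟨P0, hP0p, ?_, ?_⟩
        · rw [hP0l]; simpa using hcard
        · rw [hP0W]; simp
      | succ m ih =>
        intro hm
        obtain ⟨P, hPp, hPl, hPW⟩ := ih (by omega)
        set L := L₁ - (m + 1) with hL
        have hLs : L₁ - m = L + 1 := by omega
        rw [hLs] at hPl hPW
        have hDL' : D ≤ 2 ^ L := hL0D.trans (Nat.pow_le_pow_right (by norm_num) (by omega))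
        obtain ⟨Q, hQp, hQl, hQW⟩ := steps cr hs K D L (K * 2 ^ (d * L)) (H L hDL') P hPp
          (K * 2 ^ (d * (L + 1)))
        refine ⟨Q, hQp, ?_, ?_⟩
        · refine hQl.trans ?_
          rw [max_le_iff]
          exact ⟨le_rfl, by omega⟩
        · have hexp : (1 + (K : ℝ) * D / 2 ^ L) ^ (K * 2 ^ (d * (L + 1))) ≤
              4 ^ (c * 2 ^ ((d - 1) * L)) := by
            apply exp_pow_le
            · positivity
            · rw [hc]
              push_cast
              have h2 : (2 : ℝ) ^ (d * (L + 1)) = 2 ^ L * (2 ^ d * 2 ^ ((d - 1) * L)) := by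
                rw [← pow_add, ← pow_add]
                congr 1
                obtain ⟨d', rfl⟩ : ∃ d', d = d' + 1 := ⟨d - 1, by omega⟩
                simp only [Nat.add_sub_cancel]
                ring
              rw [h2]
              field_simp
          have hdd : c * 2 ^ ((d - 1) * L) + c * 2 ^ ((d - 1) * L) ≤
              c * 2 ^ ((d - 1) * (L + 1)) := by
            rw [← mul_add]
            apply Nat.mul_le_mul_left
            rw [← two_mul, mul_add, mul_one, pow_add, mul_comm]
            apply Nat.mul_le_mul_left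
            calc 2 = 2 ^ 1 := by norm_num
              _ ≤ 2 ^ (d - 1) := Nat.pow_le_pow_right (by norm_num) (by omega)
          calc W cr Q * 4 ^ (c * 2 ^ ((d - 1) * L))
              ≤ (W cr P * 4 ^ (c * 2 ^ ((d - 1) * L))) * 4 ^ (c * 2 ^ ((d - 1) * L)) := by
                apply mul_le_mul_of_nonneg_right _ (by positivity)
                exact hQW.trans (mul_le_mul_of_nonneg_left hexp (W_nonneg cr P))
            _ = W cr P * 4 ^ (c * 2 ^ ((d - 1) * L) + c * 2 ^ ((d - 1) * L)) := by
                rw [pow_add, mul_assoc]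
            _ ≤ W cr P * 4 ^ (c * 2 ^ ((d - 1) * (L + 1))) := by
                apply mul_le_mul_of_nonneg_left _ (W_nonneg cr P)
                exact pow_le_pow_right₀ (by norm_num) hdd
            _ ≤ _ := hPW
    obtain ⟨P, hPp, hPl, hPW⟩ := hmain (L₁ - L0) (by omega)
    have hLL : L₁ - (L₁ - L0) = L0 := by omega
    rw [hLL] at hPl hPW
    refine ⟨P, hPp, ?_, ?_⟩
    · refine hPl.trans ?_
      rw [mul_assoc]
      apply Nat.mul_le_mul_left
      calc 2 ^ (d * L0) = (2 ^ L0) ^ d := by rw [mul_comm, pow_mul]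
        _ ≤ (2 * D) ^ d := Nat.pow_le_pow_left hL02 d
        _ = 2 ^ d * D ^ d := mul_pow _ _ _
    · have h1 : (1 : ℝ) ≤ 4 ^ (c * 2 ^ ((d - 1) * L0)) := one_le_pow₀ (by norm_num)
      have h2 := W_nonneg cr P
      calc W cr P ≤ W cr P * 4 ^ (c * 2 ^ ((d - 1) * L0)) := by nlinarith
        _ ≤ _ := hPW
  · push Not at hDL
    refine ⟨P0, hP0p, ?_, ?_⟩
    · rw [hP0l]
      refine hcard.trans ?_
      rw [mul_assoc]
      apply Nat.mul_le_mul_left
      calc 2 ^ (d * L₁) = (2 ^ L₁) ^ d := by rw [mul_comm, pow_mul]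
        _ ≤ D ^ d := Nat.pow_le_pow_left hDL.le d
        _ ≤ 2 ^ d * D ^ d := Nat.le_mul_of_pos_left _ (by positivity)
    · rw [hP0W]
      have : (1 : ℝ) ≤ 4 ^ (K ^ 2 * 2 ^ d * D * 2 ^ ((d - 1) * L₁)) := one_le_pow₀ (by norm_num)
      have h0 : (0 : ℝ) ≤ Fintype.card κ := by positivity
      nlinarith

end Pool.Agent.R98.EQ
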